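import Pool.Agent.H22.NL.H51

set_option autoImplicit false
open scoped BigOperators

/-!
# Project NL, A1: pair sums of convex functions of the eigenvalues are convex
-/

noncomputable section
namespace Pool.Agent.H22.NL.A1

open H51

variable {n : ℕ}

/-- Jensen for a product of two rows of a doubly stochastic matrix -/
theorem jensen2 {P : Fin n → Fin n → ℝ} (hP : DS P) {ψ : ℝ → ℝ} (hψ : ConvexOn ℝ Set.univ ψ)
    (x : Fin n → ℝ) (a b : Fin n) :
    ψ (∑ c, P a c * x c - ∑ c, P b c * x c) ≤ ∑ c, ∑ d, P a c * P b d * ψ (x c - x d) := by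
  have h1 : ∑ p : Fin n × Fin n, P a p.1 * P b p.2 = 1 := by
    rw [Fintype.sum_prod_type]
    simp only [← Finset.mul_sum, hP.row, mul_one]
  have h := hψ.map_sum_le (t := Finset.univ) (w := fun p : Fin n × Fin n => P a p.1 * P b p.2)
    (p := fun p => x p.1 - x p.2) (fun p _ => mul_nonneg (hP.nonneg _ _) (hP.nonneg _ _)) h1
    (fun p _ => Set.mem_univ _)
  simp only [smul_eq_mul] at h
  rw [Fintype.sum_prod_type, Fintype.sum_prod_type] at h
  refine le_trans (le_of_eq ?_) h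
  congr 1
  simp only [mul_sub, Finset.sum_sub_distrib]
  congr 1
  · refine Finset.sum_congr rfl fun c _ => ?_
    rw [← Finset.sum_mul]
    rw [← Finset.mul_sum, hP.row, mul_one]
  · rw [Finset.sum_comm]
    refine Finset.sum_congr rfl fun d _ => ?_
    rw [← Finset.sum_mul, ← Finset.sum_mul, hP.row, one_mul]

theorem sum2 {P : Fin n → Fin n → ℝ} (hP : DS P) (f : Fin n → Fin n → ℝ) :
    ∑ a, ∑ b, ∑ c, ∑ d, P a c * P b d * f c d = ∑ c, ∑ d, f c d := by
  have h1 : ∀ a, ∑ b, ∑ c, ∑ d, P a c * P b d * f c d = ∑ c, ∑ d, P a c * f c d := by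
    intro a
    rw [Finset.sum_comm]
    refine Finset.sum_congr rfl fun c _ => ?_
    rw [Finset.sum_comm]
    refine Finset.sum_congr rfl fun d _ => ?_
    rw [← Finset.sum_mul, ← Finset.mul_sum, hP.col, mul_one]
  simp only [h1]
  rw [Finset.sum_comm]
  refine Finset.sum_congr rfl fun c _ => ?_
  rw [Finset.sum_comm]
  refine Finset.sum_congr rfl fun d _ => ?_
  rw [← Finset.sum_mul, hP.col, one_mul]

theorem main : S_A1 := by
  intro n M1 M2 ψ h1 h2 hψ α β hα hβ hab
  obtain ⟨P, Q, hP, hQ, h⟩ := decomp h1 h2 α β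
  unfold PS
  have key : ∀ a b, ψ (eig ((α : ℂ) • M1 + (β : ℂ) • M2) a -
      eig ((α : ℂ) • M1 + (β : ℂ) • M2) b) ≤
      α * (∑ c, ∑ d, P a c * P b d * ψ (eig M1 c - eig M1 d)) +
      β * (∑ c, ∑ d, Q a c * Q b d * ψ (eig M2 c - eig M2 d)) := by
    intro a b
    rw [h a, h b]
    have e : α * ∑ c, P a c * eig M1 c + β * ∑ c, Q a c * eig M2 c -
        (α * ∑ c, P b c * eig M1 c + β * ∑ c, Q b c * eig M2 c) =
        α * (∑ c, P a c * eig M1 c - ∑ c, P b c * eig M1 c) +
        β * (∑ c, Q a c * eig M2 c - ∑ c, Q b c * eig M2 c) := by ring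
    rw [e]
    have h3 := hψ.2 (Set.mem_univ (∑ c, P a c * eig M1 c - ∑ c, P b c * eig M1 c))
      (Set.mem_univ (∑ c, Q a c * eig M2 c - ∑ c, Q b c * eig M2 c)) hα hβ hab
    simp only [smul_eq_mul] at h3
    refine h3.trans (add_le_add ?_ ?_)
    · exact mul_le_mul_of_nonneg_left (jensen2 hP hψ _ a b) hα
    · exact mul_le_mul_of_nonneg_left (jensen2 hQ hψ _ a b) hβ
  refine (Finset.sum_le_sum fun a _ => Finset.sum_le_sum fun b _ => key a b).trans
    (le_of_eq ?_)
  simp only [Finset.sum_add_distrib]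
  simp only [← Finset.mul_sum]
  have e1 := sum2 hP (fun c d => ψ (eig M1 c - eig M1 d))
  have e2 := sum2 hQ (fun c d => ψ (eig M2 c - eig M2 d))
  rw [e1, e2]

end Pool.Agent.H22.NL.A1
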