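import Pool.Agent.H22.NL.H51

set_option autoImplicit false
open scoped BigOperators

/-!
# Project NL, A2: detection of a small gap by the sum of the absolute values
-/

noncomputable section
namespace Pool.Agent.H22.NL.A2

open H51

variable {n : ℕ}

/-- extension of a vector by zero -/
def ext0 (x : Fin n → ℝ) (i : ℕ) : ℝ := if h : i < n then x ⟨i, h⟩ else 0

theorem ext0_of (x : Fin n → ℝ) (i : Fin n) : ext0 x i = x i := by
  unfold ext0; rw [dif_pos i.2]

theorem sum_ext0 (x : Fin n → ℝ) : ∑ i ∈ Finset.range n, ext0 x i = ∑ i, x i := by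
  rw [Finset.sum_range]
  exact Finset.sum_congr rfl fun i _ => ext0_of x i

/-- sum of the first `m` entries -/
def F (x : ℕ → ℝ) (m : ℕ) : ℝ := ∑ i ∈ Finset.range m, x i

/-- pair sum through the partial sums, for decreasing sequences -/
theorem pair_sum (x : ℕ → ℝ) : ∀ n : ℕ, (∀ i j, i ≤ j → j < n → x j ≤ x i) →
    ∑ i ∈ Finset.range n, ∑ j ∈ Finset.range n, |x i - x j| =
      4 * ∑ m ∈ Finset.range n, F x m - 2 * ((n : ℝ) - 1) * F x n := by
  intro n
  induction n with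
  | zero => intro _; simp [F]
  | succ n ih =>
    intro h
    have ih' := ih (fun i j hij hj => h i j hij (by omega))
    rw [Finset.sum_range_succ]
    have e1 : ∑ i ∈ Finset.range n, ∑ j ∈ Finset.range (n + 1), |x i - x j| =
        ∑ i ∈ Finset.range n, ∑ j ∈ Finset.range n, |x i - x j| +
        (F x n - n * x n) := by
      rw [← Finset.sum_congr rfl fun i _ => (Finset.sum_range_succ _ _).symm]
      rw [Finset.sum_add_distrib]
      congr 1
      have : ∀ i ∈ Finset.range n, |x i - x n| = x i - x n := by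
        intro i hi
        rw [abs_of_nonneg]
        have := h i n (by simp at hi; omega) (by omega)
        linarith
      rw [Finset.sum_congr rfl this, Finset.sum_sub_distrib]
      simp [F]
    have e2 : ∑ j ∈ Finset.range (n + 1), |x n - x j| = F x n - n * x n := by
      rw [Finset.sum_range_succ]
      have : ∀ i ∈ Finset.range n, |x n - x i| = x i - x n := by
        intro i hi
        rw [abs_sub_comm, abs_of_nonneg]
        have := h i n (by simp at hi; omega) (by omega)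
        linarith
      rw [Finset.sum_congr rfl this, Finset.sum_sub_distrib]
      simp [F]
    rw [e1, e2, ih', Finset.sum_range_succ]
    have e3 : F x (n + 1) = F x n + x n := by simp [F, Finset.sum_range_succ]
    rw [e3]
    push_cast
    ring

/-- a decreasing rearrangement of the eigenvalues (of any vector) -/
theorem exists_sort (x : Fin n → ℝ) : ∃ σ : Equiv.Perm (Fin n), Antitone (x ∘ σ) := by
  refine ⟨Tuple.sort (fun i => -x i), ?_⟩
  have := Tuple.monotone_sort (fun i => -x i)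
  intro i j hij
  have h := this hij
  simp only [Function.comp_apply] at h ⊢
  linarith

/-- Ky Fan: weights in `[0,1]` with total `m` -/
theorem kf {P : Fin n → Fin n → ℝ} (hP : DS P) (x : Fin n → ℝ) (hx : Antitone x) (m : ℕ)
    (hm : m ≤ n) :
    ∑ i ∈ Finset.range m, ext0 (fun a => ∑ c, P a c * x c) i ≤ F (ext0 x) m := by
  rcases Nat.eq_zero_or_pos m with rfl | hm0
  · simp [F]
  set w : Fin n → ℝ := fun c => ∑ a : Fin n, if (a : ℕ) < m then P a c else 0 with hw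
  have conv : ∀ y : Fin n → ℝ, ∑ i ∈ Finset.range m, ext0 y i =
      ∑ a : Fin n, if (a : ℕ) < m then y a else 0 := by
    intro y
    have h1 : ∑ i ∈ Finset.range m, ext0 y i =
        ∑ i ∈ Finset.range n, if i < m then ext0 y i else 0 := by
      rw [← Finset.sum_filter]
      congr 1
      ext i
      simp
      omega
    rw [h1, Finset.sum_range]
    refine Finset.sum_congr rfl fun a _ => ?_
    rw [ext0_of]
  have hcard : (∑ a : Fin n, if (a : ℕ) < m then (1 : ℝ) else 0) = m := by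
    have := conv (fun _ => 1)
    rw [← this]
    have : ∀ i ∈ Finset.range m, ext0 (fun _ : Fin n => (1 : ℝ)) i = 1 := by
      intro i hi
      simp at hi
      unfold ext0
      rw [dif_pos (by omega)]
    rw [Finset.sum_congr rfl this]
    simp
  have hw0 : ∀ c, 0 ≤ w c := fun c => Finset.sum_nonneg fun a _ => by
    split_ifs
    · exact hP.nonneg _ _
    · exact le_rfl
  have hw1 : ∀ c, w c ≤ 1 := fun c => by
    rw [← hP.col c]
    refine Finset.sum_le_sum fun a _ => ?_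
    split_ifs
    · exact le_rfl
    · exact hP.nonneg _ _
  have hws : ∑ c, w c = m := by
    rw [hw, Finset.sum_comm, ← hcard]
    refine Finset.sum_congr rfl fun a _ => ?_
    by_cases ha : (a : ℕ) < m
    · simp only [ha, if_true]; exact hP.row a
    · simp only [ha, if_false]; simp
  have lhs : ∑ i ∈ Finset.range m, ext0 (fun a => ∑ c, P a c * x c) i = ∑ c, w c * x c := by
    rw [conv]
    simp only [hw, Finset.sum_mul]
    rw [Finset.sum_comm]
    refine Finset.sum_congr rfl fun a _ => ?_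
    by_cases ha : (a : ℕ) < m
    · simp only [ha, if_true]
    · simp only [ha, if_false]; simp
  have rhs : F (ext0 x) m = ∑ c : Fin n, (if (c : ℕ) < m then (1 : ℝ) else 0) * x c := by
    unfold F
    rw [conv]
    refine Finset.sum_congr rfl fun a _ => ?_
    split_ifs <;> simp
  rw [lhs, rhs]
  set θ := x ⟨m - 1, by omega⟩ with hθ
  have key : 0 ≤ ∑ c : Fin n, ((if (c : ℕ) < m then (1 : ℝ) else 0) - w c) * (x c - θ) := by
    refine Finset.sum_nonneg fun c _ => ?_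
    by_cases hc : (c : ℕ) < m
    · simp only [hc, if_true]
      refine mul_nonneg (by linarith [hw1 c]) ?_
      have : θ ≤ x c := hx (by rw [Fin.le_def]; simp; omega)
      linarith
    · simp only [hc, if_false]
      have : x c ≤ θ := hx (by rw [Fin.le_def]; simp; omega)
      nlinarith [hw0 c]
  have e : ∑ c : Fin n, ((if (c : ℕ) < m then (1 : ℝ) else 0) - w c) * (x c - θ) =
      ∑ c : Fin n, (if (c : ℕ) < m then (1 : ℝ) else 0) * x c - ∑ c, w c * x c -
        ((∑ a : Fin n, if (a : ℕ) < m then (1 : ℝ) else 0) - ∑ c, w c) * θ := by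
    rw [← Finset.sum_sub_distrib, ← Finset.sum_sub_distrib, Finset.sum_mul,
      ← Finset.sum_sub_distrib]
    refine Finset.sum_congr rfl fun c _ => ?_
    ring
  rw [e, hcard, hws] at key
  linarith

theorem DS.perm {P : Fin n → Fin n → ℝ} (hP : DS P) (σ τ : Equiv.Perm (Fin n)) :
    DS fun a c => P (σ a) (τ c) where
  nonneg a c := hP.nonneg _ _
  row a := by rw [Equiv.sum_comp τ fun c => P (σ a) c]; exact hP.row _
  col c := by rw [Equiv.sum_comp σ fun a => P a (τ c)]; exact hP.col _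

theorem ps_perm (x : Fin n → ℝ) (σ : Equiv.Perm (Fin n)) :
    ∑ i, ∑ j, |x i - x j| = ∑ i, ∑ j, |(x ∘ σ) i - (x ∘ σ) j| := by
  rw [← Equiv.sum_comp σ]
  refine Finset.sum_congr rfl fun i _ => ?_
  rw [← Equiv.sum_comp σ]
  rfl

theorem ps_anti (x : Fin n → ℝ) (hx : Antitone x) :
    ∑ i, ∑ j, |x i - x j| =
      4 * ∑ m ∈ Finset.range n, F (ext0 x) m - 2 * ((n : ℝ) - 1) * F (ext0 x) n := by
  rw [← pair_sum (ext0 x) n]
  · rw [Finset.sum_range]
    refine Finset.sum_congr rfl fun i _ => ?_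
    rw [Finset.sum_range]
    refine Finset.sum_congr rfl fun j _ => ?_
    rw [ext0_of, ext0_of]
  · intro i j hij hj
    unfold ext0
    rw [dif_pos hj, dif_pos (lt_of_le_of_lt hij hj)]
    exact hx (by rw [Fin.le_def]; exact hij)

theorem F_two (x : ℕ → ℝ) (i : ℕ) : 2 * F x (i + 1) - F x i - F x (i + 2) = x i - x (i + 1) := by
  simp only [F, Finset.sum_range_succ]
  ring

theorem big_gap (x : Fin n → ℝ) (σ : Equiv.Perm (Fin n)) (hx : Antitone (x ∘ σ)) (η : ℝ)
    (h : ∀ i j, i ≠ j → η ≤ |x i - x j|) (i : ℕ) (hi : i + 1 < n) :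
    η ≤ ext0 (x ∘ σ) i - ext0 (x ∘ σ) (i + 1) := by
  unfold ext0
  rw [dif_pos hi, dif_pos (by omega : i < n)]
  have h1 := h (σ ⟨i, by omega⟩) (σ ⟨i + 1, hi⟩) (by
    intro he
    have := σ.injective he
    simp at this)
  have h2 : (x ∘ σ) ⟨i + 1, hi⟩ ≤ (x ∘ σ) ⟨i, by omega⟩ := hx (by rw [Fin.le_def]; simp)
  simp only [Function.comp_apply] at h2 ⊢
  rwa [abs_of_nonneg (by linarith)] at h1

theorem small_gap (x : Fin n → ℝ) (σ : Equiv.Perm (Fin n)) (hx : Antitone (x ∘ σ)) (η : ℝ)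
    (h : ∃ i j, i ≠ j ∧ |x i - x j| ≤ η) :
    ∃ i : ℕ, i + 1 < n ∧ ext0 (x ∘ σ) i - ext0 (x ∘ σ) (i + 1) ≤ η := by
  have h' : ∃ p q : Fin n, p < q ∧ |(x ∘ σ) p - (x ∘ σ) q| ≤ η := by
    obtain ⟨i, j, hij, hle⟩ := h
    have hne : σ.symm i ≠ σ.symm j := fun e => hij (σ.symm.injective e)
    rcases lt_or_gt_of_ne hne with hl | hl
    · exact ⟨_, _, hl, by simpa using hle⟩
    · exact ⟨_, _, hl, by rw [abs_sub_comm]; simpa using hle⟩
  obtain ⟨p, q, hpq, hle⟩ := h'
  have hq := q.2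
  have hpq' : (p : ℕ) < q := hpq
  refine ⟨p, by omega, ?_⟩
  unfold ext0
  rw [dif_pos (by omega : (p : ℕ) + 1 < n), dif_pos p.2]
  have h2 : (x ∘ σ) q ≤ (x ∘ σ) ⟨p + 1, by omega⟩ := hx (by rw [Fin.le_def]; exact hpq')
  have h3 := le_abs_self ((x ∘ σ) p - (x ∘ σ) q)
  have h4 : (x ∘ σ) ⟨p, p.2⟩ = (x ∘ σ) p := rfl
  rw [h4]
  linarith

theorem main : S_A2 := by
  intro n M1 M2 η h1 h2 hη g1 g2 gs
  have hM : (1 / 2 : ℂ) • (M1 + M2) = (((1 / 2 : ℝ)) : ℂ) • M1 + (((1 / 2 : ℝ)) : ℂ) • M2 := by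
    rw [smul_add]
    push_cast
    rfl
  obtain ⟨P, Q, hP, hQ, h⟩ := decomp h1 h2 (1 / 2) (1 / 2)
  rw [← hM] at h
  set x := eig ((1 / 2 : ℂ) • (M1 + M2)) with hx
  set x1 := eig M1 with hx1
  set x2 := eig M2 with hx2
  obtain ⟨σ, hσ⟩ := exists_sort x
  obtain ⟨σ1, hσ1⟩ := exists_sort x1
  obtain ⟨σ2, hσ2⟩ := exists_sort x2
  have hP' := DS.perm hP σ σ1
  have hQ' := DS.perm hQ σ σ2
  unfold PS
  change 2 * ∑ i, ∑ j, |x i - x j| + 3 * η ≤ ∑ i, ∑ j, |x1 i - x1 j| + ∑ i, ∑ j, |x2 i - x2 j|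
  rw [ps_perm x σ, ps_perm x1 σ1, ps_perm x2 σ2, ps_anti _ hσ, ps_anti _ hσ1, ps_anti _ hσ2]
  have hsum : ∀ m, m ≤ n → F (ext0 (x ∘ σ)) m =
      1 / 2 * ∑ i ∈ Finset.range m, ext0 (fun a => ∑ c, P (σ a) (σ1 c) * (x1 ∘ σ1) c) i +
      1 / 2 * ∑ i ∈ Finset.range m, ext0 (fun a => ∑ c, Q (σ a) (σ2 c) * (x2 ∘ σ2) c) i := by
    intro m hm
    unfold F
    rw [Finset.mul_sum, Finset.mul_sum, ← Finset.sum_add_distrib]
    refine Finset.sum_congr rfl fun i hi => ?_
    simp only [Finset.mem_range] at hi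
    unfold ext0
    rw [dif_pos (by omega : i < n), dif_pos (by omega : i < n), dif_pos (by omega : i < n)]
    simp only [Function.comp_apply]
    rw [h, Equiv.sum_comp σ1 (fun c => P (σ ⟨i, by omega⟩) c * x1 c),
      Equiv.sum_comp σ2 (fun c => Q (σ ⟨i, by omega⟩) c * x2 c)]
  have hD : ∀ m, m ≤ n → 2 * F (ext0 (x ∘ σ)) m ≤ F (ext0 (x1 ∘ σ1)) m + F (ext0 (x2 ∘ σ2)) m := by
    intro m hm
    have k1 := kf hP' (x1 ∘ σ1) hσ1 m hm
    have k2 := kf hQ' (x2 ∘ σ2) hσ2 m hm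
    rw [hsum m hm]
    linarith
  have hDn : 2 * F (ext0 (x ∘ σ)) n = F (ext0 (x1 ∘ σ1)) n + F (ext0 (x2 ∘ σ2)) n := by
    rw [hsum n le_rfl]
    have tot : ∀ {R : Fin n → Fin n → ℝ} (_ : DS R) (y : Fin n → ℝ),
        ∑ i ∈ Finset.range n, ext0 (fun a => ∑ c, R a c * y c) i = F (ext0 y) n := by
      intro R hR y
      unfold F
      rw [sum_ext0, sum_ext0, Finset.sum_comm]
      refine Finset.sum_congr rfl fun c _ => ?_
      rw [← Finset.sum_mul, hR.col, one_mul]
    rw [tot hP' (x1 ∘ σ1), tot hQ' (x2 ∘ σ2)]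
    ring
  obtain ⟨i, hi, hgap⟩ := small_gap x σ hσ _ gs
  have b1 := big_gap x1 σ1 hσ1 η g1 i hi
  have b2 := big_gap x2 σ2 hσ2 η g2 i hi
  have f0 := F_two (ext0 (x ∘ σ)) i
  have f1 := F_two (ext0 (x1 ∘ σ1)) i
  have f2 := F_two (ext0 (x2 ∘ σ2)) i
  have d0 := hD i (by omega)
  have d2 := hD (i + 2) (by omega)
  have hbig : 3 * η / 4 ≤
      F (ext0 (x1 ∘ σ1)) (i + 1) + F (ext0 (x2 ∘ σ2)) (i + 1) - 2 * F (ext0 (x ∘ σ)) (i + 1) := by
    linarith
  have hsumD : F (ext0 (x1 ∘ σ1)) (i + 1) + F (ext0 (x2 ∘ σ2)) (i + 1) -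
      2 * F (ext0 (x ∘ σ)) (i + 1) ≤ ∑ m ∈ Finset.range n,
        (F (ext0 (x1 ∘ σ1)) m + F (ext0 (x2 ∘ σ2)) m - 2 * F (ext0 (x ∘ σ)) m) := by
    refine Finset.single_le_sum (f := fun m => F (ext0 (x1 ∘ σ1)) m + F (ext0 (x2 ∘ σ2)) m -
      2 * F (ext0 (x ∘ σ)) m) (fun m hm => ?_) (Finset.mem_range.2 hi)
    have := hD m (by simp at hm; omega)
    linarith
  rw [Finset.sum_sub_distrib, Finset.sum_add_distrib, ← Finset.mul_sum] at hsumD
  have hn : 2 * ((n : ℝ) - 1) * (2 * F (ext0 (x ∘ σ)) n) =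
      2 * ((n : ℝ) - 1) * (F (ext0 (x1 ∘ σ1)) n + F (ext0 (x2 ∘ σ2)) n) := by rw [hDn]
  linarith

end Pool.Agent.H22.NL.A2
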