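import Pool.Agent.H22.NL.H51

set_option autoImplicit false
open scoped BigOperators

/-!
# Project NL, A3: Weyl's inequality for diagonal perturbations
-/

noncomputable section
namespace Pool.Agent.H22.NL.A3

open H51

variable {n : ℕ}

theorem exists_sort (x : Fin n → ℝ) : ∃ σ : Equiv.Perm (Fin n), Antitone (x ∘ σ) := by
  refine ⟨Tuple.sort (fun i => -x i), ?_⟩
  have := Tuple.monotone_sort (fun i => -x i)
  intro i j hij
  have h := this hij
  simp only [Function.comp_apply] at h ⊢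
  linarith

theorem qf_diag (d : Fin n → ℝ) (v : E n) :
    qf (Matrix.diagonal fun i => ((d i : ℝ) : ℂ)) v = ∑ i, d i * ‖v i‖ ^ 2 := by
  unfold qf
  rw [PiLp.inner_apply, Complex.re_sum]
  refine Finset.sum_congr rfl fun i _ => ?_
  have h1 : (Matrix.toEuclideanLin (Matrix.diagonal fun i => ((d i : ℝ) : ℂ)) v) i =
      ((d i : ℝ) : ℂ) * v i := by
    simp [Matrix.toLpLin_apply, Matrix.mulVec_diagonal]
  rw [h1]
  have h2 : inner ℂ (v i) (((d i : ℝ) : ℂ) * v i) = ((d i : ℝ) : ℂ) * inner ℂ (v i) (v i) := by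
    rw [← smul_eq_mul, inner_smul_right]
  rw [h2, Complex.re_ofReal_mul, inner_self_eq_norm_sq_to_K]
  norm_cast

theorem qf_diag_le (d : Fin n → ℝ) (c : ℝ) (hd : ∀ i, |d i| ≤ c) (v : E n) :
    qf (Matrix.diagonal fun i => ((d i : ℝ) : ℂ)) v ≤ c * ‖v‖ ^ 2 := by
  rw [qf_diag, EuclideanSpace.norm_sq_eq, Finset.mul_sum]
  refine Finset.sum_le_sum fun i _ => ?_
  exact mul_le_mul_of_nonneg_right ((le_abs_self _).trans (hd i)) (by positivity)

/-- a vector orthogonal to few vectors -/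
theorem exists_orth (b b' : Fin n → E n) (k : Fin n) :
    ∃ v : E n, v ≠ 0 ∧ (∀ i, i < k → inner ℂ (b i) v = 0) ∧ (∀ i, k < i → inner ℂ (b' i) v = 0) := by
  let f : E n →ₗ[ℂ] ({i : Fin n // i ≠ k} → ℂ) :=
    LinearMap.pi fun i => if (i : Fin n) < k then (innerₛₗ ℂ (b i)) else (innerₛₗ ℂ (b' i))
  have hlt : Module.finrank ℂ ({i : Fin n // i ≠ k} → ℂ) < Module.finrank ℂ (E n) := by
    rw [Module.finrank_fintype_fun_eq_card, finrank_euclideanSpace, Fintype.card_subtype_compl]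
    have := k.2
    simp
    omega
  have hker := LinearMap.ker_ne_bot_of_finrank_lt (f := f) hlt
  obtain ⟨v, hv, hv0⟩ := (Submodule.ne_bot_iff _).1 hker
  refine ⟨v, hv0, fun i hi => ?_, fun i hi => ?_⟩
  · have := congrFun (LinearMap.mem_ker.1 hv) ⟨i, hi.ne⟩
    simpa [f, hi] using this
  · have := congrFun (LinearMap.mem_ker.1 hv) ⟨i, hi.ne'⟩
    simpa [f, not_lt.2 hi.le] using this

theorem half {M M' : Matrix (Fin n) (Fin n) ℂ} (h : M.IsHermitian) (h' : M'.IsHermitian) (c : ℝ)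
    (hc : ∀ v : E n, qf M' v ≤ qf M v + c * ‖v‖ ^ 2) (σ σ' : Equiv.Perm (Fin n))
    (hσ : Antitone (eig M ∘ σ)) (hσ' : Antitone (eig M' ∘ σ')) (k : Fin n) :
    eig M' (σ' k) ≤ eig M (σ k) + c := by
  obtain ⟨v, hv0, hv1, hv2⟩ := exists_orth (fun i => h.eigenvectorBasis (σ i))
    (fun i => h'.eigenvectorBasis (σ' i)) k
  have hv : 0 < ‖v‖ ^ 2 := by positivity
  have n1 : ∑ i, ‖inner ℂ (h.eigenvectorBasis i) v‖ ^ 2 = ‖v‖ ^ 2 :=
    h.eigenvectorBasis.sum_sq_norm_inner_right v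
  have n2 : ∑ i, ‖inner ℂ (h'.eigenvectorBasis i) v‖ ^ 2 = ‖v‖ ^ 2 :=
    h'.eigenvectorBasis.sum_sq_norm_inner_right v
  have q1 : qf M v ≤ eig M (σ k) * ‖v‖ ^ 2 := by
    rw [qf_eq h, ← n1, Finset.mul_sum, ← Equiv.sum_comp σ, ← Equiv.sum_comp σ (fun i =>
      eig M (σ k) * ‖inner ℂ (h.eigenvectorBasis i) v‖ ^ 2)]
    refine Finset.sum_le_sum fun i _ => ?_
    by_cases hi : i < k
    · simp only [hv1 i hi]; simp
    · rw [mul_comm]
      exact mul_le_mul_of_nonneg_right (hσ (not_lt.1 hi)) (by positivity)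
  have q2 : eig M' (σ' k) * ‖v‖ ^ 2 ≤ qf M' v := by
    rw [qf_eq h', ← n2, Finset.mul_sum, ← Equiv.sum_comp σ', ← Equiv.sum_comp σ' (fun i =>
      ‖inner ℂ (h'.eigenvectorBasis i) v‖ ^ 2 * eig M' i)]
    refine Finset.sum_le_sum fun i _ => ?_
    by_cases hi : k < i
    · simp only [hv2 i hi]; simp
    · rw [mul_comm (‖inner ℂ (h'.eigenvectorBasis (σ' i)) v‖ ^ 2)]
      exact mul_le_mul_of_nonneg_right (hσ' (not_lt.1 hi)) (by positivity)
  have q3 := hc v
  have : eig M' (σ' k) * ‖v‖ ^ 2 ≤ (eig M (σ k) + c) * ‖v‖ ^ 2 := by linarith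
  exact le_of_mul_le_mul_right this hv

theorem main : S_A3 := by
  intro n M d c h hd
  have hD : (Matrix.diagonal fun i => ((d i : ℝ) : ℂ)).IsHermitian := by
    refine Matrix.isHermitian_diagonal_of_self_adjoint _ ?_
    ext i
    simp
  have h' : (M + Matrix.diagonal fun i => ((d i : ℝ) : ℂ)).IsHermitian := h.add hD
  obtain ⟨σ, hσ⟩ := exists_sort (eig M)
  obtain ⟨σ', hσ'⟩ := exists_sort (eig (M + Matrix.diagonal fun i => ((d i : ℝ) : ℂ)))
  have a1 : ∀ k, eig (M + Matrix.diagonal fun i => ((d i : ℝ) : ℂ)) (σ' k) ≤ eig M (σ k) + c := by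
    refine half h h' c (fun v => ?_) σ σ' hσ hσ'
    rw [qf_add]
    have := qf_diag_le d c hd v
    linarith
  have a2 : ∀ k, eig M (σ k) ≤ eig (M + Matrix.diagonal fun i => ((d i : ℝ) : ℂ)) (σ' k) + c := by
    refine half h' h c (fun v => ?_) σ' σ hσ' hσ
    rw [qf_add]
    have h1 := qf_diag_le (fun i => -d i) c (fun i => by rw [abs_neg]; exact hd i) v
    rw [qf_diag] at h1
    rw [qf_diag]
    have h2 : ∑ i, -d i * ‖v i‖ ^ 2 = -∑ i, d i * ‖v i‖ ^ 2 := by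
      rw [← Finset.sum_neg_distrib]
      exact Finset.sum_congr rfl fun i _ => by ring
    rw [h2] at h1
    linarith
  refine ⟨σ.symm.trans σ', fun i => ?_⟩
  have b1 := a1 (σ.symm i)
  have b2 := a2 (σ.symm i)
  rw [Equiv.apply_symm_apply] at b1 b2
  rw [Equiv.trans_apply, abs_le]
  constructor <;> linarith

end Pool.Agent.H22.NL.A3
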