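import Pool.Agent.H22.NL.Stm

set_option autoImplicit false
open scoped BigOperators Polynomial

namespace Pool.Agent.H22.NL.A4

/-- derivative of a summand of the potential -/
theorem hd1 (k : ℕ) (x : ℝ) :
    HasDerivAt (fun x : ℝ => (128 : ℝ) ^ k * Real.log (x ^ 2 + 256 ^ k))
      ((128 : ℝ) ^ k * (2 * x / (x ^ 2 + 256 ^ k))) x := by
  have hc : (0 : ℝ) < 256 ^ k := by positivity
  have h1 : HasDerivAt (fun x : ℝ => x ^ 2 + (256 : ℝ) ^ k) (2 * x) x := by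
    simpa using (hasDerivAt_pow 2 x).add_const ((256 : ℝ) ^ k)
  have h2 := h1.log (by positivity)
  exact h2.const_mul _

/-- second derivative of a summand of the potential -/
theorem hd2 (k : ℕ) (x : ℝ) :
    HasDerivAt (fun x : ℝ => (128 : ℝ) ^ k * (2 * x / (x ^ 2 + 256 ^ k)))
      ((128 : ℝ) ^ k * ((2 * (256 ^ k - x ^ 2)) / (x ^ 2 + 256 ^ k) ^ 2)) x := by
  have hc : (0 : ℝ) < 256 ^ k := by positivity
  have h1 : HasDerivAt (fun x : ℝ => x ^ 2 + (256 : ℝ) ^ k) (2 * x) x := by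
    simpa using (hasDerivAt_pow 2 x).add_const ((256 : ℝ) ^ k)
  have h0 : HasDerivAt (fun x : ℝ => 2 * x) 2 x := by
    simpa using (hasDerivAt_id x).const_mul (2 : ℝ)
  have h2 := h0.div h1 (by positivity)
  have h3 := h2.const_mul ((128 : ℝ) ^ k)
  refine h3.congr_deriv ?_
  congr 2
  ring

/-- the first derivative of the potential -/
noncomputable def dphi (K : ℕ) (x : ℝ) : ℝ :=
  ∑ k ∈ Finset.range (K + 1), (128 : ℝ) ^ k * (2 * x / (x ^ 2 + 256 ^ k))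

/-- the second derivative of the potential -/
noncomputable def ddphi (K : ℕ) (x : ℝ) : ℝ :=
  ∑ k ∈ Finset.range (K + 1), (128 : ℝ) ^ k * ((2 * (256 ^ k - x ^ 2)) / (x ^ 2 + 256 ^ k) ^ 2)

theorem hphi (K : ℕ) (x : ℝ) : HasDerivAt (phi K) (dphi K x) x := by
  have h := HasDerivAt.fun_sum (u := Finset.range (K + 1)) (fun k _ => hd1 k x)
  exact h

theorem hdphi (K : ℕ) (x : ℝ) : HasDerivAt (dphi K) (ddphi K x) x := by
  have h := HasDerivAt.fun_sum (u := Finset.range (K + 1)) (fun k _ => hd2 k x)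
  exact h

theorem key (c x : ℝ) (hc : 0 < c) :
    c / (c + 2 * x ^ 2) - 256 * c / (256 * c + 2 * x ^ 2) / 2 ≤
      c * (c - x ^ 2) / (x ^ 2 + c) ^ 2 := by
  have h1 : 0 < c + 2 * x ^ 2 := by positivity
  have h2 : 0 < 256 * c + 2 * x ^ 2 := by positivity
  have h3 : 0 < x ^ 2 + c := by positivity
  rw [← sub_nonneg]
  have h4 : c * (c - x ^ 2) / (x ^ 2 + c) ^ 2 -
      (c / (c + 2 * x ^ 2) - 256 * c / (256 * c + 2 * x ^ 2) / 2) =
      c * (64 * c ^ 3 + 128 * c ^ 2 * x ^ 2 - 65 * c * x ^ 4 + 125 * x ^ 6) /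
        ((x ^ 2 + c) ^ 2 * (c + 2 * x ^ 2) * (128 * c + x ^ 2)) := by
    have h5 : 0 < 128 * c + x ^ 2 := by positivity
    have h6 : 256 * c + 2 * x ^ 2 = 2 * (128 * c + x ^ 2) := by ring
    rw [h6]
    field_simp
    ring
  rw [h4]
  apply div_nonneg _ (by positivity)
  apply mul_nonneg hc.le
  have h7 : 0 ≤ x ^ 2 := sq_nonneg x
  have h8 : 64 * c ^ 3 + 128 * c ^ 2 * x ^ 2 - 65 * c * x ^ 4 + 125 * x ^ 6 =
      64 * c ^ 3 + x ^ 2 * (128 * c ^ 2 - 65 * c * x ^ 2 + 125 * (x ^ 2) ^ 2) := by ring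
  rw [h8]
  have h9 : 0 ≤ 128 * c ^ 2 - 65 * c * x ^ 2 + 125 * (x ^ 2) ^ 2 := by
    nlinarith [sq_nonneg (c - x ^ 2), sq_nonneg c, sq_nonneg (x ^ 2)]
  positivity

theorem lower (K : ℕ) (x : ℝ) :
    2 / (1 + 2 * x ^ 2) - (1 / 2) ^ K * (256 ^ (K + 1) / (256 ^ (K + 1) + 2 * x ^ 2)) ≤
      ddphi K x := by
  induction K with
  | zero =>
    have h := key 1 x one_pos
    unfold ddphi
    rw [Finset.sum_range_one]
    simp only [pow_zero, one_mul, zero_add, pow_one, mul_one] at h ⊢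
    have h1 : 2 * (1 - x ^ 2) / (x ^ 2 + 1) ^ 2 = 2 * ((1 - x ^ 2) / (x ^ 2 + 1) ^ 2) := by ring
    have h2 : 2 / (1 + 2 * x ^ 2) = 2 * (1 / (1 + 2 * x ^ 2)) := by ring
    rw [h1, h2]
    linarith
  | succ K ih =>
    have h : ddphi (K + 1) x = ddphi K x +
        (128 : ℝ) ^ (K + 1) * ((2 * (256 ^ (K + 1) - x ^ 2)) / (x ^ 2 + 256 ^ (K + 1)) ^ 2) := by
      unfold ddphi
      rw [Finset.sum_range_succ]
    have hc : (0 : ℝ) < 256 ^ (K + 1) := by positivity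
    have h1 := key (256 ^ (K + 1)) x hc
    have h2 : (128 : ℝ) ^ (K + 1) * ((2 * (256 ^ (K + 1) - x ^ 2)) / (x ^ 2 + 256 ^ (K + 1)) ^ 2) =
        (1 / 2) ^ K * (256 ^ (K + 1) * (256 ^ (K + 1) - x ^ 2) /
          (x ^ 2 + 256 ^ (K + 1)) ^ 2) := by
      have h3 : (128 : ℝ) ^ (K + 1) * 2 = (1 / 2) ^ K * 256 ^ (K + 1) := by
        have : (256 : ℝ) = 2 * 128 := by norm_num
        rw [this, mul_pow, pow_succ (2 : ℝ) K, ← mul_assoc, ← mul_assoc, ← mul_pow]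
        norm_num
        ring
      calc (128 : ℝ) ^ (K + 1) * ((2 * (256 ^ (K + 1) - x ^ 2)) / (x ^ 2 + 256 ^ (K + 1)) ^ 2)
          = ((128 : ℝ) ^ (K + 1) * 2) * ((256 ^ (K + 1) - x ^ 2) /
            (x ^ 2 + 256 ^ (K + 1)) ^ 2) := by ring
        _ = ((1 / 2) ^ K * 256 ^ (K + 1)) * ((256 ^ (K + 1) - x ^ 2) /
            (x ^ 2 + 256 ^ (K + 1)) ^ 2) := by rw [h3]
        _ = _ := by ring
    have h4 : (256 : ℝ) * 256 ^ (K + 1) = 256 ^ (K + 1 + 1) := by ring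
    rw [h4] at h1
    have h5 := mul_le_mul_of_nonneg_left h1 (by positivity : (0 : ℝ) ≤ (1 / 2) ^ K)
    rw [h, h2]
    have h6 : (1 / 2 : ℝ) ^ (K + 1) * (256 ^ (K + 1 + 1) / (256 ^ (K + 1 + 1) + 2 * x ^ 2)) =
        (1 / 2) ^ K * (256 ^ (K + 1 + 1) / (256 ^ (K + 1 + 1) + 2 * x ^ 2) / 2) := by ring
    rw [h6]
    linarith [h5, ih, mul_sub ((1 / 2 : ℝ) ^ K) (256 ^ (K + 1) / (256 ^ (K + 1) + 2 * x ^ 2))
      (256 ^ (K + 1 + 1) / (256 ^ (K + 1 + 1) + 2 * x ^ 2) / 2)]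

/-- first derivative of `sqrt (1 + x ^ 2)` -/
theorem hs1 (x : ℝ) : HasDerivAt (fun x : ℝ => Real.sqrt (1 + x ^ 2))
    (x / Real.sqrt (1 + x ^ 2)) x := by
  have h1 : HasDerivAt (fun x : ℝ => 1 + x ^ 2) (2 * x) x := by
    simpa using (hasDerivAt_pow 2 x).const_add (1 : ℝ)
  have h2 := h1.sqrt (by positivity)
  refine h2.congr_deriv ?_
  have h3 : 0 < Real.sqrt (1 + x ^ 2) := Real.sqrt_pos.2 (by positivity)
  field_simp

theorem hs2 (x : ℝ) : HasDerivAt (fun x : ℝ => x / Real.sqrt (1 + x ^ 2))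
    ((1 + x ^ 2) * Real.sqrt (1 + x ^ 2))⁻¹ x := by
  have h3 : 0 < Real.sqrt (1 + x ^ 2) := Real.sqrt_pos.2 (by positivity)
  have h2 := (hasDerivAt_id x).div (hs1 x) h3.ne'
  refine h2.congr_deriv ?_
  have h4 : Real.sqrt (1 + x ^ 2) ^ 2 = 1 + x ^ 2 := Real.sq_sqrt (by positivity)
  have h5 : (1 + x ^ 2) ≠ 0 := by positivity
  rw [h4]
  simp only [id_eq, one_mul]
  rw [div_eq_iff h5, mul_inv]
  field_simp
  rw [h4]
  ring

theorem main : S_A4 := by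
  intro K
  refine convexOn_of_hasDerivWithinAt2_nonneg
    (f' := fun x => dphi K x + (1 / 2) ^ K * x - x / Real.sqrt (1 + x ^ 2))
    (f'' := fun x => ddphi K x + (1 / 2) ^ K - ((1 + x ^ 2) * Real.sqrt (1 + x ^ 2))⁻¹)
    convex_univ ?_ ?_ ?_ ?_
  · intro x _
    have h := ((hphi K x).add (((hasDerivAt_pow 2 x).const_mul ((1 / 2 : ℝ) ^ K)).div_const 2)).sub
      (hs1 x)
    exact h.continuousAt.continuousWithinAt
  · intro x _
    have h := ((hphi K x).add (((hasDerivAt_pow 2 x).const_mul ((1 / 2 : ℝ) ^ K)).div_const 2)).sub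
      (hs1 x)
    refine (h.congr_deriv ?_).hasDerivWithinAt
    push_cast
    ring
  · intro x _
    have h := ((hdphi K x).add ((hasDerivAt_id x).const_mul ((1 / 2 : ℝ) ^ K))).sub (hs2 x)
    refine (h.congr_deriv ?_).hasDerivWithinAt
    ring
  · intro x _
    have h1 := lower K x
    have h2 : (256 : ℝ) ^ (K + 1) / (256 ^ (K + 1) + 2 * x ^ 2) ≤ 1 := by
      rw [div_le_one (by positivity)]
      nlinarith [sq_nonneg x]
    have h3 : (1 / 2 : ℝ) ^ K * (256 ^ (K + 1) / (256 ^ (K + 1) + 2 * x ^ 2)) ≤ (1 / 2) ^ K := by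
      have := mul_le_mul_of_nonneg_left h2 (by positivity : (0 : ℝ) ≤ (1 / 2) ^ K)
      simpa using this
    have h4 : ((1 + x ^ 2) * Real.sqrt (1 + x ^ 2))⁻¹ ≤ 2 / (1 + 2 * x ^ 2) := by
      have h5 : 1 ≤ Real.sqrt (1 + x ^ 2) := by
        rw [Real.one_le_sqrt]
        nlinarith [sq_nonneg x]
      rw [inv_eq_one_div, div_le_div_iff₀ (by positivity) (by positivity)]
      nlinarith [sq_nonneg x, mul_le_mul_of_nonneg_left h5 (by positivity : (0 : ℝ) ≤ 1 + x ^ 2)]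
    show 0 ≤ ddphi K x + (1 / 2) ^ K - ((1 + x ^ 2) * Real.sqrt (1 + x ^ 2))⁻¹
    linarith

end Pool.Agent.H22.NL.A4
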