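import Pool.Agent.H22.NL.A4

set_option autoImplicit false
open scoped BigOperators Polynomial

namespace Pool.Agent.H22.NL.A4b

theorem term_le (k : ℕ) (x : ℝ) :
    |(128 : ℝ) ^ k * (2 * x / (x ^ 2 + 256 ^ k))| ≤ 8 ^ k := by
  have h16 : (0 : ℝ) < 16 ^ k := by positivity
  have h256 : (256 : ℝ) ^ k = (16 ^ k) ^ 2 := by
    rw [← pow_mul, mul_comm k 2, pow_mul]; norm_num
  have h128 : (128 : ℝ) ^ k = 8 ^ k * 16 ^ k := by
    rw [← mul_pow]; norm_num
  rw [h256, h128, abs_mul, abs_of_pos (by positivity : (0 : ℝ) < 8 ^ k * 16 ^ k), mul_assoc]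
  have h1 : |2 * x / (x ^ 2 + (16 ^ k) ^ 2)| ≤ 1 / 16 ^ k := by
    rw [abs_div, abs_of_pos (by positivity : (0 : ℝ) < x ^ 2 + (16 ^ k) ^ 2),
      div_le_div_iff₀ (by positivity) h16, abs_mul, abs_of_pos (by norm_num : (0 : ℝ) < 2)]
    nlinarith [sq_nonneg (|x| - 16 ^ k), sq_abs x]
  calc (8 : ℝ) ^ k * (16 ^ k * |2 * x / (x ^ 2 + (16 ^ k) ^ 2)|)
      ≤ 8 ^ k * (16 ^ k * (1 / 16 ^ k)) := by gcongr
    _ = 8 ^ k := by field_simp

theorem dphi_le (K : ℕ) (x : ℝ) : |A4.dphi K x| ≤ 2 * 8 ^ K := by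
  unfold A4.dphi
  refine (Finset.abs_sum_le_sum_abs _ _).trans ?_
  refine (Finset.sum_le_sum (fun k _ => term_le k x)).trans ?_
  induction K with
  | zero => norm_num
  | succ K ih =>
    rw [Finset.sum_range_succ]
    have : (8 : ℝ) ^ (K + 1) = 8 * 8 ^ K := by ring
    have h0 : (0 : ℝ) < 8 ^ K := by positivity
    linarith

theorem main : S_A4b := by
  intro K x y
  have h := Convex.norm_image_sub_le_of_norm_hasDerivWithin_le (f := phi K) (f' := A4.dphi K)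
    (C := 2 * 8 ^ K) (s := Set.univ) (x := y) (y := x)
    (fun z _ => (A4.hphi K z).hasDerivWithinAt) (fun z _ => by
      rw [Real.norm_eq_abs]; exact dphi_le K z) convex_univ (Set.mem_univ _) (Set.mem_univ _)
  simpa only [Real.norm_eq_abs] using h

end Pool.Agent.H22.NL.A4b
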