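import Pool.Agent.H22.NL.G1

set_option autoImplicit false
open scoped BigOperators Polynomial

namespace Pool.Agent.H22.NL.A5

open Matrix

theorem sum_pairs {n : ℕ} (l : Fin n → ℝ) :
    ∑ i, ∑ j, (l i - l j) ^ 2 = 2 * n * ∑ i, l i ^ 2 - 2 * (∑ i, l i) ^ 2 := by
  have h1 : ∀ i j : Fin n, (l i - l j) ^ 2 = l i ^ 2 + l j ^ 2 - 2 * (l i * l j) := fun i j => by
    ring
  simp only [h1, Finset.sum_sub_distrib, Finset.sum_add_distrib, Finset.sum_const,
    Finset.card_univ, Fintype.card_fin, nsmul_eq_mul, ← Finset.mul_sum, ← Finset.sum_mul]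
  ring

theorem trace_sq {n : ℕ} {M : Matrix (Fin n) (Fin n) ℂ} (h : M.IsHermitian) :
    ((M * M).trace).re = ∑ i, h.eigenvalues i ^ 2 := by
  set U : Matrix (Fin n) (Fin n) ℂ := (h.eigenvectorUnitary : Matrix (Fin n) (Fin n) ℂ) with hU
  have hUU : U.conjTranspose * U = 1 := by
    have := (Matrix.mem_unitaryGroup_iff').mp h.eigenvectorUnitary.2
    rw [Matrix.star_eq_conjTranspose] at this
    exact this
  have hspec : M = U * Matrix.diagonal (fun r => (h.eigenvalues r : ℂ)) * U.conjTranspose := by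
    have := h.spectral_theorem
    rw [Unitary.conjStarAlgAut_apply] at this
    exact this
  have h1 : (M * M).trace = ∑ i, (h.eigenvalues i : ℂ) ^ 2 := by
    have h2 : M * M = U * (Matrix.diagonal (fun r => (h.eigenvalues r : ℂ)) *
        Matrix.diagonal (fun r => (h.eigenvalues r : ℂ)) * U.conjTranspose) := by
      conv_lhs => rw [hspec]
      calc U * diagonal (fun r => (h.eigenvalues r : ℂ)) * U.conjTranspose *
          (U * diagonal (fun r => (h.eigenvalues r : ℂ)) * U.conjTranspose)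
          = U * (diagonal (fun r => (h.eigenvalues r : ℂ)) * (U.conjTranspose * U) *
            diagonal (fun r => (h.eigenvalues r : ℂ)) * U.conjTranspose) := by
            simp only [Matrix.mul_assoc]
        _ = _ := by rw [hUU, Matrix.mul_one]
    rw [h2, Matrix.trace_mul_comm, Matrix.mul_assoc, hUU, Matrix.mul_one,
      Matrix.diagonal_mul_diagonal, Matrix.trace_diagonal]
    exact Finset.sum_congr rfl fun i _ => (sq _).symm
  rw [h1, Complex.re_sum]
  refine Finset.sum_congr rfl fun i _ => ?_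
  rw [← Complex.ofReal_pow, Complex.ofReal_re]

theorem trace_one {n : ℕ} {M : Matrix (Fin n) (Fin n) ℂ} (h : M.IsHermitian) :
    (M.trace).re = ∑ i, h.eigenvalues i := by
  rw [h.trace_eq_sum_eigenvalues, Complex.re_sum]
  exact Finset.sum_congr rfl fun i _ => Complex.ofReal_re _

theorem PS_sq {n : ℕ} {M : Matrix (Fin n) (Fin n) ℂ} (h : M.IsHermitian) :
    PS (fun x => x ^ 2) M = 2 * n * ((M * M).trace).re - 2 * ((M.trace).re) ^ 2 := by
  have he : eig M = h.eigenvalues := by
    unfold eig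
    rw [dif_pos h]
  unfold PS
  rw [he, sum_pairs, trace_sq h, trace_one h]

/-- the diagonal matrix `diag (1, ..., n)` -/
noncomputable def dg (n : ℕ) : Matrix (Fin n) (Fin n) ℂ :=
  Matrix.diagonal (fun i : Fin n => (((i : ℕ) : ℝ) + 1 : ℝ) : Fin n → ℂ)

theorem TT_eq (a : ℕ → ℕ → ℂ) (n : ℕ) (s : ℝ) :
    TT a n s = blk a 0 n + (s : ℂ) • dg n := by
  ext i j
  unfold TT blk pert dg
  simp only [Matrix.of_apply, zero_add, Matrix.add_apply, Matrix.smul_apply, smul_eq_mul]
  by_cases h : i = j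
  · subst h
    rw [if_pos rfl, Matrix.diagonal_apply_eq]
    push_cast
    ring
  · rw [if_neg (fun h' => h (Fin.ext h')), Matrix.diagonal_apply_ne _ h]
    simp

theorem main : S_A5 := by
  intro a ha n t h
  set A := blk a 0 n with hA
  set D := dg n with hD
  have hf : ∀ s : ℝ, PS (fun x => x ^ 2) (TT a n s) =
      2 * n * ((A * A).trace.re + s * ((A * D).trace.re + (D * A).trace.re) +
        s ^ 2 * (D * D).trace.re) - 2 * (A.trace.re + s * D.trace.re) ^ 2 := by
    intro s
    rw [PS_sq (G1.TT_herm a ha n s), TT_eq]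
    have h1 : ((A + (s : ℂ) • D) * (A + (s : ℂ) • D)).trace.re = (A * A).trace.re +
        s * ((A * D).trace.re + (D * A).trace.re) + s ^ 2 * (D * D).trace.re := by
      simp only [Matrix.add_mul, Matrix.mul_add, Matrix.smul_mul, Matrix.mul_smul,
        Matrix.trace_add, Matrix.trace_smul, smul_eq_mul, Complex.add_re, Complex.re_ofReal_mul]
      ring
    have h2 : (A + (s : ℂ) • D).trace.re = A.trace.re + s * D.trace.re := by
      simp only [Matrix.trace_add, Matrix.trace_smul, smul_eq_mul, Complex.add_re,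
        Complex.re_ofReal_mul]
    rw [h1, h2]
  have hD1 : D.trace.re = ∑ i : Fin n, (((i : ℕ) : ℝ) + 1) := by
    rw [hD]
    unfold dg
    rw [Matrix.trace_diagonal, Complex.re_sum]
    exact Finset.sum_congr rfl fun i _ => Complex.ofReal_re _
  have hD2 : (D * D).trace.re = ∑ i : Fin n, (((i : ℕ) : ℝ) + 1) ^ 2 := by
    rw [hD]
    unfold dg
    rw [Matrix.diagonal_mul_diagonal, Matrix.trace_diagonal, Complex.re_sum]
    refine Finset.sum_congr rfl fun i _ => ?_
    rw [← Complex.ofReal_mul, Complex.ofReal_re, sq]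
  have h3 : D2 (fun s => PS (fun x => x ^ 2) (TT a n s)) t h =
      2 * h ^ 2 * (2 * n * (D * D).trace.re - 2 * (D.trace.re) ^ 2) := by
    unfold D2
    simp only [hf]
    ring
  rw [h3, hD1, hD2, ← sum_pairs (fun i : Fin n => ((i : ℕ) : ℝ) + 1)]
  have h4 : ∑ i : Fin n, ∑ j : Fin n, ((((i : ℕ) : ℝ) + 1) - (((j : ℕ) : ℝ) + 1)) ^ 2 ≤
      ∑ i : Fin n, ∑ j : Fin n, (n : ℝ) ^ 2 := by
    refine Finset.sum_le_sum fun i _ => Finset.sum_le_sum fun j _ => ?_
    have hi : ((i : ℕ) : ℝ) ≤ n := by exact_mod_cast i.2.le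
    have hj : ((j : ℕ) : ℝ) ≤ n := by exact_mod_cast j.2.le
    have hi0 : (0 : ℝ) ≤ ((i : ℕ) : ℝ) := Nat.cast_nonneg _
    have hj0 : (0 : ℝ) ≤ ((j : ℕ) : ℝ) := Nat.cast_nonneg _
    apply sq_le_sq'
    · linarith
    · linarith
  have h5 : ∑ i : Fin n, ∑ j : Fin n, (n : ℝ) ^ 2 = (n : ℝ) ^ 4 := by
    simp only [Finset.sum_const, Finset.card_univ, Fintype.card_fin, nsmul_eq_mul]
    ring
  rw [h5] at h4
  exact mul_le_mul_of_nonneg_left h4 (by positivity)

end Pool.Agent.H22.NL.A5
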