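import Pool.Agent.H22.NL.G1

set_option autoImplicit false
open scoped BigOperators

/-!
# Project NL, A6: detection of small gaps by the potential
-/

noncomputable section
namespace Pool.Agent.H22.NL.A6

/-- affine dependence on the parameter -/
theorem TT_comb (a : ℕ → ℕ → ℂ) (n : ℕ) (s s' α β : ℝ) (h : α + β = 1) :
    TT a n (α * s + β * s') = (α : ℂ) • TT a n s + (β : ℂ) • TT a n s' := by
  have hc : (α : ℂ) + β = 1 := by exact_mod_cast h
  ext i j
  unfold TT blk pert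
  simp only [Matrix.of_apply, Matrix.add_apply, Matrix.smul_apply, smul_eq_mul]
  split_ifs
  · push_cast
    linear_combination (-(a (0 + ↑i) (0 + ↑j))) * hc
  · linear_combination (-(a (0 + ↑i) (0 + ↑j))) * hc

/-- the pair sum along the line -/
def S (a : ℕ → ℕ → ℂ) (n : ℕ) (ψ : ℝ → ℝ) (s : ℝ) : ℝ := PS ψ (TT a n s)

theorem S_conv (h1 : S_A1) {a : ℕ → ℕ → ℂ} (ha : HT a) (n : ℕ) {ψ : ℝ → ℝ}
    (hψ : ConvexOn ℝ Set.univ ψ) (s s' α β : ℝ) (hα : 0 ≤ α) (hβ : 0 ≤ β) (h : α + β = 1) :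
    S a n ψ (α * s + β * s') ≤ α * S a n ψ s + β * S a n ψ s' := by
  unfold S
  rw [TT_comb a n s s' α β h]
  exact h1 n _ _ ψ (G1.TT_herm a ha n s) (G1.TT_herm a ha n s') hψ α β hα hβ h

theorem abs_convex : ConvexOn ℝ Set.univ (fun x : ℝ => |x|) := by
  have h : (fun x : ℝ => |x|) = (norm : ℝ → ℝ) := by
    funext x; exact (Real.norm_eq_abs x).symm
  rw [h]
  exact convexOn_univ_norm

/-- larger steps give larger second differences -/
theorem D2_mono (h1 : S_A1) {a : ℕ → ℕ → ℂ} (ha : HT a) (n : ℕ) {ψ : ℝ → ℝ}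
    (hψ : ConvexOn ℝ Set.univ ψ) (t h x : ℝ) (hh : 0 < h) (hx : 0 ≤ x) (hxh : x ≤ h) :
    S a n ψ (t + x) + S a n ψ (t - x) ≤ S a n ψ (t + h) + S a n ψ (t - h) := by
  have q1 : x / h ≤ 1 := (div_le_one hh).2 hxh
  have q0 : 0 ≤ x / h := by positivity
  have e1 : t + x = ((1 + x / h) / 2) * (t + h) + ((1 - x / h) / 2) * (t - h) := by
    field_simp; ring
  have e2 : t - x = ((1 - x / h) / 2) * (t + h) + ((1 + x / h) / 2) * (t - h) := by
    field_simp; ring
  have k1 := S_conv h1 ha n hψ (t + h) (t - h) ((1 + x / h) / 2) ((1 - x / h) / 2) (by linarith)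
    (by linarith) (by ring)
  have k2 := S_conv h1 ha n hψ (t + h) (t - h) ((1 - x / h) / 2) ((1 + x / h) / 2) (by linarith)
    (by linarith) (by ring)
  rw [← e1] at k1
  rw [← e2] at k2
  linarith

/-- a good point: all crossing parameters are far away -/
theorem exists_good (n : ℕ) (hn : 1 ≤ n) (t h : ℝ) (hh : 0 < h) (m : ℕ) (τ : Fin m → ℝ)
    (hm : 2 * m ≤ n ^ 3) :
    ∃ x : ℝ, 0 ≤ x ∧ x ≤ h ∧ (∀ r, h / (4 * n ^ 3) ≤ |t + x - τ r|) ∧
      (∀ r, h / (4 * n ^ 3) ≤ |t - x - τ r|) := by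
  by_contra hcon
  push Not at hcon
  have hn3 : (1 : ℝ) ≤ (n : ℝ) ^ 3 := one_le_pow₀ (by exact_mod_cast hn)
  set sp : ℝ := h / (n ^ 3 + 1) with hsp
  have hsp0 : 0 < sp := by positivity
  have hspη : 2 * (h / (4 * n ^ 3)) ≤ sp := by
    rw [hsp, ← mul_div_assoc, div_le_div_iff₀ (by positivity) (by positivity)]
    nlinarith
  have key : ∀ k : Fin (n ^ 3 + 1), ∃ p : Fin m × Bool,
      |t + (if p.2 then 1 else -1) * (((k : ℕ) + 1 : ℝ) * sp) - τ p.1| < h / (4 * n ^ 3) := by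
    intro k
    have hx0 : 0 ≤ ((k : ℕ) + 1 : ℝ) * sp := by positivity
    have hx1 : ((k : ℕ) + 1 : ℝ) * sp ≤ h := by
      rw [hsp, mul_div_assoc', div_le_iff₀ (by positivity)]
      have : ((k : ℕ) + 1 : ℝ) ≤ (n : ℝ) ^ 3 + 1 := by
        have := k.2
        have h2 : (k : ℕ) + 1 ≤ n ^ 3 + 1 := by omega
        exact_mod_cast h2
      nlinarith
    by_cases hc : ∀ r, h / (4 * n ^ 3) ≤ |t + ((k : ℕ) + 1 : ℝ) * sp - τ r|
    · obtain ⟨r, hr⟩ := hcon _ hx0 hx1 hc
      refine ⟨(r, false), ?_⟩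
      simpa [sub_eq_add_neg] using hr
    · push Not at hc
      obtain ⟨r, hr⟩ := hc
      exact ⟨(r, true), by simpa using hr⟩
  choose f hf using key
  have hinj : Function.Injective f := by
    intro k k' hkk
    by_contra hne
    have a1 := hf k
    have a2 := hf k'
    rw [← hkk] at a2
    set σ : ℝ := if (f k).2 then 1 else -1 with hσ
    have hσ2 : |σ| = 1 := by
      rw [hσ]; split_ifs <;> simp
    have hd : |σ * ((((k : ℕ) : ℝ) - ((k' : ℕ) : ℝ)) * sp)| < 2 * (h / (4 * n ^ 3)) := by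
      have : σ * ((((k : ℕ) : ℝ) - ((k' : ℕ) : ℝ)) * sp) =
          (t + σ * (((k : ℕ) + 1 : ℝ) * sp) - τ (f k).1) -
          (t + σ * (((k' : ℕ) + 1 : ℝ) * sp) - τ (f k).1) := by ring
      rw [this]
      have := abs_sub (t + σ * (((k : ℕ) + 1 : ℝ) * sp) - τ (f k).1)
        (t + σ * (((k' : ℕ) + 1 : ℝ) * sp) - τ (f k).1)
      linarith
    rw [abs_mul, hσ2, one_mul, abs_mul, abs_of_pos hsp0] at hd
    have h1 : (1 : ℝ) ≤ |((k : ℕ) : ℝ) - ((k' : ℕ) : ℝ)| := by
      have hne' : ((k : ℕ) : ℤ) - ((k' : ℕ) : ℤ) ≠ 0 := by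
        intro h0
        apply hne
        ext
        omega
      have := Int.one_le_abs hne'
      have h2 : ((|((k : ℕ) : ℤ) - ((k' : ℕ) : ℤ)| : ℤ) : ℝ) = |((k : ℕ) : ℝ) - ((k' : ℕ) : ℝ)| := by
        push_cast
        rfl
      rw [← h2]
      exact_mod_cast this
    nlinarith
  have hcard := Fintype.card_le_of_injective f hinj
  simp only [Fintype.card_fin, Fintype.card_prod, Fintype.card_bool] at hcard
  omega

/-- pair sums are linear in the function -/
theorem PS_lin {n : ℕ} (f g k : ℝ → ℝ) (c : ℝ) (M : Matrix (Fin n) (Fin n) ℂ) :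
    PS (fun x => f x + c * g x - k x) M = PS f M + c * PS g M - PS k M := by
  unfold PS
  simp only [Finset.sum_sub_distrib, Finset.sum_add_distrib, Finset.mul_sum]

theorem main (hG : S_G1) (h1 : S_A1) (h2 : S_A2) (h4 : S_A4) (h5 : S_A5) : S_A6 := by
  intro a ha n K t h hn hh hK hex
  obtain ⟨m, τ, hm, hτ⟩ := hG a ha n
  obtain ⟨x, hx0, hxh, hg1, hg2⟩ := exists_good n hn t h hh m τ hm
  have hn1 : (1 : ℝ) ≤ n := by exact_mod_cast hn
  have hn0 : (0 : ℝ) < n := by linarith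
  set η : ℝ := h / (4 * n ^ 3) with hη
  have hη0 : 0 < η := by positivity
  have G1' := hτ (t + x) η hη0.le hg1
  have G2' := hτ (t - x) η hη0.le hg2
  have hmid : (1 / 2 : ℂ) • (TT a n (t + x) + TT a n (t - x)) = TT a n t := by
    have := TT_comb a n (t + x) (t - x) (1 / 2) (1 / 2) (by norm_num)
    rw [show (1 / 2 : ℝ) * (t + x) + 1 / 2 * (t - x) = t by ring] at this
    rw [this, smul_add]
    push_cast
    rfl
  have A := h2 n (TT a n (t + x)) (TT a n (t - x)) η (G1.TT_herm a ha n _) (G1.TT_herm a ha n _)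
    hη0 G1' G2' (by
      rw [hmid]
      obtain ⟨i, j, hij, hle⟩ := hex
      refine ⟨i, j, hij, hle.trans (le_of_eq ?_)⟩
      rw [hη]; field_simp; norm_num)
  rw [hmid] at A
  have B := D2_mono h1 ha n abs_convex t h x hh hx0 hxh
  unfold S at B
  -- the convex function
  set ε : ℝ := h / (4 * n ^ 5) with hε
  have hε0 : 0 < ε := by positivity
  have hψ : ConvexOn ℝ Set.univ
      (fun y : ℝ => phi K (y / ε) + ((1 / 2) ^ K / (2 * ε ^ 2)) * y ^ 2 -
        Real.sqrt (1 + (y / ε) ^ 2)) := by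
    have hc := h4 K
    have hl := hc.comp_linearMap (LinearMap.lsmul ℝ ℝ (1 / ε))
    rw [Set.preimage_univ] at hl
    refine hl.congr ?_ 
    intro y _
    simp only [Function.comp_apply, LinearMap.lsmul_apply, smul_eq_mul]
    have e : 1 / ε * y = y / ε := by ring
    rw [e]
    congr 1
    congr 1
    field_simp
  have C := S_conv h1 ha n hψ (t + h) (t - h) (1 / 2) (1 / 2) (by norm_num) (by norm_num)
    (by norm_num)
  rw [show (1 / 2 : ℝ) * (t + h) + 1 / 2 * (t - h) = t by ring] at C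
  unfold S at C
  rw [PS_lin, PS_lin, PS_lin] at C
  have D := h5 a ha n t h
  unfold D2 at D ⊢
  have esq : ∀ z : ℝ, (|z| / ε) ^ 2 = (z / ε) ^ 2 := fun z => by
    rw [div_pow |z| ε, div_pow z ε, sq_abs]
  have lo : ∀ s, PS (fun y => |y|) (TT a n s) / ε ≤
      PS (fun y => Real.sqrt (1 + (y / ε) ^ 2)) (TT a n s) := by
    intro s
    unfold PS
    rw [Finset.sum_div]
    refine Finset.sum_le_sum fun i _ => ?_
    rw [Finset.sum_div]
    refine Finset.sum_le_sum fun j _ => ?_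
    apply Real.le_sqrt_of_sq_le
    rw [esq]
    linarith
  have up : ∀ s, PS (fun y => Real.sqrt (1 + (y / ε) ^ 2)) (TT a n s) ≤
      PS (fun y => |y|) (TT a n s) / ε + n ^ 2 := by
    intro s
    unfold PS
    have e : (n : ℝ) ^ 2 = ∑ _i : Fin n, ∑ _j : Fin n, (1 : ℝ) := by simp [pow_two]
    rw [e, Finset.sum_div, ← Finset.sum_add_distrib]
    refine Finset.sum_le_sum fun i _ => ?_
    rw [Finset.sum_div, ← Finset.sum_add_distrib]
    refine Finset.sum_le_sum fun j _ => ?_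
    rw [Real.sqrt_le_left (by positivity)]
    have hab : 0 ≤ |eig (TT a n s) i - eig (TT a n s) j| / ε := by positivity
    rw [← esq]
    nlinarith
  have l1 := lo (t + h)
  have l2 := lo (t - h)
  have u0 := up t
  set c0 : ℝ := (1 / 2) ^ K / (2 * ε ^ 2) with hc0
  have hc00 : 0 ≤ c0 := by positivity
  have hD' : c0 * (PS (fun x => x ^ 2) (TT a n (t + h)) + PS (fun x => x ^ 2) (TT a n (t - h)) -
      2 * PS (fun x => x ^ 2) (TT a n t)) ≤ n ^ 2 / 2 := by
    refine (mul_le_mul_of_nonneg_left D hc00).trans ?_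
    have hK' : (32 : ℝ) * n ^ 12 ≤ 2 ^ K := by exact_mod_cast hK
    have e : c0 * (2 * h ^ 2 * (n : ℝ) ^ 4) = 16 * n ^ 14 * (1 / 2) ^ K := by
      rw [hc0, hε]
      field_simp
      ring
    rw [e]
    have h2K : (1 / 2 : ℝ) ^ K = 1 / 2 ^ K := by rw [one_div_pow]
    rw [h2K, mul_one_div, div_le_iff₀ (by positivity)]
    have : (16 : ℝ) * n ^ 14 = n ^ 2 / 2 * (32 * n ^ 12) := by ring
    rw [this]
    exact mul_le_mul_of_nonneg_left hK' (by positivity)
  have hηε : η / ε = n ^ 2 := by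
    rw [hη, hε]
    field_simp
  have A' : 2 * (PS (fun y => |y|) (TT a n t) / ε) + 3 * n ^ 2 ≤
      PS (fun y => |y|) (TT a n (t + h)) / ε + PS (fun y => |y|) (TT a n (t - h)) / ε := by
    rw [← hηε]
    have := A.trans B
    rw [← add_div]
    have e : 2 * (PS (fun y => |y|) (TT a n t) / ε) + 3 * (η / ε) =
        (2 * PS (fun y => |y|) (TT a n t) + 3 * η) / ε := by ring
    rw [e]
    exact div_le_div_of_nonneg_right this hε0.le
  linarith

end Pool.Agent.H22.NL.A6
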