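import Pool.Agent.H22.NL.A5

set_option autoImplicit false
open scoped BigOperators Polynomial

namespace Pool.Agent.H22.NL.A7

open Matrix

theorem TT_add (a : ℕ → ℕ → ℂ) (n : ℕ) (t u : ℝ) :
    TT a n (t + u) = TT a n t + Matrix.diagonal fun i : Fin n =>
      (((u * (((i : ℕ) : ℝ) + 1)) : ℝ) : ℂ) := by
  rw [A5.TT_eq, A5.TT_eq]
  ext i j
  unfold A5.dg
  by_cases h : i = j
  · subst h
    simp only [Matrix.add_apply, Matrix.smul_apply, Matrix.diagonal_apply_eq, smul_eq_mul]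
    push_cast
    ring
  · simp only [Matrix.add_apply, Matrix.smul_apply, Matrix.diagonal_apply_ne _ h, smul_eq_mul]
    ring

theorem half (h3 : S_A3) (h4 : S_A4b) (a : ℕ → ℕ → ℂ) (ha : HT a) (n K : ℕ) (t u h ε : ℝ)
    (hu : |u| ≤ h) (hε : 0 < ε) :
    PS (fun x => phi K (x / ε)) (TT a n (t + u)) - PS (fun x => phi K (x / ε)) (TT a n t) ≤
      4 * 8 ^ K * n ^ 3 * h / ε := by
  have hh : 0 ≤ h := (abs_nonneg u).trans hu
  obtain ⟨s, hs⟩ := h3 n (TT a n t) (fun i => u * (((i : ℕ) : ℝ) + 1)) (h * n)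
    (G1.TT_herm a ha n t) (fun i => by
      rw [abs_mul]
      have h1 : ((i : ℕ) : ℝ) + 1 ≤ n := by exact_mod_cast i.2
      have h2 : |((i : ℕ) : ℝ) + 1| ≤ n := by
        rw [abs_of_nonneg (by positivity)]
        exact h1
      exact mul_le_mul hu h2 (abs_nonneg _) hh)
  rw [← TT_add] at hs
  have h5 : PS (fun x => phi K (x / ε)) (TT a n (t + u)) =
      ∑ i, ∑ j, phi K ((eig (TT a n (t + u)) (s i) - eig (TT a n (t + u)) (s j)) / ε) := by
    unfold PS
    rw [← Equiv.sum_comp s]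
    refine Finset.sum_congr rfl fun i _ => ?_
    rw [← Equiv.sum_comp s]
  rw [h5]
  unfold PS
  rw [← Finset.sum_sub_distrib]
  have h6 : ∀ i j : Fin n, phi K ((eig (TT a n (t + u)) (s i) - eig (TT a n (t + u)) (s j)) / ε) -
      phi K ((eig (TT a n t) i - eig (TT a n t) j) / ε) ≤ 4 * 8 ^ K * n * h / ε := by
    intro i j
    refine (le_abs_self _).trans ((h4 K _ _).trans ?_)
    rw [← sub_div, abs_div, abs_of_pos hε]
    have h7 : |eig (TT a n (t + u)) (s i) - eig (TT a n (t + u)) (s j) -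
        (eig (TT a n t) i - eig (TT a n t) j)| ≤ 2 * (h * n) := by
      calc |eig (TT a n (t + u)) (s i) - eig (TT a n (t + u)) (s j) -
          (eig (TT a n t) i - eig (TT a n t) j)|
          = |(eig (TT a n (t + u)) (s i) - eig (TT a n t) i) -
            (eig (TT a n (t + u)) (s j) - eig (TT a n t) j)| := by ring_nf
        _ ≤ |eig (TT a n (t + u)) (s i) - eig (TT a n t) i| +
            |eig (TT a n (t + u)) (s j) - eig (TT a n t) j| := abs_sub _ _
        _ ≤ h * n + h * n := add_le_add (hs i) (hs j)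
        _ = 2 * (h * n) := by ring
    calc 2 * 8 ^ K * (|eig (TT a n (t + u)) (s i) - eig (TT a n (t + u)) (s j) -
          (eig (TT a n t) i - eig (TT a n t) j)| / ε)
        ≤ 2 * 8 ^ K * (2 * (h * n) / ε) := by gcongr
      _ = 4 * 8 ^ K * n * h / ε := by ring
  calc ∑ i, ((∑ j, phi K ((eig (TT a n (t + u)) (s i) - eig (TT a n (t + u)) (s j)) / ε)) -
        ∑ j, phi K ((eig (TT a n t) i - eig (TT a n t) j) / ε))
      = ∑ i, ∑ j, (phi K ((eig (TT a n (t + u)) (s i) - eig (TT a n (t + u)) (s j)) / ε) -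
        phi K ((eig (TT a n t) i - eig (TT a n t) j) / ε)) := by
        refine Finset.sum_congr rfl fun i _ => ?_
        rw [Finset.sum_sub_distrib]
    _ ≤ ∑ _i : Fin n, ∑ _j : Fin n, 4 * 8 ^ K * n * h / ε :=
        Finset.sum_le_sum fun i _ => Finset.sum_le_sum fun j _ => h6 i j
    _ = 4 * 8 ^ K * n ^ 3 * h / ε := by
        simp only [Finset.sum_const, Finset.card_univ, Fintype.card_fin, nsmul_eq_mul]
        ring

theorem main (h3 : S_A3) (h4 : S_A4b) : S_A7 := by
  intro a ha n K t h ε hh hε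
  have h1 := half h3 h4 a ha n K t h h ε (by rw [abs_of_nonneg hh]) hε
  have h2 := half h3 h4 a ha n K t (-h) h ε (by rw [abs_neg, abs_of_nonneg hh]) hε
  unfold D2
  rw [sub_eq_add_neg t h]
  have h5 : 8 * 8 ^ K * (n : ℝ) ^ 3 * h / ε =
      4 * 8 ^ K * n ^ 3 * h / ε + 4 * 8 ^ K * n ^ 3 * h / ε := by ring
  rw [h5]
  linarith

end Pool.Agent.H22.NL.A7
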