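import Pool.Agent.H22.NL.Stm

set_option autoImplicit false
open scoped BigOperators Polynomial

namespace Pool.Agent.H22.NL.A8

/-- the real positions -/
noncomputable def p (t h : ℝ) (i : ℕ) : ℝ := t + ((i : ℝ) - 4) * (h / 4)

theorem pos_real (t h : ℝ) (i : ℕ) : pos (t : ℂ) (h : ℂ) i = ((p t h i : ℝ) : ℂ) := by
  unfold pos p
  push_cast
  ring

/-- the second difference number `i` -/
noncomputable def d (Φ : ℝ → ℝ) (t h : ℝ) (i : ℕ) : ℝ :=
  Φ (p t h i) + Φ (p t h (i + 2)) - 2 * Φ (p t h (i + 1))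

theorem cand_real (W : ℂ → ℂ) (Φ : ℝ → ℝ) (hW : ∀ t : ℝ, W t = ((Real.exp (Φ t) : ℝ) : ℂ))
    (t h : ℝ) (i : ℕ) : cand W (t : ℂ) (h : ℂ) i = ((Real.exp (d Φ t h i) : ℝ) : ℂ) := by
  unfold cand
  rw [pos_real, pos_real, pos_real, hW, hW, hW, ← Complex.ofReal_mul, ← Complex.ofReal_pow,
    ← Complex.ofReal_div]
  congr 1
  unfold d
  rw [Real.exp_sub, Real.exp_add, two_mul (Φ (p t h (i + 1))), Real.exp_add, sq]

theorem best_real (W : ℂ → ℂ) (Φ : ℝ → ℝ) (hW : ∀ t : ℝ, W t = ((Real.exp (Φ t) : ℝ) : ℂ))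
    (t h : ℝ) (m : ℕ) : ∃ k ≤ m, (best W (t : ℂ) (h : ℂ) m).1 = ((Real.exp (d Φ t h k) : ℝ) : ℂ) ∧
      (best W (t : ℂ) (h : ℂ) m).2 = ((p t h (k + 1) : ℝ) : ℂ) ∧
      ∀ i ≤ m, d Φ t h k ≤ d Φ t h i := by
  induction m with
  | zero =>
    refine ⟨0, le_rfl, ?_, ?_, ?_⟩
    · show cand W (t : ℂ) (h : ℂ) 0 = _
      rw [cand_real W Φ hW]
    · show pos (t : ℂ) (h : ℂ) 1 = _
      rw [pos_real]
    · intro i hi
      rw [Nat.le_zero.1 hi]
  | succ m ih =>
    obtain ⟨k, hk, h1, h2, h3⟩ := ih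
    by_cases hc : (cand W (t : ℂ) (h : ℂ) (m + 1)).re ≤ (best W (t : ℂ) (h : ℂ) m).1.re
    · refine ⟨m + 1, le_rfl, ?_, ?_, ?_⟩
      · simp only [best]
        rw [if_pos hc, cand_real W Φ hW]
      · simp only [best]
        rw [if_pos hc, pos_real]
      · have h4 : d Φ t h (m + 1) ≤ d Φ t h k := by
          rw [h1, cand_real W Φ hW, Complex.ofReal_re, Complex.ofReal_re, Real.exp_le_exp] at hc
          exact hc
        intro i hi
        rcases Nat.lt_or_ge m i with h5 | h5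
        · have : i = m + 1 := by omega
          rw [this]
        · exact h4.trans (h3 i h5)
    · refine ⟨k, hk.trans (Nat.le_succ m), ?_, ?_, ?_⟩
      · simp only [best]
        rw [if_neg hc, h1]
      · simp only [best]
        rw [if_neg hc, h2]
      · have h4 : d Φ t h k ≤ d Φ t h (m + 1) := by
          rw [h1, cand_real W Φ hW, Complex.ofReal_re, Complex.ofReal_re, Real.exp_le_exp] at hc
          exact (not_le.1 hc).le
        intro i hi
        rcases Nat.lt_or_ge m i with h5 | h5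
        · have : i = m + 1 := by omega
          rw [this]
          exact h4
        · exact h3 i h5

theorem round (W : ℂ → ℂ) (Φ : ℝ → ℝ) (hW : ∀ t : ℝ, W t = ((Real.exp (Φ t) : ℝ) : ℂ))
    (t h : ℝ) (hh : 0 ≤ h) : ∃ s : ℝ, (best W (t : ℂ) (h : ℂ) 6).2 = (s : ℂ) ∧
      |s - t| ≤ 3 / 4 * h ∧ D2 Φ s (h / 4) ≤ D2 Φ t h / 16 := by
  obtain ⟨k, hk, -, h2, h3⟩ := best_real W Φ hW t h 6
  refine ⟨p t h (k + 1), h2, ?_, ?_⟩
  · have hk' : (k : ℝ) ≤ 6 := by exact_mod_cast hk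
    have hk0 : (0 : ℝ) ≤ (k : ℝ) := Nat.cast_nonneg k
    have h4 : p t h (k + 1) - t = ((k : ℝ) - 3) * (h / 4) := by
      unfold p
      push_cast
      ring
    rw [h4, abs_le]
    constructor
    · nlinarith
    · nlinarith
  · have h5 : D2 Φ (p t h (k + 1)) (h / 4) = d Φ t h k := by
      unfold D2 d
      have e1 : p t h (k + 1) + h / 4 = p t h (k + 2) := by
        unfold p; push_cast; ring
      have e2 : p t h (k + 1) - h / 4 = p t h k := by
        unfold p; push_cast; ring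
      rw [e1, e2]
      ring
    have h6 : D2 Φ t h = d Φ t h 0 + 2 * d Φ t h 1 + 3 * d Φ t h 2 + 4 * d Φ t h 3 +
        3 * d Φ t h 4 + 2 * d Φ t h 5 + d Φ t h 6 := by
      have e0 : t - h = p t h 0 := by unfold p; push_cast; ring
      have e4 : t = p t h 4 := by unfold p; push_cast; ring
      have e8 : t + h = p t h 8 := by unfold p; push_cast; ring
      unfold D2
      rw [e0, e8]
      have e4' : Φ t = Φ (p t h 4) := by rw [← e4]
      rw [e4']
      simp only [d]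
      norm_num
      ring
    have g0 := h3 0 (by norm_num)
    have g1 := h3 1 (by norm_num)
    have g2 := h3 2 (by norm_num)
    have g3 := h3 3 (by norm_num)
    have g4 := h3 4 (by norm_num)
    have g5 := h3 5 (by norm_num)
    have g6 := h3 6 (by norm_num)
    rw [h5, h6]
    linarith

theorem main : S_A8 := by
  intro W Φ hW t0 h0 J hh
  have key : ∀ r : ℕ, ∃ s : ℝ, srch W (t0 : ℂ) (h0 : ℂ) r = (s : ℂ) ∧
      |s - t0| ≤ h0 * (1 - 1 / 4 ^ r) ∧ D2 Φ s (h0 / 4 ^ r) ≤ D2 Φ t0 h0 / 16 ^ r := by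
    intro r
    induction r with
    | zero => exact ⟨t0, rfl, by simp, by simp⟩
    | succ r ih =>
      obtain ⟨s, h1, h2, h3⟩ := ih
      have hr : (0 : ℝ) < 4 ^ r := by positivity
      obtain ⟨s', g1, g2, g3⟩ := round W Φ hW s (h0 / 4 ^ r) (by positivity)
      refine ⟨s', ?_, ?_, ?_⟩
      · show (best W (srch W (t0 : ℂ) (h0 : ℂ) r) ((h0 : ℂ) / 4 ^ r) 6).2 = _
        rw [h1, ← g1]
        push_cast
        rfl
      · calc |s' - t0| = |(s' - s) + (s - t0)| := by ring_nf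
          _ ≤ |s' - s| + |s - t0| := abs_add_le _ _
          _ ≤ 3 / 4 * (h0 / 4 ^ r) + h0 * (1 - 1 / 4 ^ r) := add_le_add g2 h2
          _ = h0 * (1 - 1 / 4 ^ (r + 1)) := by
            rw [pow_succ]
            field_simp
            ring
      · have e1 : h0 / 4 ^ (r + 1) = h0 / 4 ^ r / 4 := by
          rw [pow_succ, div_div]
        have e2 : D2 Φ t0 h0 / 16 ^ (r + 1) = D2 Φ t0 h0 / 16 ^ r / 16 := by
          rw [pow_succ, div_div]
        rw [e1, e2]
        refine g3.trans ?_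
        exact div_le_div_of_nonneg_right h3 (by norm_num)
  obtain ⟨s, h1, h2, h3⟩ := key J
  refine ⟨s, h1, h2.trans ?_, h3⟩
  have h4 : (0 : ℝ) ≤ 1 / 4 ^ J := by positivity
  nlinarith

end Pool.Agent.H22.NL.A8
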