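import Pool.Agent.H22.NL.Stm

set_option autoImplicit false
open scoped BigOperators Polynomial

namespace Pool.Agent.H22.NL.A9

theorem main (h6 : S_A6) (h7 : S_A7) (h8 : S_A8) : S_A9 := by
  intro a ha j δ c W hδ hW
  set n : ℕ := 2 ^ j with hn
  have hnr : ((n : ℕ) : ℝ) = 2 ^ j := by rw [hn]; push_cast; rfl
  set N : ℝ := (2 : ℝ) ^ j with hN
  have hN0 : 0 < N := by positivity
  set J : ℕ := 11 + 21 * j with hJ
  set K : ℕ := 5 + 12 * j with hK
  set h0 : ℝ := δ / (2 * N) with hh0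
  have hh0p : 0 < h0 := by positivity
  have e4 : (4 : ℝ) ^ J = 2 ^ 22 * N ^ 42 := by
    rw [hJ, hN, ← pow_mul, show (4 : ℝ) = 2 ^ 2 by norm_num, ← pow_mul, ← pow_add]
    congr 1
    ring
  have e8 : (8 : ℝ) ^ K = 2 ^ 15 * N ^ 36 := by
    rw [hK, hN, ← pow_mul, show (8 : ℝ) = 2 ^ 3 by norm_num, ← pow_mul, ← pow_add]
    congr 1
    ring
  have e16 : (16 : ℝ) ^ J = 4 ^ J * 4 ^ J := by
    rw [← mul_pow]; norm_num
  have hn1 : 1 ≤ n := Nat.one_le_two_pow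
  have e2 : 32 * n ^ 12 ≤ 2 ^ K := by
    rw [hK, hn, ← pow_mul, pow_add]
    apply le_of_eq
    rw [mul_comm j 12]
    norm_num
  set hJ' : ℝ := h0 / 4 ^ J with hhJ
  have hhJp : 0 < hJ' := by positivity
  set ε : ℝ := hJ' / (4 * N ^ 5) with hε
  have hεp : 0 < ε := by positivity
  set Ψ : ℝ → ℝ := fun t => PS (fun x => phi K (x / ε)) (TT a n t) with hΨ
  have hW' : ∀ t : ℝ, W t = ((Real.exp (c + Ψ t) : ℝ) : ℂ) := hW
  have hh0c : ((δ : ℂ) / (2 * 2 ^ j)) = ((h0 : ℝ) : ℂ) := by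
    rw [hh0, hN]
    push_cast
    rfl
  obtain ⟨s, hs1, hs2, hs3⟩ := h8 W (fun t => c + Ψ t) hW' h0 h0 J hh0p.le
  have hD : ∀ t h : ℝ, D2 (fun t => c + Ψ t) t h = D2 Ψ t h := by
    intro t h
    unfold D2
    ring
  rw [hD, hD] at hs3
  refine ⟨s, ?_, ?_, ?_, ?_⟩
  · rw [hh0c]
    exact hs1
  · have := (abs_le.1 hs2).1
    linarith
  · have := (abs_le.1 hs2).2
    have h9 : δ / N = h0 + h0 := by
      rw [hh0]
      field_simp
      norm_num
    rw [h9]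
    linarith
  · intro i k hik
    by_contra hlt
    push Not at hlt
    have h10 : δ / (2 ^ 27 * N ^ 46) = hJ' / (16 * N ^ 3) := by
      rw [hhJ, e4, hh0]
      field_simp
      norm_num
    rw [h10] at hlt
    have h11 := h6 a ha n K s hJ' hn1 hhJp e2 ⟨i, k, hik, by rw [hnr]; exact hlt.le⟩
    rw [hnr] at h11
    have h12 : D2 Ψ s hJ' ≤ N ^ 2 / 4 := by
      refine hs3.trans ?_
      have h13 := h7 a ha n K h0 h0 ε hh0p.le hεp
      rw [hnr] at h13
      have h14 : D2 Ψ h0 h0 ≤ 8 * 8 ^ K * N ^ 3 * h0 / ε := h13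
      rw [div_le_iff₀ (by positivity)]
      refine h14.trans ?_
      have h15 : h0 = hJ' * 4 ^ J := by
        rw [hhJ]
        field_simp
      have h16 : 8 * 8 ^ K * N ^ 3 * h0 / ε = 32 * 8 ^ K * N ^ 8 * 4 ^ J := by
        rw [hε]
        nth_rewrite 1 [h15]
        field_simp
        norm_num
      rw [h16, e16, e4, e8]
      apply le_of_eq
      ring
    have h17 : (0 : ℝ) < N ^ 2 := by positivity
    have h18 : N ^ 2 / 2 ≤ D2 Ψ s hJ' := h11
    linarith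

end Pool.Agent.H22.NL.A9
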