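import Pool.Agent.H22.NL.Stm

set_option autoImplicit false
open scoped BigOperators Polynomial
open Polynomial

/-!
# Project NL, part B
-/

noncomputable section
namespace Pool.Agent.H22.NL.B

theorem real_eu (S : Subfield ℂ) (F G : ℕ → ℂ) (hF : ∀ i, F i ∈ S) (hG : ∀ i, G i ∈ S) (k : ℕ) :
    (∀ i, (eu F G k).1 i ∈ S) ∧ ∀ i, (eu F G k).2 i ∈ S := by
  induction k with
  | zero => exact ⟨hF, hG⟩
  | succ k ih =>
    refine ⟨ih.2, fun i => ?_⟩
    have h1 := ih.1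
    have h2 := ih.2
    change nxt (eu F G k).1 (eu F G k).2 i ∈ S
    unfold nxt
    have h3 : (eu F G k).1 0 / (eu F G k).2 0 ∈ S := S.div_mem (h1 0) (h2 0)
    exact S.sub_mem (S.add_mem (S.mul_mem h3 (h2 _))
      (S.mul_mem (S.div_mem (S.sub_mem (h1 1) (S.mul_mem h3 (h2 1))) (h2 0)) (h2 _))) (h1 _)

theorem real_Vof (S : Subfield ℂ) (n : ℕ) (F G : ℕ → ℂ) (hF : ∀ i, F i ∈ S) (hG : ∀ i, G i ∈ S) :
    Vof n F G ∈ S := by
  unfold Vof
  have h : ∀ k, lc F G k ∈ S := fun k => (real_eu S F G hF hG k).2 0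
  exact S.mul_mem (S.prod_mem fun k _ => S.pow_mem (h k) 2) (h _)

theorem main (hB0 : S_B0) (hB1 : S_B1) (hB2 : S_B2) (hN1 : S_N1) (hN2 : S_N2) : S_B := by
  intro a ha n σ hn hσ
  set lam : Fin n → ℝ := eig (blk a 0 n) with hlam
  set γ : ℕ → ℂ := fun i => a i (i + 1) * a (i + 1) i with hγ
  set P : ℂ[X] := PP n (fun i => a i i) γ σ with hP
  set Q : ℂ[X] := QQ n (fun i => a i i) γ σ with hQ
  have e1 : (cont (fun i => a i i - Complex.I * σ) γ n).1 =
      ∏ i, (X - C ((lam i : ℂ) - Complex.I * σ)) := hB0 a ha n _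
  have e2 : (cont (fun i => a i i + Complex.I * σ) γ n).1 =
      ∏ i, (X - C ((lam i : ℂ) + Complex.I * σ)) := by
    have := hB0 a ha n (-(Complex.I * σ))
    simp only [sub_neg_eq_add] at this
    exact this
  have hP' : P = C (1 / 2) * (∏ i, (X - C ((lam i : ℂ) - Complex.I * σ)) +
      ∏ i, (X - C ((lam i : ℂ) + Complex.I * σ))) := by
    rw [hP, ← e1, ← e2]; rfl
  have hQ' : Q = C (1 / (2 * Complex.I)) * (∏ i, (X - C ((lam i : ℂ) - Complex.I * σ)) -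
      ∏ i, (X - C ((lam i : ℂ) + Complex.I * σ))) := by
    rw [hQ, ← e1, ← e2]; rfl
  obtain ⟨b1, b2, b3, b4, b5, b6⟩ := hB2 n lam σ P Q hn hσ hP' hQ'
  obtain ⟨B, e, c1, c2, c3⟩ := hN1 n lam σ P Q hn hσ hP' hQ'
  have hF0 : revc n P 0 = 1 := by
    unfold revc
    rw [if_pos (Nat.zero_le _), Nat.sub_zero, b2]
  have hFr : ∀ i, (revc n P i).im = 0 := by
    intro i
    unfold revc
    split_ifs
    · exact b4 _
    · simp
  have hGr : ∀ i, (revc (n - 1) Q i).im = 0 := by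
    intro i
    unfold revc
    split_ifs
    · exact b5 _
    · simp
  have hlc := hN2 n B e σ (revc n P) (revc (n - 1) Q) hn hσ c1 c2 hF0 hFr c3
  refine ⟨hlc, ?_⟩
  have hV : V2 n (fun i => a i i) γ σ = Vof n (revc n P) (revc (n - 1) Q) ^ 2 := rfl
  have hmem : ∀ z : ℂ, z.im = 0 → z ∈ Complex.ofRealHom.fieldRange := by
    intro z hz
    exact ⟨z.re, Complex.ext (by simp) (by simp [hz])⟩
  obtain ⟨r, hr⟩ := real_Vof Complex.ofRealHom.fieldRange n (revc n P) (revc (n - 1) Q)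
    (fun i => hmem _ (hFr i)) (fun i => hmem _ (hGr i))
  have hnorm := hB1 n P Q hn b1 b3 hlc
  rw [← hr] at hnorm
  have h2 : ‖Complex.ofRealHom r‖ ^ 2 = r ^ 2 := by
    rw [Complex.ofRealHom_eq_coe, Complex.norm_real, Real.norm_eq_abs, sq_abs]
  rw [hV, ← hr, ← b6, ← hnorm, h2, Complex.ofRealHom_eq_coe]
  push_cast
  rfl

end Pool.Agent.H22.NL.B
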