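import Pool.Agent.H22.NL.Stm

/-! NL-B0: continuants are (shifted) characteristic polynomials (helper63).
`det_tridiag_succ_succ` is a copy from the library (R_seed8/Helper693/Tri/TG4.lean). -/

set_option autoImplicit false
open scoped BigOperators Polynomial
open Polynomial

noncomputable section
namespace Pool.Agent.H22.NL.B0

theorem det_tridiag_succ_succ {R : Type*} [CommRing R] (M : ℕ → ℕ → R)
    (h1 : ∀ i j, i + 1 < j → M i j = 0) (h2 : ∀ i j, j + 1 < i → M i j = 0) (k : ℕ) :
    Matrix.det (Matrix.of fun i j : Fin (k + 2) => M i j) =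
      M (k + 1) (k + 1) * Matrix.det (Matrix.of fun i j : Fin (k + 1) => M i j) -
        M k (k + 1) * M (k + 1) k * Matrix.det (Matrix.of fun i j : Fin k => M i j) := by
  rw [Matrix.det_succ_row _ (Fin.last (k + 1)), Fin.sum_univ_castSucc, Fin.sum_univ_castSucc]
  have hz : ∑ i : Fin k, (-1 : R) ^ (((Fin.last (k + 1) : Fin (k + 2)) : ℕ) +
      ((i.castSucc.castSucc : Fin (k + 2)) : ℕ)) *
      (Matrix.of fun i j : Fin (k + 2) => M i j) (Fin.last (k + 1)) i.castSucc.castSucc *
      ((Matrix.of fun i j : Fin (k + 2) => M i j).submatrix (Fin.last (k + 1)).succAbove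
        i.castSucc.castSucc.succAbove).det = 0 := by
    apply Finset.sum_eq_zero
    intro i _
    have : (Matrix.of fun i j : Fin (k + 2) => M i j) (Fin.last (k + 1)) i.castSucc.castSucc = 0 := by
      show M ((Fin.last (k + 1) : Fin (k + 2)) : ℕ) ((i.castSucc.castSucc : Fin (k + 2)) : ℕ) = 0
      apply h2
      simp only [Fin.val_castSucc, Fin.val_last]
      omega
    rw [this]
    ring
  rw [hz, zero_add]
  have ht1 : ((Matrix.of fun i j : Fin (k + 2) => M i j).submatrix (Fin.last (k + 1)).succAbove
        (Fin.last (k + 1)).succAbove) = (Matrix.of fun i j : Fin (k + 1) => M i j) := by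
    ext i j
    simp [Fin.succAbove_last]
  have ht2 : ((Matrix.of fun i j : Fin (k + 2) => M i j).submatrix (Fin.last (k + 1)).succAbove
        (Fin.last k).castSucc.succAbove).det =
        M k (k + 1) * (Matrix.of fun i j : Fin k => M i j).det := by
    rw [Matrix.det_succ_column _ (Fin.last k), Fin.sum_univ_castSucc]
    have hcol : ∀ i : Fin (k + 1), ((Matrix.of fun i j : Fin (k + 2) => M i j).submatrix
        (Fin.last (k + 1)).succAbove (Fin.last k).castSucc.succAbove) i (Fin.last k) =
        M i (k + 1) := by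
      intro i
      rw [Matrix.submatrix_apply, Matrix.of_apply, Fin.succAbove_last,
        Fin.succAbove_of_le_castSucc _ _ le_rfl]
      simp
    have hz : ∑ i : Fin k, (-1 : R) ^ (((i.castSucc : Fin (k + 1)) : ℕ) +
        ((Fin.last k : Fin (k + 1)) : ℕ)) *
        ((Matrix.of fun i j : Fin (k + 2) => M i j).submatrix
        (Fin.last (k + 1)).succAbove (Fin.last k).castSucc.succAbove) i.castSucc (Fin.last k) *
        (((Matrix.of fun i j : Fin (k + 2) => M i j).submatrix
        (Fin.last (k + 1)).succAbove (Fin.last k).castSucc.succAbove).submatrix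
          i.castSucc.succAbove (Fin.last k).succAbove).det = 0 := by
      apply Finset.sum_eq_zero
      intro i _
      rw [hcol, h1]
      · ring
      · simp only [Fin.val_castSucc]
        omega
    rw [hz, zero_add, hcol]
    have hsub : (((Matrix.of fun i j : Fin (k + 2) => M i j).submatrix
        (Fin.last (k + 1)).succAbove (Fin.last k).castSucc.succAbove).submatrix
          (Fin.last k).succAbove (Fin.last k).succAbove) = (Matrix.of fun i j : Fin k => M i j) := by
      ext i j
      simp only [Matrix.submatrix_apply, Matrix.of_apply, Fin.succAbove_last]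
      rw [Fin.succAbove_of_castSucc_lt]
      · simp
      · rw [Fin.lt_def]
        simp
    rw [hsub]
    have hs : (-1 : R) ^ (((Fin.last k : Fin (k + 1)) : ℕ) + ((Fin.last k : Fin (k + 1)) : ℕ)) = 1 := by
      rw [← two_mul, pow_mul]; norm_num
    rw [hs, one_mul]
    simp
  rw [ht1, ht2]
  have hs1 : (-1 : R) ^ (((Fin.last (k + 1) : Fin (k + 2)) : ℕ) +
      ((Fin.last (k + 1) : Fin (k + 2)) : ℕ)) = 1 := by
    rw [← two_mul, pow_mul]; norm_num
  have hs2 : (-1 : R) ^ (((Fin.last (k + 1) : Fin (k + 2)) : ℕ) +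
      (((Fin.last k).castSucc : Fin (k + 2)) : ℕ)) = -1 := by
    simp only [Fin.val_last, Fin.val_castSucc]
    rw [show k + 1 + k = 2 * k + 1 by ring, pow_succ, pow_mul]; norm_num
  rw [hs1, hs2]
  simp only [Matrix.of_apply, Fin.val_last, Fin.val_castSucc]
  ring


theorem cont_eq {R : Type} [CommRing R] (al ga : ℕ → R) (M : ℕ → ℕ → R[X])
    (h1 : ∀ i j, i + 1 < j → M i j = 0) (h2 : ∀ i j, j + 1 < i → M i j = 0)
    (hd : ∀ i, M i i = X - C (al i)) (ho : ∀ i, M i (i + 1) * M (i + 1) i = C (ga i)) (n : ℕ) :
    (cont al ga n).1 = Matrix.det (Matrix.of fun i j : Fin n => M i j) ∧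
    (cont al ga (n + 1)).1 = Matrix.det (Matrix.of fun i j : Fin (n + 1) => M i j) := by
  induction n with
  | zero =>
    constructor
    · simp [cont]
    · simp [cont, hd]
  | succ n ih =>
    refine ⟨ih.2, ?_⟩
    rw [det_tridiag_succ_succ M h1 h2 n, ← ih.1, ← ih.2, hd, ho]
    have e1 : (cont al ga (n + 1 + 1)).1 = (X - C (al (n + 1))) * (cont al ga (n + 1)).1 -
        C (ga (n + 1 - 1)) * (cont al ga (n + 1)).2 := rfl
    have e2 : (cont al ga (n + 1)).2 = (cont al ga n).1 := rfl
    rw [e1, e2, Nat.add_sub_cancel]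

theorem main : S_B0 := by
  intro a ha n s
  have hherm : (blk a 0 n).IsHermitian := by
    ext i j
    simp only [blk, Matrix.conjTranspose_apply, Matrix.of_apply]
    rw [ha.herm (0 + (i : ℕ)) (0 + (j : ℕ))]
    simp
  have htri2 : ∀ i j, j + 1 < i → a i j = 0 := by
    intro i j h
    rw [ha.herm j i, ha.tri j i h, map_zero]
  -- the matrix
  set M : ℕ → ℕ → ℂ[X] := fun i j => if i = j then X - C (a i i - s) else -C (a i j) with hM
  have h1 : ∀ i j, i + 1 < j → M i j = 0 := by
    intro i j h
    simp only [hM]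
    rw [if_neg (by omega), ha.tri i j h, map_zero, neg_zero]
  have h2 : ∀ i j, j + 1 < i → M i j = 0 := by
    intro i j h
    simp only [hM]
    rw [if_neg (by omega), htri2 i j h, map_zero, neg_zero]
  have hd : ∀ i, M i i = X - C (a i i - s) := fun i => by simp [hM]
  have ho : ∀ i, M i (i + 1) * M (i + 1) i = C (a i (i + 1) * a (i + 1) i) := by
    intro i
    simp only [hM]
    rw [if_neg (by omega), if_neg (by omega), map_mul]
    ring
  rw [(cont_eq _ _ M h1 h2 hd ho n).1]
  -- substitution
  have h3 : (Matrix.of fun i j : Fin n => M i j) =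
      (Polynomial.compRingHom (X + C s)).mapMatrix (blk a 0 n).charmatrix := by
    ext1 i j
    rw [RingHom.mapMatrix_apply, Matrix.map_apply, Matrix.of_apply, Polynomial.coe_compRingHom_apply,
      Matrix.charmatrix_apply, Matrix.diagonal_apply]
    simp only [hM, blk, Matrix.of_apply, zero_add]
    by_cases h : i = j
    · subst h
      simp
      ring
    · have h' : ¬ (i : ℕ) = (j : ℕ) := fun h' => h (Fin.ext h')
      simp [h, h']
  rw [h3, ← RingHom.map_det]
  have h4 : (blk a 0 n).charmatrix.det = (blk a 0 n).charpoly := rfl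
  rw [h4, hherm.charpoly_eq, map_prod]
  apply Finset.prod_congr rfl
  intro i _
  rw [Polynomial.coe_compRingHom_apply]
  unfold eig
  rw [dif_pos hherm]
  simp
  ring

end Pool.Agent.H22.NL.B0
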