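import Pool.Agent.H22.NL.Stm

set_option autoImplicit false
open scoped BigOperators Polynomial
open Polynomial

/-!
# Project NL, part B1: the product of the leading coefficients is the resultant
-/

noncomputable section
namespace Pool.Agent.H22.NL.B1

theorem eu_shift (F G : ℕ → ℂ) : ∀ k, eu F G (k + 1) = eu G (nxt F G) k := by
  intro k
  induction k with
  | zero => rfl
  | succ k ih =>
    rw [eu, ih]
    rfl

theorem lc_shift (F G : ℕ → ℂ) (k : ℕ) : lc F G (k + 1) = lc G (nxt F G) k := by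
  rw [lc, lc, eu_shift]

theorem Vof_shift (F G : ℕ → ℂ) (m : ℕ) :
    Vof (m + 2) F G = lc F G 0 ^ 2 * Vof (m + 1) G (nxt F G) := by
  unfold Vof
  rw [show m + 2 - 1 = m + 1 by omega, show m + 1 - 1 = m by omega, Finset.prod_range_succ']
  simp only [lc_shift]
  ring

/-- the next polynomial -/
def npol (m : ℕ) (A B : ℂ[X]) : ℂ[X] :=
  B * (C (A.coeff (m + 2) / B.coeff (m + 1)) * X +
    C ((A.coeff (m + 1) - A.coeff (m + 2) / B.coeff (m + 1) * B.coeff m) / B.coeff (m + 1))) - A

theorem coeff_npol_succ (m : ℕ) (A B : ℂ[X]) (j : ℕ) : (npol m A B).coeff (j + 1) =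
    A.coeff (m + 2) / B.coeff (m + 1) * B.coeff j +
      (A.coeff (m + 1) - A.coeff (m + 2) / B.coeff (m + 1) * B.coeff m) / B.coeff (m + 1) *
        B.coeff (j + 1) - A.coeff (j + 1) := by
  rw [npol, coeff_sub, mul_add, coeff_add, ← mul_assoc, coeff_mul_X, coeff_mul_C, coeff_mul_C]
  ring

theorem coeff_npol_zero (m : ℕ) (A B : ℂ[X]) : (npol m A B).coeff 0 =
      (A.coeff (m + 1) - A.coeff (m + 2) / B.coeff (m + 1) * B.coeff m) / B.coeff (m + 1) *
        B.coeff 0 - A.coeff 0 := by
  rw [npol, coeff_sub, mul_add, coeff_add, ← mul_assoc, coeff_mul_X_zero, coeff_mul_C]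
  ring

theorem natDegree_npol (m : ℕ) (A B : ℂ[X]) (hA : A.natDegree ≤ m + 2) (hB : B.natDegree ≤ m + 1)
    (hb : B.coeff (m + 1) ≠ 0) : (npol m A B).natDegree ≤ m := by
  rw [natDegree_le_iff_coeff_eq_zero]
  intro j hj
  obtain ⟨j, rfl⟩ : ∃ i, j = i + 1 := ⟨j - 1, by omega⟩
  rw [coeff_npol_succ]
  have h1 : ∀ i, m + 2 < i → A.coeff i = 0 := fun i hi =>
    coeff_eq_zero_of_natDegree_lt (lt_of_le_of_lt hA hi)
  have h2 : ∀ i, m + 1 < i → B.coeff i = 0 := fun i hi =>
    coeff_eq_zero_of_natDegree_lt (lt_of_le_of_lt hB hi)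
  rcases Nat.lt_trichotomy j (m + 1) with h | h | h
  · have : j = m := by omega
    subst this
    field_simp
    ring
  · subst h
    rw [h2 (m + 1 + 1) (by omega)]
    field_simp
    ring
  · rw [h1 (j + 1) (by omega), h2 (j + 1) (by omega), h2 j (by omega)]
    ring

theorem nxt_revc (m : ℕ) (A B : ℂ[X]) :
    nxt (revc (m + 2) A) (revc (m + 1) B) = revc m (npol m A B) := by
  funext i
  have e0 : revc (m + 2) A 0 = A.coeff (m + 2) := by simp [revc]
  have e1 : revc (m + 2) A 1 = A.coeff (m + 1) := by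
    simp only [revc]
    rw [if_pos (by omega), show m + 2 - 1 = m + 1 by omega]
  have e2 : revc (m + 1) B 0 = B.coeff (m + 1) := by simp [revc]
  have e3 : revc (m + 1) B 1 = B.coeff m := by
    simp only [revc]
    rw [if_pos (by omega), show m + 1 - 1 = m by omega]
  rw [nxt, e0, e1, e2, e3]
  simp only [revc]
  rcases Nat.lt_trichotomy i m with h | h | h
  · rw [if_pos (by omega), if_pos (by omega), if_pos (by omega), if_pos (by omega)]
    obtain ⟨j, hj⟩ : ∃ j, m - i = j + 1 := ⟨m - i - 1, by omega⟩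
    rw [hj, coeff_npol_succ, show m + 1 - (i + 2) = j by omega, show m + 1 - (i + 1) = j + 1 by omega,
      show m + 2 - (i + 2) = j + 1 by omega]
  · subst h
    rw [if_neg (by omega), if_pos (by omega), if_pos (by omega), if_pos (by omega),
      show i + 1 - (i + 1) = 0 by omega, show i + 2 - (i + 2) = 0 by omega, Nat.sub_self,
      coeff_npol_zero]
    ring
  · rw [if_neg (by omega), if_neg (by omega), if_neg (by omega), if_neg (by omega)]
    ring

theorem norm_resultant_step (m : ℕ) (A B : ℂ[X]) (hA : A.natDegree ≤ m + 2)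
    (hB : B.natDegree ≤ m + 1) (hb : B.coeff (m + 1) ≠ 0) :
    ‖resultant A B (m + 2) (m + 1)‖ =
      ‖B.coeff (m + 1)‖ ^ 2 * ‖resultant B (npol m A B) (m + 1) m‖ := by
  have hN := natDegree_npol m A B hA hB hb
  set N := npol m A B with hNdef
  have h1 : A = C (-1) * N + B * (C (A.coeff (m + 2) / B.coeff (m + 1)) * X +
    C ((A.coeff (m + 1) - A.coeff (m + 2) / B.coeff (m + 1) * B.coeff m) / B.coeff (m + 1))) := by
    rw [hNdef, npol]
    simp only [map_neg, map_one]
    ring
  conv_lhs => rw [h1]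
  rw [resultant_add_mul_left _ _ _ _ _ ?_ hB, resultant_add_left_deg (k := 2) _ _ _ _ ?_,
    resultant_C_mul_left, resultant_comm]
  · simp only [norm_mul, norm_pow, norm_neg, norm_one, one_pow, one_mul]
  · refine (natDegree_C_mul_le _ _).trans hN
  · have : (C (A.coeff (m + 2) / B.coeff (m + 1)) * X + C ((A.coeff (m + 1) -
        A.coeff (m + 2) / B.coeff (m + 1) * B.coeff m) / B.coeff (m + 1)) : ℂ[X]).natDegree ≤ 1 :=
      natDegree_linear_le
    omega

theorem main_aux : ∀ (m : ℕ) (A B : ℂ[X]), A.natDegree ≤ m + 1 → B.natDegree ≤ m →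
    (∀ k < m + 1, lc (revc (m + 1) A) (revc m B) k ≠ 0) →
      ‖Vof (m + 1) (revc (m + 1) A) (revc m B)‖ = ‖resultant A B (m + 1) m‖ := by
  intro m
  induction m with
  | zero =>
    intro A B hA hB h
    simp [Vof, lc, eu, revc]
  | succ m ih =>
    intro A B hA hB h
    have hb : B.coeff (m + 1) ≠ 0 := by
      have := h 0 (by omega)
      simpa [lc, eu, revc] using this
    rw [norm_resultant_step m A B hA hB hb, Vof_shift, nxt_revc, norm_mul, norm_pow,
      ih B (npol m A B) hB (natDegree_npol m A B hA hB hb) ?_]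
    · congr 2
    · intro k hk
      have := h (k + 1) (by omega)
      rwa [lc_shift, nxt_revc] at this

theorem main : S_B1 := by
  intro n P Q hn hP hQ h
  obtain ⟨m, rfl⟩ : ∃ m, n = m + 1 := ⟨n - 1, by omega⟩
  rw [show m + 1 - 1 = m by omega] at *
  exact main_aux m P Q hP hQ h

end Pool.Agent.H22.NL.B1
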