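import Pool.Agent.H22.NL.Stm

set_option autoImplicit false
open scoped BigOperators Polynomial
open Polynomial

/-!
# Project NL, part B2: the resultant of real and imaginary part
-/

noncomputable section
namespace Pool.Agent.H22.NL.B2

theorem prod_split (n : ℕ) (σ : ℝ) (h : Fin n → Fin n → ℝ) (hd : ∀ i, h i i = 4 * σ ^ 2) :
    ∏ i, ∏ j, h i j = (4 * σ ^ 2) ^ n * ∏ i, ∏ j, (if i = j then 1 else h i j) := by
  have h1 : ∀ i : Fin n, ∏ j, h i j = (4 * σ ^ 2) * ∏ j, (if i = j then 1 else h i j) := by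
    intro i
    have h2 : ∀ j, h i j = (if i = j then 4 * σ ^ 2 else 1) * (if i = j then 1 else h i j) := by
      intro j
      by_cases hij : i = j
      · subst hij; simp [hd]
      · simp [hij]
    calc ∏ j, h i j = ∏ j, ((if i = j then 4 * σ ^ 2 else 1) * (if i = j then 1 else h i j)) :=
          Finset.prod_congr rfl fun j _ => h2 j
      _ = _ := by rw [Finset.prod_mul_distrib, Finset.prod_ite_eq]; simp
  rw [Finset.prod_congr rfl fun i _ => h1 i, Finset.prod_mul_distrib]
  simp

theorem res_prod (n : ℕ) (a b : Fin n → ℂ) :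
    resultant (∏ i, (X - C (a i))) (∏ i, (X - C (b i))) n n = ∏ i, ∏ j, (a i - b j) := by
  have hg : (∏ i, (X - C (b i)) : ℂ[X]).natDegree ≤ n := by
    rw [natDegree_finsetProd_X_sub_C_eq_card]; simp
  have h1 := resultant_prod_left (Finset.univ : Finset (Fin n)) (fun i => (X - C (a i) : ℂ[X]))
    (∏ i, (X - C (b i))) n (by simp) hg
  rw [natDegree_finsetProd_X_sub_C_eq_card] at h1
  rw [Finset.card_univ, Fintype.card_fin] at h1
  rw [h1]
  refine Finset.prod_congr rfl fun i _ => ?_
  rw [natDegree_X_sub_C, resultant_X_sub_C_left _ _ _ hg, eval_prod]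
  simp

theorem main : S_B2 := by
  intro n lam σ P Q hn hσ hP hQ
  set a : Fin n → ℂ := fun i => (lam i : ℂ) - Complex.I * σ with ha
  set b : Fin n → ℂ := fun i => (lam i : ℂ) + Complex.I * σ with hb
  set f : ℂ[X] := ∏ i, (X - C (a i)) with hf
  set g : ℂ[X] := ∏ i, (X - C (b i)) with hg
  have hP' : P = C (1 / 2) * (f + g) := hP
  have hQ' : Q = C (1 / (2 * Complex.I)) * (f - g) := hQ
  have hfd : f.natDegree = n := by
    rw [hf, natDegree_finsetProd_X_sub_C_eq_card]; simp
  have hgd : g.natDegree = n := by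
    rw [hg, natDegree_finsetProd_X_sub_C_eq_card]; simp
  have hfm : f.Monic := monic_prod_of_monic _ _ fun i _ => monic_X_sub_C _
  have hgm : g.Monic := monic_prod_of_monic _ _ fun i _ => monic_X_sub_C _
  have hfc : f.coeff n = 1 := by rw [← hfd]; exact hfm.coeff_natDegree
  have hgc : g.coeff n = 1 := by rw [← hgd]; exact hgm.coeff_natDegree
  have hconj : g = f.map (starRingEnd ℂ) := by
    rw [hf, Polynomial.map_prod]
    refine Finset.prod_congr rfl fun i _ => ?_
    rw [Polynomial.map_sub, map_X, map_C]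
    congr 2
    simp [ha, hb]
  have hfP : f = P + Q * C Complex.I := by
    rw [hP', hQ']
    have : C (1 / (2 * Complex.I)) * (f - g) * C Complex.I = C (1 / 2) * (f - g) := by
      rw [mul_comm (C (1 / (2 * Complex.I)) * (f - g)), ← mul_assoc, ← C_mul]
      congr 2
      field_simp
    rw [this, ← mul_add]
    have : f + g + (f - g) = C 2 * f := by
      rw [show (C 2 : ℂ[X]) = 2 from rfl]; ring
    rw [this, ← mul_assoc, ← C_mul]
    simp
  have hgQ : g = C (-2 * Complex.I) * Q + f * 1 := by
    rw [hQ', ← mul_assoc, ← C_mul]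
    have : (-2 * Complex.I * (1 / (2 * Complex.I))) = -1 := by
      field_simp
    rw [this]
    simp
  have hPd : P.natDegree ≤ n := by
    rw [hP']
    refine (natDegree_C_mul_le _ _).trans ((natDegree_add_le _ _).trans ?_)
    rw [hfd, hgd, max_self]
  have hQd : Q.natDegree ≤ n - 1 := by
    rw [natDegree_le_iff_coeff_eq_zero]
    intro j hj
    rw [hQ', coeff_C_mul, coeff_sub]
    rcases Nat.lt_or_ge n j with h | h
    · rw [coeff_eq_zero_of_natDegree_lt (by omega), coeff_eq_zero_of_natDegree_lt (by omega)]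
      simp
    · have : j = n := by omega
      rw [this, hfc, hgc]
      simp
  refine ⟨hPd, ?_, hQd, ?_, ?_, ?_⟩
  · rw [hP', coeff_C_mul, coeff_add, hfc, hgc]
    norm_num
  · intro i
    rw [hP', hconj, coeff_C_mul, coeff_add, coeff_map]
    have : (1 / 2 : ℂ) * (f.coeff i + (starRingEnd ℂ) (f.coeff i)) = ((f.coeff i).re : ℂ) := by
      rw [Complex.add_conj]
      push_cast
      ring
    rw [this, Complex.ofReal_im]
  · intro i
    rw [hQ', hconj, coeff_C_mul, coeff_sub, coeff_map]
    have : (1 / (2 * Complex.I) : ℂ) * (f.coeff i - (starRingEnd ℂ) (f.coeff i)) =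
        ((f.coeff i).im : ℂ) := by
      rw [Complex.sub_conj]
      push_cast
      field_simp
    rw [this, Complex.ofReal_im]
  · have hI : ‖(-2 * Complex.I : ℂ)‖ = 2 := by simp
    have h1 : ‖resultant f g n n‖ = 2 ^ n * ‖resultant P Q n (n - 1)‖ := by
      conv_lhs => rw [hgQ]
      rw [resultant_add_mul_right _ _ _ _ _ (by simp) hfd.le, resultant_C_mul_right]
      conv_lhs => enter [1, 2]; rw [show resultant f Q n n = resultant f Q n ((n - 1) + 1) by
        rw [Nat.sub_add_cancel hn]]
      rw [resultant_add_right_deg _ _ _ _ 1 hQd, hfc, one_pow, one_mul]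
      conv_lhs => rw [hfP]
      rw [resultant_add_mul_left _ _ _ _ _ (by rw [natDegree_C]; omega) hQd, norm_mul, norm_pow, hI]
    have h2 : ‖resultant f g n n‖ ^ 2 =
        ∏ i : Fin n, ∏ j : Fin n, ((lam i - lam j) ^ 2 + 4 * σ ^ 2) := by
      rw [hf, hg, res_prod, norm_prod, ← Finset.prod_pow]
      refine Finset.prod_congr rfl fun i _ => ?_
      rw [norm_prod, ← Finset.prod_pow]
      refine Finset.prod_congr rfl fun j _ => ?_
      rw [← Complex.normSq_eq_norm_sq, Complex.normSq_apply]
      simp [ha, hb]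
      ring
    rw [h1, prod_split n σ _ (fun i => by ring), mul_pow, mul_pow, ← pow_mul, ← pow_mul] at h2
    have h4 : (2 : ℝ) ^ (n * 2) = 4 ^ n := by
      rw [mul_comm, pow_mul]; norm_num
    rw [h4, mul_assoc] at h2
    have h5 := mul_left_cancel₀ (pow_ne_zero n (by norm_num : (4 : ℝ) ≠ 0)) h2
    rw [h5]

end Pool.Agent.H22.NL.B2
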