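import Pool.Agent.H22.NL.Stm

/-! NL-C1: multiplication of power series by the fast Fourier transform (helper63) -/

set_option autoImplicit false
open scoped BigOperators

noncomputable section
namespace Pool.Agent.H22.NL.C1

variable {X : Type}

/-- free quantities -/
def Av (S : Set (X → ℂ)) (f : X → ℂ) : Prop := f ∈ S ∨ ∃ z, IsConst z ∧ f = fun _ => z

lemma Av.avail {S : Set (X → ℂ)} {f : X → ℂ} (h : Av S f) : Avail S [] f := by
  rcases h with h | h
  · exact Or.inl h
  · exact Or.inr (Or.inr h)

lemma Av.mono {S S' : Set (X → ℂ)} {f : X → ℂ} (h : Av S f) (hS : S ⊆ S') : Av S' f := by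
  rcases h with h | h
  · exact Or.inl (hS h)
  · exact Or.inr h

lemma av_mem {S : Set (X → ℂ)} {f : X → ℂ} (h : f ∈ S) : Av S f := Or.inl h

lemma av_const {S : Set (X → ℂ)} {z : ℂ} (h : IsConst z) : Av S (fun _ : X => z) :=
  Or.inr ⟨z, h, rfl⟩

lemma const_nat (m : ℕ) : IsConst (m : ℂ) := Or.inl ⟨m, rfl⟩

lemma seg_mem {N : ℕ} {a : ℕ → X → ℂ} {i : ℕ} (h : i < N) : a i ∈ seg N a := ⟨i, h, rfl⟩

/-- computing `N` quantities at cost `d` each -/
lemma many {S : Set (X → ℂ)} (N d : ℕ) (f : ℕ → X → ℂ) (h : ∀ i < N, Cost S d {f i}) :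
    Cost S (N * d) (seg N f) := by
  have h1 := Cost.biUnion (S := S) (Finset.range N) (fun i => {f i}) (fun _ => d)
    (fun i hi => h i (Finset.mem_range.1 hi))
  refine h1.mono subset_rfl (by simp) ?_
  rintro g ⟨i, hi, rfl⟩
  simp only [Set.mem_iUnion, Finset.mem_range]
  exact ⟨i, hi, rfl⟩

/-- root of unity -/
def om (k : ℕ) : ℂ := Complex.exp (2 * Real.pi * Complex.I / (2 ^ k : ℕ))

lemma om_prim (k : ℕ) : IsPrimitiveRoot (om k) (2 ^ k) :=
  Complex.isPrimitiveRoot_exp _ (by positivity)

lemma om_pow (k : ℕ) : om k ^ (2 ^ k) = 1 := (om_prim k).pow_eq_one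

lemma om_sq (k : ℕ) : om (k + 1) ^ 2 = om k := by
  unfold om
  rw [← Complex.exp_nat_mul]
  congr 1
  push_cast
  rw [pow_succ]
  field_simp

lemma om_const (k j : ℕ) : IsConst (om k ^ j) := by
  right
  refine ⟨j, k, ?_⟩
  unfold om
  rw [← Complex.exp_nat_mul]
  congr 1
  push_cast
  ring

/-- discrete Fourier transform -/
def dft (k : ℕ) (a : ℕ → X → ℂ) (j : ℕ) : X → ℂ :=
  fun x => ∑ i ∈ Finset.range (2 ^ k), a i x * (om k ^ i) ^ j

lemma dft_mod (k : ℕ) (a : ℕ → X → ℂ) (j : ℕ) : dft k a j = dft k a (j % 2 ^ k) := by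
  funext x
  unfold dft
  apply Finset.sum_congr rfl
  intro i _
  congr 1
  apply pow_eq_pow_mod
  rw [← pow_mul, mul_comm, pow_mul, om_pow, one_pow]

lemma sum_even_odd (n : ℕ) (f : ℕ → ℂ) : ∑ i ∈ Finset.range (2 * n), f i =
    ∑ i ∈ Finset.range n, f (2 * i) + ∑ i ∈ Finset.range n, f (2 * i + 1) := by
  induction n with
  | zero => simp
  | succ n ih =>
    rw [show 2 * (n + 1) = 2 * n + 1 + 1 by ring, Finset.sum_range_succ, Finset.sum_range_succ, ih,
      Finset.sum_range_succ, Finset.sum_range_succ]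
    ring

lemma dft_succ (k : ℕ) (a : ℕ → X → ℂ) (j : ℕ) : dft (k + 1) a j =
    fun x => dft k (fun i => a (2 * i)) j x + om (k + 1) ^ j * dft k (fun i => a (2 * i + 1)) j x := by
  funext x
  unfold dft
  rw [pow_succ 2 k, mul_comm (2 ^ k) 2, sum_even_odd]
  congr 1
  · apply Finset.sum_congr rfl
    intro i _
    rw [pow_mul, om_sq]
  · rw [Finset.mul_sum]
    apply Finset.sum_congr rfl
    intro i _
    rw [pow_succ, pow_mul, om_sq, mul_pow]
    ring

lemma cost_dft (k : ℕ) : ∀ (S : Set (X → ℂ)) (a : ℕ → X → ℂ), (∀ i < 2 ^ k, Av S (a i)) →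
    Cost S (2 * k * 2 ^ k) (seg (2 ^ k) (dft k a)) := by
  induction k with
  | zero =>
    intro S a h
    refine Cost.free ?_
    rintro f ⟨i, hi, rfl⟩
    have h0 : i = 0 := by simpa using hi
    subst h0
    have h1 : dft 0 a 0 = a 0 := by
      funext x
      simp [dft]
    rw [h1]
    exact h 0 (by simp)
  | succ k ih =>
    intro S a h
    have h2k : 2 ^ (k + 1) = 2 ^ k + 2 ^ k := by ring
    have he := ih S (fun i => a (2 * i)) (fun i hi => h _ (by omega))
    have ho := ih S (fun i => a (2 * i + 1)) (fun i hi => h _ (by omega))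
    have heo := he.union ho
    set F := seg (2 ^ k) (dft k fun i => a (2 * i)) ∪ seg (2 ^ k) (dft k fun i => a (2 * i + 1))
      with hF
    have hstep : Cost (S ∪ F) (2 ^ (k + 1) * 2) (seg (2 ^ (k + 1)) (dft (k + 1) a)) := by
      apply many
      intro j hj
      have hjm : j % 2 ^ k < 2 ^ k := Nat.mod_lt _ (by positivity)
      have ae : Av (S ∪ F) (dft k (fun i => a (2 * i)) j) := by
        rw [dft_mod]
        exact av_mem (Or.inr (Or.inl (seg_mem hjm)))
      have ao : Av (S ∪ F) (dft k (fun i => a (2 * i + 1)) j) := by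
        rw [dft_mod]
        exact av_mem (Or.inr (Or.inr (seg_mem hjm)))
      have ac : Av (S ∪ F) (fun _ : X => om (k + 1) ^ j) := av_const (om_const _ _)
      have c1 := Cost.mul ac.avail ao.avail
      have c2 := Cost.add (ae.mono (Set.subset_union_left
        (t := {fun x => om (k + 1) ^ j * dft k (fun i => a (2 * i + 1)) j x}))).avail
        (av_mem (S := (S ∪ F) ∪ {fun x => om (k + 1) ^ j * dft k (fun i => a (2 * i + 1)) j x})
          (Or.inr rfl)).avail
      have c3 := c1.trans c2
      rw [dft_succ]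
      exact c3
    refine (heo.trans hstep).mono subset_rfl ?_ subset_rfl
    rw [h2k]
    ring_nf
    exact le_rfl

lemma geom (k r : ℕ) : ∑ j ∈ Finset.range (2 ^ k), (om k ^ r) ^ j =
    if 2 ^ k ∣ r then (2 ^ k : ℂ) else 0 := by
  split_ifs with h
  · have h1 : om k ^ r = 1 := ((om_prim k).pow_eq_one_iff_dvd r).2 h
    rw [h1]
    simp
  · have h1 : om k ^ r ≠ 1 := fun h' => h (((om_prim k).pow_eq_one_iff_dvd r).1 h')
    rw [geom_sum_eq h1, ← pow_mul, mul_comm, pow_mul, om_pow, one_pow, sub_self, zero_div]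

/-- the inverse transform of the product of the transforms of the truncated sequences -/
lemma inverse (k : ℕ) (a b : ℕ → X → ℂ) (m : ℕ) (hm : m < 2 ^ k) (x : X) :
    dft (k + 1) (fun j x => dft (k + 1) (fun i => if i < 2 ^ k then a i else fun _ => 0) j x *
      dft (k + 1) (fun i => if i < 2 ^ k then b i else fun _ => 0) j x) (2 ^ (k + 1) - m) x =
      2 ^ (k + 1) * conv a b m x := by
  have h2k : 2 ^ (k + 1) = 2 ^ k + 2 ^ k := by ring
  have htr : ∀ (a : ℕ → X → ℂ) (j : ℕ),
      dft (k + 1) (fun i => if i < 2 ^ k then a i else fun _ => 0) j x =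
      ∑ i ∈ Finset.range (2 ^ k), a i x * (om (k + 1) ^ i) ^ j := by
    intro a j
    unfold dft
    have hsub : Finset.range (2 ^ k) ⊆ Finset.range (2 ^ (k + 1)) := by
      apply Finset.range_subset_range.2; omega
    rw [← Finset.sum_subset hsub]
    · apply Finset.sum_congr rfl
      intro i hi
      simp only [if_pos (Finset.mem_range.1 hi)]
    · intro i _ hi
      simp only [if_neg (show ¬ i < 2 ^ k by simpa using hi), zero_mul]
  unfold dft at htr ⊢
  simp only [htr]
  calc ∑ j ∈ Finset.range (2 ^ (k + 1)),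
        (∑ i ∈ Finset.range (2 ^ k), a i x * (om (k + 1) ^ i) ^ j) *
        (∑ i ∈ Finset.range (2 ^ k), b i x * (om (k + 1) ^ i) ^ j) *
          (om (k + 1) ^ j) ^ (2 ^ (k + 1) - m)
      = ∑ j ∈ Finset.range (2 ^ (k + 1)), ∑ i ∈ Finset.range (2 ^ k), ∑ i' ∈ Finset.range (2 ^ k),
        a i x * b i' x * (om (k + 1) ^ (i + i' + (2 ^ (k + 1) - m))) ^ j := by
        apply Finset.sum_congr rfl
        intro j _
        rw [Finset.sum_mul_sum, Finset.sum_mul]
        apply Finset.sum_congr rfl
        intro i _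
        rw [Finset.sum_mul]
        apply Finset.sum_congr rfl
        intro i' _
        generalize 2 ^ (k + 1) - m = r
        generalize om (k + 1) = w
        rw [pow_add, pow_add, mul_pow, mul_pow, ← pow_mul w j r, mul_comm j r, pow_mul w r j]
        ring
    _ = ∑ i ∈ Finset.range (2 ^ k), ∑ i' ∈ Finset.range (2 ^ k),
        a i x * b i' x * ∑ j ∈ Finset.range (2 ^ (k + 1)),
          (om (k + 1) ^ (i + i' + (2 ^ (k + 1) - m))) ^ j := by
        rw [Finset.sum_comm]
        apply Finset.sum_congr rfl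
        intro i _
        rw [Finset.sum_comm]
        apply Finset.sum_congr rfl
        intro i' _
        rw [Finset.mul_sum]
    _ = ∑ i ∈ Finset.range (2 ^ k), ∑ i' ∈ Finset.range (2 ^ k),
        a i x * b i' x * (if i + i' = m then (2 ^ (k + 1) : ℂ) else 0) := by
        apply Finset.sum_congr rfl
        intro i hi
        apply Finset.sum_congr rfl
        intro i' hi'
        rw [Finset.mem_range] at hi hi'
        rw [geom]
        congr 1
        have hiff : 2 ^ (k + 1) ∣ i + i' + (2 ^ (k + 1) - m) ↔ i + i' = m := by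
          constructor
          · rintro ⟨q, hq⟩
            have hq1 : q = 1 := by
              rcases Nat.lt_or_ge q 1 with h | h
              · have h0 : q = 0 := by omega
                rw [h0, mul_zero] at hq
                omega
              · rcases Nat.lt_or_ge q 2 with h' | h'
                · omega
                · have : 2 ^ (k + 1) * 2 ≤ 2 ^ (k + 1) * q := Nat.mul_le_mul_left _ h'
                  omega
            rw [hq1, mul_one] at hq
            omega
          · intro h
            refine ⟨1, ?_⟩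
            omega
        by_cases h : i + i' = m
        · rw [if_pos (hiff.2 h), if_pos h]
        · rw [if_neg (fun h' => h (hiff.1 h')), if_neg h]
    _ = ∑ i ∈ Finset.range (2 ^ k),
        (if i ≤ m then a i x * b (m - i) x * (2 ^ (k + 1) : ℂ) else 0) := by
        apply Finset.sum_congr rfl
        intro i hi
        rw [Finset.mem_range] at hi
        split_ifs with h
        · rw [Finset.sum_eq_single (m - i)]
          · rw [if_pos (by omega)]
          · intro i' _ hne
            rw [if_neg (by omega), mul_zero]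
          · intro hnot
            exact absurd (Finset.mem_range.2 (by omega)) hnot
        · apply Finset.sum_eq_zero
          intro i' _
          rw [if_neg (by omega), mul_zero]
    _ = ∑ i ∈ Finset.range (m + 1), a i x * b (m - i) x * (2 ^ (k + 1) : ℂ) := by
        rw [← Finset.sum_filter]
        apply Finset.sum_congr _ (fun _ _ => rfl)
        ext i
        simp only [Finset.mem_filter, Finset.mem_range]
        omega
    _ = 2 ^ (k + 1) * conv a b m x := by
        unfold conv
        rw [Finset.mul_sum]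
        apply Finset.sum_congr rfl
        intro i _
        ring

theorem main : S_C1 := by
  refine ⟨15, ?_⟩
  intro X k a b
  set S : Set (X → ℂ) := seg (2 ^ k) a ∪ seg (2 ^ k) b with hS
  set A : ℕ → X → ℂ := fun i => if i < 2 ^ k then a i else fun _ => 0 with hA
  set B : ℕ → X → ℂ := fun i => if i < 2 ^ k then b i else fun _ => 0 with hB
  have h2k : 2 ^ (k + 1) = 2 ^ k + 2 ^ k := by ring
  have hAav : ∀ i < 2 ^ (k + 1), Av S (A i) := by
    intro i _
    simp only [hA]
    split_ifs with h
    · exact av_mem (Or.inl (seg_mem h))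
    · have := av_const (S := S) (const_nat 0)
      simpa using this
  have hBav : ∀ i < 2 ^ (k + 1), Av S (B i) := by
    intro i _
    simp only [hB]
    split_ifs with h
    · exact av_mem (Or.inr (seg_mem h))
    · have := av_const (S := S) (const_nat 0)
      simpa using this
  have c1 := (cost_dft (k + 1) S A hAav).union (cost_dft (k + 1) S B hBav)
  set F := seg (2 ^ (k + 1)) (dft (k + 1) A) ∪ seg (2 ^ (k + 1)) (dft (k + 1) B) with hF
  set Cc : ℕ → X → ℂ := fun j x => dft (k + 1) A j x * dft (k + 1) B j x with hC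
  have c2 : Cost (S ∪ F) (2 ^ (k + 1) * 1) (seg (2 ^ (k + 1)) Cc) := by
    apply many
    intro j hj
    exact Cost.mul (av_mem (Or.inr (Or.inl (seg_mem hj)))).avail
      (av_mem (Or.inr (Or.inr (seg_mem hj)))).avail
  have c3 := cost_dft (k + 1) (seg (2 ^ (k + 1)) Cc) Cc (fun i hi => av_mem (seg_mem hi))
  set G := seg (2 ^ (k + 1)) (dft (k + 1) Cc) with hG
  have c4 : Cost G (2 ^ k * 1) (seg (2 ^ k) (conv a b)) := by
    apply many
    intro m hm
    have h1 : Av G (dft (k + 1) Cc (2 ^ (k + 1) - m)) := by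
      rw [dft_mod]
      exact av_mem (seg_mem (Nat.mod_lt _ (by positivity)))
    have h2 : Av G (fun _ : X => ((2 ^ (k + 1) : ℕ) : ℂ)) := av_const (const_nat _)
    have h3 := Cost.div h1.avail h2.avail
    have h4 : (fun x => dft (k + 1) Cc (2 ^ (k + 1) - m) x / ((2 ^ (k + 1) : ℕ) : ℂ)) =
        conv a b m := by
      funext x
      rw [hC, hA, hB, inverse k a b m hm x]
      push_cast
      exact mul_div_cancel_left₀ _ (pow_ne_zero _ two_ne_zero)
    rw [h4] at h3
    exact h3
  have t1 : Cost S _ (seg (2 ^ (k + 1)) Cc) := c1.trans c2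
  have t2 : Cost S _ G := t1.trans (c3.mono Set.subset_union_right le_rfl subset_rfl)
  have t3 : Cost S _ (seg (2 ^ k) (conv a b)) :=
    t2.trans (c4.mono Set.subset_union_right le_rfl subset_rfl)
  refine t3.mono subset_rfl ?_ subset_rfl
  have h5 : 2 ^ k ≤ 2 ^ k * (k + 1) := Nat.le_mul_of_pos_right _ (by omega)
  rw [h2k]
  nlinarith

end Pool.Agent.H22.NL.C1
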