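import Pool.Agent.H22.NL.Stm

/-! NL-C4: divide and conquer for the continued fraction algorithm (helper63) -/

set_option autoImplicit false
open scoped BigOperators Polynomial

noncomputable section
namespace Pool.Agent.H22.NL.C4

open Polynomial (C natDegree)

variable {X : Type}

/-! ### calculus -/

/-- free quantities -/
def Av (S : Set (X → ℂ)) (f : X → ℂ) : Prop := f ∈ S ∨ ∃ z, IsConst z ∧ f = fun _ => z

lemma Av.avail {S : Set (X → ℂ)} {f : X → ℂ} (h : Av S f) : Avail S [] f := by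
  rcases h with h | h
  · exact Or.inl h
  · exact Or.inr (Or.inr h)

lemma Av.mono {S S' : Set (X → ℂ)} {f : X → ℂ} (h : Av S f) (hS : S ⊆ S') : Av S' f := by
  rcases h with h | h
  · exact Or.inl (hS h)
  · exact Or.inr h

lemma av_mem {S : Set (X → ℂ)} {f : X → ℂ} (h : f ∈ S) : Av S f := Or.inl h

lemma av_const {S : Set (X → ℂ)} {z : ℂ} (h : IsConst z) : Av S (fun _ : X => z) :=
  Or.inr ⟨z, h, rfl⟩

lemma const_zero : IsConst 0 := Or.inl ⟨0, by simp⟩
lemma const_one : IsConst 1 := Or.inl ⟨1, by simp⟩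
lemma const_neg_one : IsConst (-1) := by
  right
  refine ⟨1, 1, ?_⟩
  rw [show (2 * Real.pi * Complex.I * (1 : ℕ) / 2 ^ 1 : ℂ) = Real.pi * Complex.I by push_cast; ring,
    Complex.exp_pi_mul_I]

lemma seg_mem {N : ℕ} {a : ℕ → X → ℂ} {i : ℕ} (h : i < N) : a i ∈ seg N a := ⟨i, h, rfl⟩

lemma seg_mono {N N' : ℕ} (h : N ≤ N') (a : ℕ → X → ℂ) : seg N a ⊆ seg N' a := by
  rintro f ⟨i, hi, rfl⟩
  exact ⟨i, by omega, rfl⟩

/-- computing `N` quantities at cost `d` each -/
lemma many {S : Set (X → ℂ)} (N d : ℕ) (f : ℕ → X → ℂ) (h : ∀ i < N, Cost S d {f i}) :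
    Cost S (N * d) (seg N f) := by
  have h1 := Cost.biUnion (S := S) (Finset.range N) (fun i => {f i}) (fun _ => d)
    (fun i hi => h i (Finset.mem_range.1 hi))
  refine h1.mono subset_rfl (by simp) ?_
  rintro g ⟨i, hi, rfl⟩
  simp only [Set.mem_iUnion, Finset.mem_range]
  exact ⟨i, hi, rfl⟩

lemma conv_cost {c : ℕ} (hc : ∀ (X : Type) (k : ℕ) (a b : ℕ → X → ℂ),
    Cost (seg (2 ^ k) a ∪ seg (2 ^ k) b) (c * 2 ^ k * (k + 1)) (seg (2 ^ k) (conv a b)))
    {S : Set (X → ℂ)} (k : ℕ) (a b : ℕ → X → ℂ) (ha : ∀ i < 2 ^ k, Av S (a i))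
    (hb : ∀ i < 2 ^ k, Av S (b i)) : Cost S (c * 2 ^ k * (k + 1)) (seg (2 ^ k) (conv a b)) := by
  have h0 : Cost S 0 (seg (2 ^ k) a ∪ seg (2 ^ k) b) := by
    apply Cost.free
    rintro f (⟨i, hi, rfl⟩ | ⟨i, hi, rfl⟩)
    · exact ha i hi
    · exact hb i hi
  have h1 := h0.trans ((hc X k a b).mono (S' := S ∪ (seg (2 ^ k) a ∪ seg (2 ^ k) b))
    Set.subset_union_right le_rfl subset_rfl)
  rwa [zero_add] at h1

/-! ### the matrices -/

/-- one division step -/
def Nm (F G : ℕ → ℂ) : Matrix (Fin 2) (Fin 2) ℂ[X] :=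
  !![0, Polynomial.X ^ 2; -1, C (F 0 / G 0) + C ((F 1 - F 0 / G 0 * G 1) / G 0) * Polynomial.X]

/-- the product of the first matrices -/
def Pm (F G : ℕ → ℂ) : ℕ → Matrix (Fin 2) (Fin 2) ℂ[X]
  | 0 => 1
  | k + 1 => Nm (eu F G k).1 (eu F G k).2 * Pm F G k

lemma eu_add (F G : ℕ → ℂ) (l m : ℕ) : eu F G (l + m) = eu (eu F G l).1 (eu F G l).2 m := by
  induction m with
  | zero => rfl
  | succ m ih =>
    have h1 : eu F G (l + (m + 1)) = ((eu F G (l + m)).2, nxt (eu F G (l + m)).1 (eu F G (l + m)).2) :=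
      rfl
    rw [h1, ih]
    rfl

lemma lc_add (F G : ℕ → ℂ) (l m : ℕ) : lc F G (l + m) = lc (eu F G l).1 (eu F G l).2 m := by
  unfold lc
  rw [eu_add]

lemma Pm_add (F G : ℕ → ℂ) (l m : ℕ) :
    Pm F G (l + m) = Pm (eu F G l).1 (eu F G l).2 m * Pm F G l := by
  induction m with
  | zero => simp [Pm]
  | succ m ih =>
    have h1 : Pm F G (l + (m + 1)) = Nm (eu F G (l + m)).1 (eu F G (l + m)).2 * Pm F G (l + m) := rfl
    rw [h1, ih, eu_add, ← Matrix.mul_assoc]
    rfl

lemma Nm_deg (F G : ℕ → ℂ) (r s : Fin 2) : (Nm F G r s).natDegree ≤ 2 := by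
  fin_cases r <;> fin_cases s <;> simp only [Nm]
  · simp
  · simp
  · simp
  · refine (Polynomial.natDegree_add_le _ _).trans (max_le (by simp) ?_)
    refine (Polynomial.natDegree_C_mul_le _ _).trans (by simp)

lemma Pm_deg (F G : ℕ → ℂ) (k : ℕ) : ∀ r s : Fin 2, (Pm F G k r s).natDegree ≤ 2 * k := by
  induction k with
  | zero =>
    intro r s
    simp only [Pm, Matrix.one_apply]
    split_ifs <;> simp
  | succ k ih =>
    intro r s
    have h1 : Pm F G (k + 1) r s = Nm (eu F G k).1 (eu F G k).2 r 0 * Pm F G k 0 s +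
        Nm (eu F G k).1 (eu F G k).2 r 1 * Pm F G k 1 s := by
      simp only [Pm, Matrix.mul_apply, Fin.sum_univ_two]
    rw [h1]
    refine (Polynomial.natDegree_add_le _ _).trans (max_le ?_ ?_)
    · refine (Polynomial.natDegree_mul_le).trans ?_
      have := Nm_deg (eu F G k).1 (eu F G k).2 r 0
      have := ih 0 s
      omega
    · refine (Polynomial.natDegree_mul_le).trans ?_
      have := Nm_deg (eu F G k).1 (eu F G k).2 r 1
      have := ih 1 s
      omega

open PowerSeries in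
lemma ps_step (F G : ℕ → ℂ) (h : G 0 ≠ 0) :
    (PowerSeries.X : PowerSeries ℂ) ^ 2 * PowerSeries.mk (nxt F G) =
      (PowerSeries.C (F 0 / G 0) + PowerSeries.C ((F 1 - F 0 / G 0 * G 1) / G 0) * PowerSeries.X) *
        PowerSeries.mk G - PowerSeries.mk F := by
  ext n
  rw [PowerSeries.coeff_X_pow_mul', map_sub, add_mul, map_add, PowerSeries.coeff_C_mul, mul_assoc,
    PowerSeries.coeff_C_mul, PowerSeries.coeff_mk, PowerSeries.coeff_mk]
  rcases n with _ | _ | n
  · simp only [PowerSeries.coeff_zero_X_mul, PowerSeries.coeff_mk]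
    rw [if_neg (by norm_num)]
    field_simp
    ring
  · rw [if_neg (by norm_num), PowerSeries.coeff_succ_X_mul]
    simp only [zero_add, PowerSeries.coeff_mk]
    field_simp
    ring
  · rw [if_pos (by omega), PowerSeries.coeff_succ_X_mul, PowerSeries.coeff_mk, PowerSeries.coeff_mk,
      show n + 1 + 1 - 2 = n by omega]
    rfl

lemma ps_all (F G : ℕ → ℂ) (l : ℕ) (h : ∀ k < l, lc F G k ≠ 0) :
    ((PowerSeries.X : PowerSeries ℂ) ^ (2 * l) * PowerSeries.mk (eu F G l).1 =
      (Pm F G l 0 0 : PowerSeries ℂ) * PowerSeries.mk F +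
        (Pm F G l 0 1 : PowerSeries ℂ) * PowerSeries.mk G) ∧
    ((PowerSeries.X : PowerSeries ℂ) ^ (2 * l) * PowerSeries.mk (eu F G l).2 =
      (Pm F G l 1 0 : PowerSeries ℂ) * PowerSeries.mk F +
        (Pm F G l 1 1 : PowerSeries ℂ) * PowerSeries.mk G) := by
  induction l with
  | zero => simp [Pm, eu]
  | succ l ih =>
    obtain ⟨h1, h2⟩ := ih (fun k hk => h k (by omega))
    have hl : (eu F G l).2 0 ≠ 0 := h l (by omega)
    have h3 := ps_step (eu F G l).1 (eu F G l).2 hl
    have e0 : ∀ s, Pm F G (l + 1) 0 s = Polynomial.X ^ 2 * Pm F G l 1 s := by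
      intro s
      simp only [Pm, Matrix.mul_apply, Fin.sum_univ_two, Nm]
      simp
    have e1 : ∀ s, Pm F G (l + 1) 1 s = -Pm F G l 0 s +
        (C ((eu F G l).1 0 / (eu F G l).2 0) + C (((eu F G l).1 1 - (eu F G l).1 0 / (eu F G l).2 0 *
          (eu F G l).2 1) / (eu F G l).2 0) * Polynomial.X) * Pm F G l 1 s := by
      intro s
      simp only [Pm, Matrix.mul_apply, Fin.sum_univ_two, Nm]
      simp
    have f1 : (eu F G (l + 1)).1 = (eu F G l).2 := rfl
    have f2 : (eu F G (l + 1)).2 = nxt (eu F G l).1 (eu F G l).2 := rfl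
    constructor
    · rw [f1, e0, e0]
      push_cast
      rw [show 2 * (l + 1) = 2 + 2 * l by ring, pow_add, mul_assoc, h2]
      ring
    · rw [f2, e1, e1]
      push_cast
      rw [show 2 * (l + 1) = 2 * l + 2 by ring, pow_add, mul_assoc, h3, mul_sub, h1]
      have h4 : ∀ q : PowerSeries ℂ, PowerSeries.X ^ (2 * l) * (q * PowerSeries.mk (eu F G l).2) =
          q * ((Pm F G l 1 0 : PowerSeries ℂ) * PowerSeries.mk F +
        (Pm F G l 1 1 : PowerSeries ℂ) * PowerSeries.mk G) := by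
        intro q
        rw [← h2]; ring
      rw [h4]
      ring

/-- coefficient of a product of a polynomial and a power series -/
lemma coeff_pmul (P : ℂ[X]) (F : ℕ → ℂ) (n : ℕ) :
    PowerSeries.coeff n ((P : PowerSeries ℂ) * PowerSeries.mk F) =
      ∑ t ∈ Finset.range (n + 1), P.coeff t * F (n - t) := by
  rw [PowerSeries.coeff_mul, Finset.Nat.sum_antidiagonal_eq_sum_range_succ_mk]
  simp

lemma coeff_eu (F G : ℕ → ℂ) (l : ℕ) (h : ∀ k < l, lc F G k ≠ 0) (i : ℕ) :
    (eu F G l).1 i = ∑ t ∈ Finset.range (2 * l + i + 1), (Pm F G l 0 0).coeff t * F (2 * l + i - t) +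
      ∑ t ∈ Finset.range (2 * l + i + 1), (Pm F G l 0 1).coeff t * G (2 * l + i - t) ∧
    (eu F G l).2 i = ∑ t ∈ Finset.range (2 * l + i + 1), (Pm F G l 1 0).coeff t * F (2 * l + i - t) +
      ∑ t ∈ Finset.range (2 * l + i + 1), (Pm F G l 1 1).coeff t * G (2 * l + i - t) := by
  obtain ⟨h1, h2⟩ := ps_all F G l h
  constructor
  · have := congrArg (PowerSeries.coeff (2 * l + i)) h1
    rw [map_add, coeff_pmul, coeff_pmul, PowerSeries.coeff_X_pow_mul', if_pos (by omega),
      PowerSeries.coeff_mk, show 2 * l + i - 2 * l = i by omega] at this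
    exact this
  · have := congrArg (PowerSeries.coeff (2 * l + i)) h2
    rw [map_add, coeff_pmul, coeff_pmul, PowerSeries.coeff_X_pow_mul', if_pos (by omega),
      PowerSeries.coeff_mk, show 2 * l + i - 2 * l = i by omega] at this
    exact this

/-! ### the recursion -/

/-- coefficients of the entries of the matrices -/
def pe (F G : ℕ → X → ℂ) (l : ℕ) (r s : Fin 2) : ℕ → X → ℂ :=
  fun i x => (Pm (fun i => F i x) (fun i => G i x) l r s).coeff i

def F1 (F G : ℕ → X → ℂ) (l : ℕ) : ℕ → X → ℂ :=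
  fun i x => (eu (fun i => F i x) (fun i => G i x) l).1 i

def G1 (F G : ℕ → X → ℂ) (l : ℕ) : ℕ → X → ℂ :=
  fun i x => (eu (fun i => F i x) (fun i => G i x) l).2 i

def lcf (F G : ℕ → X → ℂ) : ℕ → X → ℂ :=
  fun k x => lc (fun i => F i x) (fun i => G i x) k

/-- everything computed by the recursion -/
def Out (F G : ℕ → X → ℂ) (l : ℕ) : Set (X → ℂ) :=
  (⋃ r : Fin 2, ⋃ s : Fin 2, seg (4 * 2 ^ l) (pe F G (2 ^ l) r s)) ∪ seg (2 ^ l) (lcf F G)

lemma out_pe (F G : ℕ → X → ℂ) (l : ℕ) (r s : Fin 2) {S : Set (X → ℂ)} (h : Out F G l ⊆ S) (i : ℕ) :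
    Av S (pe F G (2 ^ l) r s i) := by
  by_cases hi : i < 4 * 2 ^ l
  · apply av_mem
    apply h
    left
    simp only [Set.mem_iUnion]
    exact ⟨r, s, seg_mem hi⟩
  · have h0 : pe F G (2 ^ l) r s i = fun _ => 0 := by
      funext x
      unfold pe
      apply Polynomial.coeff_eq_zero_of_natDegree_lt
      have := Pm_deg (fun i => F i x) (fun i => G i x) (2 ^ l) r s
      have : 0 < 2 ^ l := by positivity
      omega
    rw [h0]
    exact av_const const_zero

lemma base (F G : ℕ → X → ℂ) : Cost (seg (2 * 2 ^ 0) F ∪ seg (2 * 2 ^ 0) G) 4 (Out F G 0) := by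
  set S : Set (X → ℂ) := seg (2 * 2 ^ 0) F ∪ seg (2 * 2 ^ 0) G with hS
  have f0 : Av S (F 0) := av_mem (Or.inl (seg_mem (by norm_num)))
  have f1 : Av S (F 1) := av_mem (Or.inl (seg_mem (by norm_num)))
  have g0 : Av S (G 0) := av_mem (Or.inr (seg_mem (by norm_num)))
  have g1 : Av S (G 1) := av_mem (Or.inr (seg_mem (by norm_num)))
  set al : X → ℂ := fun x => F 0 x / G 0 x with hal
  set t1 : X → ℂ := fun x => al x * G 1 x with ht1
  set t2 : X → ℂ := fun x => F 1 x - t1 x with ht2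
  set be : X → ℂ := fun x => t2 x / G 0 x with hbe
  have c1 : Cost S 1 {al} := Cost.div f0.avail g0.avail
  have s1 : S ⊆ S ∪ {al} := Set.subset_union_left
  have c2 : Cost (S ∪ {al}) 1 {t1} := Cost.mul (av_mem (Or.inr rfl)).avail (g1.mono s1).avail
  have c12 := c1.comp c2
  have s2 : S ⊆ S ∪ ({al} ∪ {t1}) := Set.subset_union_left
  have c3 : Cost (S ∪ ({al} ∪ {t1})) 1 {t2} :=
    Cost.sub (f1.mono s2).avail (av_mem (Or.inr (Or.inr rfl))).avail
  have c123 := c12.comp c3
  have s3 : S ⊆ S ∪ ({al} ∪ {t1} ∪ {t2}) := Set.subset_union_left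
  have c4 : Cost (S ∪ ({al} ∪ {t1} ∪ {t2})) 1 {be} :=
    Cost.div (av_mem (Or.inr (Or.inr rfl))).avail (g0.mono s3).avail
  have c1234 := c123.comp c4
  set T : Set (X → ℂ) := {al} ∪ {t1} ∪ {t2} ∪ {be} with hT
  have hal' : Av (S ∪ T) al := av_mem (Or.inr (Or.inl (Or.inl (Or.inl rfl))))
  have hbe' : Av (S ∪ T) be := av_mem (Or.inr (Or.inr rfl))
  have c5 : Cost (S ∪ T) 0 (Out F G 0) := by
    apply Cost.free
    rintro f (hf | hf)
    · simp only [Set.mem_iUnion] at hf
      obtain ⟨r, s, i, hi, rfl⟩ := hf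
      have hP : ∀ x, Pm (fun i => F i x) (fun i => G i x) (2 ^ 0) =
          Nm (fun i => F i x) (fun i => G i x) := by
        intro x
        simp [Pm, eu]
      have key : pe F G (2 ^ 0) r s i = fun x => (Nm (fun i => F i x) (fun i => G i x) r s).coeff i := by
        funext x
        unfold pe
        rw [hP]
      rw [key]
      have z0 : Av (S ∪ T) (fun _ : X => (0 : ℂ)) := av_const const_zero
      have z1 : Av (S ∪ T) (fun _ : X => (1 : ℂ)) := av_const const_one
      have zm : Av (S ∪ T) (fun _ : X => (-1 : ℂ)) := av_const const_neg_one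
      fin_cases r <;> fin_cases s
      · simp [Nm]; exact z0
      · have : (fun x => (Nm (fun i => F i x) (fun i => G i x) 0 1).coeff i) =
            fun _ : X => if i = 2 then (1 : ℂ) else 0 := by
          funext x
          simp [Nm, Polynomial.coeff_X_pow]
        change Av (S ∪ T) (fun x => (Nm (fun i => F i x) (fun i => G i x) 0 1).coeff i)
        rw [this]
        split_ifs
        · exact z1
        · exact z0
      · have : (fun x => (Nm (fun i => F i x) (fun i => G i x) 1 0).coeff i) =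
            fun _ : X => if i = 0 then (-1 : ℂ) else 0 := by
          funext x
          simp only [Nm, Matrix.of_apply, Matrix.cons_val', Matrix.cons_val_zero,
            Matrix.cons_val_one, Matrix.cons_val_fin_one, Polynomial.coeff_neg, Polynomial.coeff_one]
          split_ifs <;> simp
        change Av (S ∪ T) (fun x => (Nm (fun i => F i x) (fun i => G i x) 1 0).coeff i)
        rw [this]
        split_ifs
        · exact zm
        · exact z0
      · have : (fun x => (Nm (fun i => F i x) (fun i => G i x) 1 1).coeff i) =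
            if i = 0 then al else if i = 1 then be else fun _ : X => (0 : ℂ) := by
          funext x
          simp only [Nm, Matrix.of_apply, Matrix.cons_val', Matrix.cons_val_zero,
            Matrix.cons_val_one, Matrix.cons_val_fin_one, Polynomial.coeff_add,
            Polynomial.coeff_C_mul, Polynomial.coeff_X, Polynomial.coeff_C]
          rcases i with _ | _ | i
          · simp [hal]
          · simp [hbe, ht2, ht1, hal]
          · simp
        change Av (S ∪ T) (fun x => (Nm (fun i => F i x) (fun i => G i x) 1 1).coeff i)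
        rw [this]
        split_ifs
        · exact hal'
        · exact hbe'
        · exact z0
    · obtain ⟨i, hi, rfl⟩ := hf
      have h0 : i = 0 := by simpa using hi
      subst h0
      exact (g0.mono Set.subset_union_left)
  have := c1234.trans c5
  exact this

lemma recur {c : ℕ} (hc : ∀ (X : Type) (k : ℕ) (a b : ℕ → X → ℂ),
    Cost (seg (2 ^ k) a ∪ seg (2 ^ k) b) (c * 2 ^ k * (k + 1)) (seg (2 ^ k) (conv a b)))
    (l : ℕ) : ∀ (F G : ℕ → X → ℂ), (∀ x, ∀ k < 2 ^ l, lcf F G k x ≠ 0) →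
    Cost (seg (2 * 2 ^ l) F ∪ seg (2 * 2 ^ l) G) ((60 * c + 20) * 2 ^ l * (l + 1) ^ 2)
      (Out F G l) := by
  induction l with
  | zero =>
    intro F G _
    exact (base F G).mono subset_rfl (by simp) subset_rfl
  | succ l ih =>
    intro F G hne
    have h2 : 2 ^ (l + 1) = 2 ^ l + 2 ^ l := by ring
    have hpos : 0 < 2 ^ l := by positivity
    set S : Set (X → ℂ) := seg (2 * 2 ^ (l + 1)) F ∪ seg (2 * 2 ^ (l + 1)) G with hS
    -- first recursive call
    have r1 := (ih F G (fun x k hk => hne x k (by omega))).mono (S' := S)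
      (Set.union_subset_union (seg_mono (by omega) _) (seg_mono (by omega) _)) le_rfl subset_rfl
    set O1 := Out F G l with hO1
    -- the four convolutions
    have fF : ∀ i < 2 ^ (l + 2), Av (S ∪ O1) (F i) := by
      intro i hi
      exact av_mem (Or.inl (Or.inl (seg_mem (by have : 2 ^ (l + 2) = 4 * 2 ^ l := by ring
                                                omega))))
    have fG : ∀ i < 2 ^ (l + 2), Av (S ∪ O1) (G i) := by
      intro i hi
      exact av_mem (Or.inl (Or.inr (seg_mem (by have : 2 ^ (l + 2) = 4 * 2 ^ l := by ring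
                                                omega))))
    have fp : ∀ r s i, Av (S ∪ O1) (pe F G (2 ^ l) r s i) := fun r s i =>
      out_pe F G l r s Set.subset_union_right i
    have d1 := conv_cost hc (S := S ∪ O1) (l + 2) (pe F G (2 ^ l) 0 0) F (fun i _ => fp 0 0 i) fF
    have d2 := conv_cost hc (S := S ∪ O1) (l + 2) (pe F G (2 ^ l) 0 1) G (fun i _ => fp 0 1 i) fG
    have d3 := conv_cost hc (S := S ∪ O1) (l + 2) (pe F G (2 ^ l) 1 0) F (fun i _ => fp 1 0 i) fF
    have d4 := conv_cost hc (S := S ∪ O1) (l + 2) (pe F G (2 ^ l) 1 1) G (fun i _ => fp 1 1 i) fG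
    have d := (d1.union d2).union (d3.union d4)
    set D := (seg (2 ^ (l + 2)) (conv (pe F G (2 ^ l) 0 0) F) ∪
      seg (2 ^ (l + 2)) (conv (pe F G (2 ^ l) 0 1) G)) ∪
      (seg (2 ^ (l + 2)) (conv (pe F G (2 ^ l) 1 0) F) ∪
      seg (2 ^ (l + 2)) (conv (pe F G (2 ^ l) 1 1) G)) with hD
    have h4 : 2 ^ (l + 2) = 4 * 2 ^ l := by ring
    have hlcx : ∀ x, ∀ k < 2 ^ l, lc (fun i => F i x) (fun i => G i x) k ≠ 0 :=
      fun x k hk => hne x k (by omega)
    have e1 : Cost D (2 * 2 ^ l * 1) (seg (2 * 2 ^ l) (F1 F G (2 ^ l))) := by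
      apply many
      intro i hi
      have a1 : Av D (conv (pe F G (2 ^ l) 0 0) F (2 * 2 ^ l + i)) :=
        av_mem (Or.inl (Or.inl (seg_mem (by omega))))
      have a2 : Av D (conv (pe F G (2 ^ l) 0 1) G (2 * 2 ^ l + i)) :=
        av_mem (Or.inl (Or.inr (seg_mem (by omega))))
      have := Cost.add a1.avail a2.avail
      have heq : (fun x => conv (pe F G (2 ^ l) 0 0) F (2 * 2 ^ l + i) x +
          conv (pe F G (2 ^ l) 0 1) G (2 * 2 ^ l + i) x) = F1 F G (2 ^ l) i := by
        funext x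
        exact ((coeff_eu (fun i => F i x) (fun i => G i x) (2 ^ l) (hlcx x) i).1).symm
      rw [heq] at this
      exact this
    have e2 : Cost D (2 * 2 ^ l * 1) (seg (2 * 2 ^ l) (G1 F G (2 ^ l))) := by
      apply many
      intro i hi
      have a1 : Av D (conv (pe F G (2 ^ l) 1 0) F (2 * 2 ^ l + i)) :=
        av_mem (Or.inr (Or.inl (seg_mem (by omega))))
      have a2 : Av D (conv (pe F G (2 ^ l) 1 1) G (2 * 2 ^ l + i)) :=
        av_mem (Or.inr (Or.inr (seg_mem (by omega))))
      have := Cost.add a1.avail a2.avail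
      have heq : (fun x => conv (pe F G (2 ^ l) 1 0) F (2 * 2 ^ l + i) x +
          conv (pe F G (2 ^ l) 1 1) G (2 * 2 ^ l + i) x) = G1 F G (2 ^ l) i := by
        funext x
        exact ((coeff_eu (fun i => F i x) (fun i => G i x) (2 ^ l) (hlcx x) i).2).symm
      rw [heq] at this
      exact this
    have e := e1.union e2
    set FG := seg (2 * 2 ^ l) (F1 F G (2 ^ l)) ∪ seg (2 * 2 ^ l) (G1 F G (2 ^ l)) with hFG
    -- second recursive call
    have hne2 : ∀ x, ∀ k < 2 ^ l, lcf (F1 F G (2 ^ l)) (G1 F G (2 ^ l)) k x ≠ 0 := by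
      intro x k hk
      have h5 : lcf (F1 F G (2 ^ l)) (G1 F G (2 ^ l)) k x = lcf F G (2 ^ l + k) x := by
        unfold lcf
        rw [lc_add]
        rfl
      rw [h5]
      exact hne x _ (by omega)
    have r2 := ih (F1 F G (2 ^ l)) (G1 F G (2 ^ l)) hne2
    set O2 := Out (F1 F G (2 ^ l)) (G1 F G (2 ^ l)) l with hO2
    -- O1 and O2 together
    have q1 : Cost (S ∪ O1) _ FG := d.trans (e.mono Set.subset_union_right le_rfl subset_rfl)
    have q2 : Cost (S ∪ O1) _ O2 := q1.trans (r2.mono Set.subset_union_right le_rfl subset_rfl)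
    have q3 : Cost S _ (O1 ∪ O2) := r1.comp q2
    -- the product
    have gp : ∀ r s i, Av (O1 ∪ O2) (pe F G (2 ^ l) r s i) := fun r s i =>
      out_pe F G l r s Set.subset_union_left i
    have gp' : ∀ r s i, Av (O1 ∪ O2) (pe (F1 F G (2 ^ l)) (G1 F G (2 ^ l)) (2 ^ l) r s i) :=
      fun r s i => out_pe _ _ l r s Set.subset_union_right i
    have h8 : 2 ^ (l + 3) = 4 * 2 ^ (l + 1) := by ring
    have k1 : ∀ r s : Fin 2, Cost (O1 ∪ O2) (2 * (c * 2 ^ (l + 3) * (l + 3 + 1)) + 4 * 2 ^ (l + 1) * 1)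
        (seg (4 * 2 ^ (l + 1)) (pe F G (2 ^ (l + 1)) r s)) := by
      intro r s
      have w0 := conv_cost hc (S := O1 ∪ O2) (l + 3)
        (pe (F1 F G (2 ^ l)) (G1 F G (2 ^ l)) (2 ^ l) r 0) (pe F G (2 ^ l) 0 s)
        (fun i _ => gp' r 0 i) (fun i _ => gp 0 s i)
      have w1 := conv_cost hc (S := O1 ∪ O2) (l + 3)
        (pe (F1 F G (2 ^ l)) (G1 F G (2 ^ l)) (2 ^ l) r 1) (pe F G (2 ^ l) 1 s)
        (fun i _ => gp' r 1 i) (fun i _ => gp 1 s i)
      have w := w0.union w1
      set Wd := seg (2 ^ (l + 3)) (conv (pe (F1 F G (2 ^ l)) (G1 F G (2 ^ l)) (2 ^ l) r 0)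
        (pe F G (2 ^ l) 0 s)) ∪ seg (2 ^ (l + 3)) (conv (pe (F1 F G (2 ^ l)) (G1 F G (2 ^ l))
          (2 ^ l) r 1) (pe F G (2 ^ l) 1 s)) with hWd
      have v : Cost Wd (4 * 2 ^ (l + 1) * 1) (seg (4 * 2 ^ (l + 1)) (pe F G (2 ^ (l + 1)) r s)) := by
        apply many
        intro i hi
        have a1 : Av Wd (conv (pe (F1 F G (2 ^ l)) (G1 F G (2 ^ l)) (2 ^ l) r 0)
            (pe F G (2 ^ l) 0 s) i) := av_mem (Or.inl (seg_mem (by omega)))
        have a2 : Av Wd (conv (pe (F1 F G (2 ^ l)) (G1 F G (2 ^ l)) (2 ^ l) r 1)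
            (pe F G (2 ^ l) 1 s) i) := av_mem (Or.inr (seg_mem (by omega)))
        have := Cost.add a1.avail a2.avail
        have heq : (fun x => conv (pe (F1 F G (2 ^ l)) (G1 F G (2 ^ l)) (2 ^ l) r 0)
            (pe F G (2 ^ l) 0 s) i x + conv (pe (F1 F G (2 ^ l)) (G1 F G (2 ^ l)) (2 ^ l) r 1)
            (pe F G (2 ^ l) 1 s) i x) = pe F G (2 ^ (l + 1)) r s i := by
          funext x
          unfold pe
          rw [h2, Pm_add, Matrix.mul_apply, Fin.sum_univ_two, Polynomial.coeff_add,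
            Polynomial.coeff_mul, Polynomial.coeff_mul,
            Finset.Nat.sum_antidiagonal_eq_sum_range_succ_mk,
            Finset.Nat.sum_antidiagonal_eq_sum_range_succ_mk]
          rfl
        rw [heq] at this
        exact this
      have u := w.trans (v.mono (S' := (O1 ∪ O2) ∪ Wd) Set.subset_union_right le_rfl subset_rfl)
      refine u.mono subset_rfl ?_ subset_rfl
      ring_nf
      exact le_rfl
    have k2 := ((k1 0 0).union (k1 0 1)).union ((k1 1 0).union (k1 1 1))
    have k3 : Cost (O1 ∪ O2) 0 (seg (2 ^ (l + 1)) (lcf F G)) := by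
      apply Cost.free
      rintro f ⟨i, hi, rfl⟩
      left
      by_cases h : i < 2 ^ l
      · exact Or.inl (Or.inr (seg_mem h))
      · right
        right
        refine ⟨i - 2 ^ l, by omega, ?_⟩
        funext x
        unfold lcf
        have : i = 2 ^ l + (i - 2 ^ l) := by omega
        conv_lhs => rw [this, lc_add]
        rfl
    have k4 := k2.union k3
    have k5 : Cost (O1 ∪ O2) _ (Out F G (l + 1)) := k4.mono subset_rfl le_rfl (by
      rintro f (hf | hf)
      · left
        simp only [Set.mem_iUnion] at hf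
        obtain ⟨r, s, hf⟩ := hf
        fin_cases r <;> fin_cases s
        · exact Or.inl (Or.inl hf)
        · exact Or.inl (Or.inr hf)
        · exact Or.inr (Or.inl hf)
        · exact Or.inr (Or.inr hf)
      · exact Or.inr hf)
    have fin := q3.trans (k5.mono (S' := S ∪ (O1 ∪ O2)) Set.subset_union_right le_rfl subset_rfl)
    refine fin.mono subset_rfl ?_ subset_rfl
    -- arithmetic
    have p2 : 2 ^ (l + 2) = 4 * 2 ^ l := by ring
    have p3 : 2 ^ (l + 3) = 8 * 2 ^ l := by ring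
    have p1 : 2 ^ (l + 1) = 2 * 2 ^ l := by ring
    rw [p2, p3, p1]
    generalize 2 ^ l = N at *
    nlinarith [Nat.zero_le (c * N), Nat.zero_le (c * N * l), Nat.zero_le (N * l), Nat.zero_le N]

theorem main : S_C1 → S_C4 := by
  rintro ⟨c, hc⟩
  refine ⟨60 * c + 20, ?_⟩
  intro X j F G hne
  exact (recur hc j F G hne).mono subset_rfl le_rfl Set.subset_union_right

end Pool.Agent.H22.NL.C4
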