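import Pool.Agent.H22.NL.Stm

set_option autoImplicit false
open scoped BigOperators Polynomial
open Polynomial

/-!
# Project NL, part G1: crossing parameters (ported from the library, modules
`Pool.Graph.R_seed8.Helper693.Tri.TG2`, `TG3`, `Search`)
-/

noncomputable section
namespace Pool.Agent.H22.NL.G1

/-- the operator `X ↦ R X - X L` for the two complementary blocks `L = [0,k)`, `R = [k,n)` -/
def syl (a : ℕ → ℕ → ℂ) (n k : ℕ) (z : ℂ) :
    Matrix (Fin (n - k) × Fin k) (Fin (n - k) × Fin k) ℂ :=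
  Matrix.kronecker (blk (pert a z) k (n - k)) (1 : Matrix (Fin k) (Fin k) ℂ)
    - Matrix.kronecker (1 : Matrix (Fin (n - k)) (Fin (n - k)) ℂ) (blk (pert a z) 0 k)

theorem TG2_nrm {ι : Type} [Fintype ι] (v : ι → ℂ) :
    ((∑ r, ‖v r‖ ^ 2 : ℝ) : ℂ) = star v ⬝ᵥ v := by
  unfold dotProduct
  push_cast
  apply Finset.sum_congr rfl
  intro r _
  simp only [Pi.star_apply]
  rw [Complex.star_def, Complex.conj_mul']

theorem TG2_unit {ι : Type} [Fintype ι] [DecidableEq ι] (U : Matrix ι ι ℂ)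
    (hU : U.conjTranspose * U = 1) (v : ι → ℂ) :
    ∑ r, ‖U.mulVec v r‖ ^ 2 = ∑ r, ‖v r‖ ^ 2 := by
  have h : ((∑ r, ‖U.mulVec v r‖ ^ 2 : ℝ) : ℂ) = ((∑ r, ‖v r‖ ^ 2 : ℝ) : ℂ) := by
    rw [TG2_nrm, TG2_nrm, Matrix.star_mulVec, ← Matrix.dotProduct_mulVec, Matrix.mulVec_mulVec, hU,
      Matrix.one_mulVec]
  exact_mod_cast h

theorem TG2_gen {ι : Type} [Fintype ι] [DecidableEq ι] (S0 : Matrix ι ι ℂ) (hS : S0.IsHermitian)
    (d : ι → ℝ) (hd : ∀ r, 1 ≤ d r) :
    ∃ τ : ι → ℝ, ∃ c : ℝ, 0 < c ∧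
      (∀ t y : ℝ, ‖(S0 + Matrix.diagonal (fun r => ((t : ℂ) + y * Complex.I) * (d r : ℂ))).det‖ ^ 2
        = c * ∏ r, ((t - τ r) ^ 2 + y ^ 2)) ∧
      (∀ t y : ℝ, 0 ≤ y → (∀ r, y ≤ |t - τ r|) → ∀ x : ι → ℂ,
        y ^ 2 * ∑ r, ‖x r‖ ^ 2 ≤
          ∑ r, ‖(S0 + Matrix.diagonal (fun r => (t : ℂ) * (d r : ℂ))).mulVec x r‖ ^ 2) := by
  set w : ι → ℝ := fun r => Real.sqrt (d r) with hw
  have hd0 : ∀ r, 0 < d r := fun r => lt_of_lt_of_le zero_lt_one (hd r)
  have hw0 : ∀ r, 0 < w r := fun r => Real.sqrt_pos.mpr (hd0 r)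
  have hww : ∀ r, w r * w r = d r := fun r => Real.mul_self_sqrt (hd0 r).le
  have hwc : ∀ r, (w r : ℂ) ≠ 0 := fun r => by exact_mod_cast (hw0 r).ne'
  set W : Matrix ι ι ℂ := Matrix.diagonal (fun r => (w r : ℂ)) with hW
  set V : Matrix ι ι ℂ := Matrix.diagonal (fun r => ((w r)⁻¹ : ℂ)) with hV
  have hWV : W * V = 1 := by
    rw [hW, hV, Matrix.diagonal_mul_diagonal, ← Matrix.diagonal_one]
    congr 1
    funext r
    exact mul_inv_cancel₀ (hwc r)
  have hVW : V * W = 1 := by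
    rw [hW, hV, Matrix.diagonal_mul_diagonal, ← Matrix.diagonal_one]
    congr 1
    funext r
    exact inv_mul_cancel₀ (hwc r)
  have hVh : V.conjTranspose = V := by
    rw [hV, Matrix.diagonal_conjTranspose]
    congr 1
    funext r
    simp only [Pi.star_apply]
    rw [Complex.star_def, map_inv₀, Complex.conj_ofReal]
  set H : Matrix ι ι ℂ := V * S0 * V with hH
  have hHh : H.IsHermitian := by
    unfold Matrix.IsHermitian
    rw [hH, Matrix.conjTranspose_mul, Matrix.conjTranspose_mul, hVh, hS.eq, Matrix.mul_assoc]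
  have hS0 : S0 = W * H * W := by
    rw [hH]
    calc S0 = (W * V) * S0 * (V * W) := by rw [hWV, hVW, Matrix.one_mul, Matrix.mul_one]
      _ = W * (V * S0 * V) * W := by simp only [Matrix.mul_assoc]
  set e : ι → ℝ := hHh.eigenvalues with he
  set U : Matrix ι ι ℂ := (hHh.eigenvectorUnitary : Matrix ι ι ℂ) with hU
  have hUU : U.conjTranspose * U = 1 := by
    have := (Matrix.mem_unitaryGroup_iff').mp hHh.eigenvectorUnitary.2
    rw [Matrix.star_eq_conjTranspose] at this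
    exact this
  have hUU' : U * U.conjTranspose = 1 := by
    have := (Matrix.mem_unitaryGroup_iff).mp hHh.eigenvectorUnitary.2
    rw [Matrix.star_eq_conjTranspose] at this
    exact this
  have hspec : H = U * Matrix.diagonal (fun r => (e r : ℂ)) * U.conjTranspose := by
    have := hHh.spectral_theorem
    rw [Unitary.conjStarAlgAut_apply] at this
    exact this
  have hSz : ∀ z : ℂ, S0 + Matrix.diagonal (fun r => z * (d r : ℂ)) =
      W * (U * Matrix.diagonal (fun r => (e r : ℂ) + z) * U.conjTranspose) * W := by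
    intro z
    have h1 : Matrix.diagonal (fun r => z * (d r : ℂ)) = W * (z • (1 : Matrix ι ι ℂ)) * W := by
      rw [Matrix.mul_smul, Matrix.mul_one, Matrix.smul_mul, hW, Matrix.diagonal_mul_diagonal]
      ext a b
      by_cases hab : a = b
      · subst hab
        simp only [Matrix.diagonal_apply_eq, Matrix.smul_apply, smul_eq_mul]
        rw [← Complex.ofReal_mul, hww]
      · simp [Matrix.diagonal_apply_ne _ hab]
    have h2 : U * Matrix.diagonal (fun r => (e r : ℂ) + z) * U.conjTranspose =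
        H + z • (1 : Matrix ι ι ℂ) := by
      have h3 : Matrix.diagonal (fun r => (e r : ℂ) + z) =
          Matrix.diagonal (fun r => (e r : ℂ)) + z • (1 : Matrix ι ι ℂ) := by
        rw [Matrix.smul_one_eq_diagonal, Matrix.diagonal_add]
      rw [h3, Matrix.mul_add, Matrix.add_mul, ← hspec, Matrix.mul_smul, Matrix.mul_one,
        Matrix.smul_mul, hUU']
    rw [h1, h2, Matrix.mul_add, Matrix.add_mul, ← hS0]
  have hdet : ∀ z : ℂ, (S0 + Matrix.diagonal (fun r => z * (d r : ℂ))).det =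
      (∏ r, (d r : ℂ)) * ∏ r, ((e r : ℂ) + z) := by
    intro z
    rw [hSz z, Matrix.det_mul, Matrix.det_mul, Matrix.det_mul, Matrix.det_mul, hW,
      Matrix.det_diagonal, Matrix.det_diagonal]
    have h1 : U.det * U.conjTranspose.det = 1 := by
      rw [← Matrix.det_mul, hUU', Matrix.det_one]
    have h2 : (∏ r, (w r : ℂ)) * (∏ r, (w r : ℂ)) = ∏ r, (d r : ℂ) := by
      rw [← Finset.prod_mul_distrib]
      apply Finset.prod_congr rfl
      intro r _
      rw [← Complex.ofReal_mul, hww]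
    calc (∏ r, (w r : ℂ)) * (U.det * (∏ r, ((e r : ℂ) + z)) * U.conjTranspose.det) *
          (∏ r, (w r : ℂ)) = ((∏ r, (w r : ℂ)) * (∏ r, (w r : ℂ))) * (∏ r, ((e r : ℂ) + z)) *
          (U.det * U.conjTranspose.det) := by ring
      _ = _ := by rw [h1, h2, mul_one]
  refine ⟨fun r => - e r, (∏ r, d r) ^ 2, ?_, ?_, ?_⟩
  · exact pow_pos (Finset.prod_pos (fun r _ => hd0 r)) 2
  · intro t y
    rw [hdet, norm_mul, mul_pow, ← Complex.ofReal_prod, Complex.norm_real, Real.norm_eq_abs, sq_abs,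
      norm_prod]
    congr 1
    rw [← Finset.prod_pow]
    apply Finset.prod_congr rfl
    intro r _
    have h1 : (e r : ℂ) + ((t : ℂ) + y * Complex.I) = (((e r + t : ℝ)) : ℂ) + (y : ℂ) * Complex.I := by
      push_cast; ring
    rw [h1, Complex.sq_norm, Complex.normSq_add_mul_I]
    ring
  · intro t y hy hty x
    rw [hSz]
    set x' : ι → ℂ := W.mulVec x with hx'
    have hx'r : ∀ r, x' r = (w r : ℂ) * x r := by
      intro r
      rw [hx', hW, Matrix.mulVec_diagonal]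
    set v : ι → ℂ := U.conjTranspose.mulVec x' with hv
    have h1 : (W * (U * Matrix.diagonal (fun r => (e r : ℂ) + (t : ℂ)) * U.conjTranspose) * W).mulVec x =
        W.mulVec (U.mulVec ((Matrix.diagonal (fun r => (e r : ℂ) + (t : ℂ))).mulVec v)) := by
      rw [hv, hx']
      simp only [Matrix.mulVec_mulVec, Matrix.mul_assoc]
    rw [h1]
    set q : ι → ℂ := (Matrix.diagonal (fun r => (e r : ℂ) + (t : ℂ))).mulVec v with hq
    have hqr : ∀ r, q r = ((e r : ℂ) + t) * v r := by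
      intro r
      rw [hq, Matrix.mulVec_diagonal]
    have h2 : ∑ r, ‖U.mulVec q r‖ ^ 2 ≤ ∑ r, ‖W.mulVec (U.mulVec q) r‖ ^ 2 := by
      apply Finset.sum_le_sum
      intro r _
      rw [hW, Matrix.mulVec_diagonal, norm_mul, mul_pow, Complex.norm_real, Real.norm_eq_abs, sq_abs,
        pow_two (w r), hww]
      nlinarith [hd r, sq_nonneg ‖U.mulVec q r‖]
    have h3 : ∑ r, ‖U.mulVec q r‖ ^ 2 = ∑ r, ‖q r‖ ^ 2 := TG2_unit U hUU q
    have h4 : y ^ 2 * ∑ r, ‖v r‖ ^ 2 ≤ ∑ r, ‖q r‖ ^ 2 := by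
      rw [Finset.mul_sum]
      apply Finset.sum_le_sum
      intro r _
      rw [hqr, norm_mul, mul_pow]
      apply mul_le_mul_of_nonneg_right _ (sq_nonneg _)
      have h5 : ‖(e r : ℂ) + t‖ = |t - (- e r)| := by
        rw [← Complex.ofReal_add, Complex.norm_real, Real.norm_eq_abs]
        congr 1
        ring
      rw [h5]
      exact pow_le_pow_left₀ hy (hty r) 2
    have h6 : ∑ r, ‖v r‖ ^ 2 = ∑ r, ‖x' r‖ ^ 2 := by
      rw [hv]
      apply TG2_unit
      rw [Matrix.conjTranspose_conjTranspose, hUU']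
    have h7 : ∑ r, ‖x r‖ ^ 2 ≤ ∑ r, ‖x' r‖ ^ 2 := by
      apply Finset.sum_le_sum
      intro r _
      rw [hx'r, norm_mul, mul_pow, Complex.norm_real, Real.norm_eq_abs, sq_abs, pow_two (w r), hww]
      nlinarith [hd r, sq_nonneg ‖x r‖]
    calc y ^ 2 * ∑ r, ‖x r‖ ^ 2 ≤ y ^ 2 * ∑ r, ‖x' r‖ ^ 2 :=
          mul_le_mul_of_nonneg_left h7 (sq_nonneg _)
      _ = y ^ 2 * ∑ r, ‖v r‖ ^ 2 := by rw [h6]
      _ ≤ ∑ r, ‖q r‖ ^ 2 := h4
      _ = ∑ r, ‖U.mulVec q r‖ ^ 2 := h3.symm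
      _ ≤ _ := h2

theorem TG2_entry (a : ℕ → ℕ → ℂ) (n k : ℕ) (z : ℂ) (j j' : Fin (n - k)) (i i' : Fin k) :
    syl a n k z (j, i) (j', i') =
      pert a z (k + j) (k + j') * (1 : Matrix (Fin k) (Fin k) ℂ) i i' -
        (1 : Matrix (Fin (n - k)) (Fin (n - k)) ℂ) j j' * pert a z (0 + i) (0 + i') := rfl

theorem syl_roots (a : ℕ → ℕ → ℂ) (ha : HT a) (n k : ℕ) :
    ∃ τ : Fin (n - k) × Fin k → ℝ, ∃ c : ℝ, 0 < c ∧
      (∀ t y : ℝ, ‖(syl a n k ((t : ℂ) + y * Complex.I)).det‖ ^ 2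
        = c * ∏ r, ((t - τ r) ^ 2 + y ^ 2)) ∧
      (∀ t y : ℝ, 0 ≤ y → (∀ r, y ≤ |t - τ r|) → ∀ x : Fin (n - k) × Fin k → ℂ,
        y ^ 2 * ∑ r, ‖x r‖ ^ 2 ≤ ∑ r, ‖(syl a n k (t : ℂ)).mulVec x r‖ ^ 2) := by
  have hsyl : ∀ z : ℂ, syl a n k z = syl a n k 0 + Matrix.diagonal (fun r : Fin (n - k) × Fin k =>
      z * (((k : ℝ) + (r.1 : ℕ) - (r.2 : ℕ) : ℝ) : ℂ)) := by
    intro z
    ext ⟨j, i⟩ ⟨j', i'⟩
    rw [Matrix.add_apply, TG2_entry, TG2_entry]
    simp only [pert]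
    by_cases hj : j = j'
    · by_cases hi : i = i'
      · subst hj; subst hi
        simp
        ring
      · subst hj
        have hne : ((j, i) : Fin (n - k) × Fin k) ≠ (j, i') := by
          intro h; exact hi (Prod.mk.inj h).2
        have hi' : ¬ ((i : ℕ) = (i' : ℕ)) := fun h => hi (Fin.ext h)
        rw [Matrix.diagonal_apply_ne _ hne]
        simp [hi, hi']
    · have hne : ((j, i) : Fin (n - k) × Fin k) ≠ (j', i') := by
          intro h; exact hj (Prod.mk.inj h).1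
      have hj' : ¬ ((j : ℕ) = (j' : ℕ)) := fun h => hj (Fin.ext h)
      rw [Matrix.diagonal_apply_ne _ hne]
      simp [hj, hj']
  have hherm : (syl a n k 0).IsHermitian := by
    unfold Matrix.IsHermitian
    ext ⟨j, i⟩ ⟨j', i'⟩
    rw [Matrix.conjTranspose_apply, TG2_entry, TG2_entry]
    simp only [pert, zero_mul, ite_self, add_zero]
    have h1 : ∀ p q : ℕ, star (a p q) = a q p := by
      intro p q
      rw [ha.herm p q]; rfl
    rw [star_sub, star_mul', star_mul', h1, h1]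
    congr 1
    · congr 1
      by_cases hi : i = i'
      · subst hi; simp
      · have : i' ≠ i := fun h => hi h.symm
        simp [hi, this]
    · congr 1
      by_cases hj : j = j'
      · subst hj; simp
      · have : j' ≠ j := fun h => hj h.symm
        simp [hj, this]
  obtain ⟨τ, c, hc, h1, h2⟩ := TG2_gen (syl a n k 0) hherm
    (fun r : Fin (n - k) × Fin k => (k : ℝ) + (r.1 : ℕ) - (r.2 : ℕ)) (by
      intro r
      have h3 : ((r.2 : ℕ) : ℝ) + 1 ≤ k := by exact_mod_cast r.2.2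
      have h4 : (0 : ℝ) ≤ ((r.1 : ℕ) : ℝ) := Nat.cast_nonneg _
      linarith)
  refine ⟨τ, c, hc, ?_, ?_⟩
  · intro t y
    rw [hsyl]
    exact h1 t y
  · intro t y hy hty x
    rw [hsyl]
    exact h2 t y hy hty x

/-- energy of the block -/
def enB (a : ℕ → ℕ → ℂ) (c : ℝ) (s k : ℕ) (V : ℕ → ℂ) : ℝ :=
  ∑ i ∈ Finset.range k, ‖(∑ j ∈ Finset.range k, a (s + i) (s + j) * V (s + j)) - (c : ℂ) * V (s + i)‖ ^ 2

/-- norm of the block -/
def nmB (s k : ℕ) (V : ℕ → ℂ) : ℝ := ∑ i ∈ Finset.range k, ‖V (s + i)‖ ^ 2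

theorem enB_nonneg (a : ℕ → ℕ → ℂ) (c : ℝ) (s k : ℕ) (V : ℕ → ℂ) : 0 ≤ enB a c s k V :=
  Finset.sum_nonneg fun _ _ => by positivity

theorem nmB_nonneg (s k : ℕ) (V : ℕ → ℂ) : 0 ≤ nmB s k V :=
  Finset.sum_nonneg fun _ _ => by positivity

/-- approximate eigenvector in the block -/
def appr (a : ℕ → ℕ → ℂ) (c r : ℝ) (s k : ℕ) : Prop :=
  ∃ V : ℕ → ℂ, (∃ i < k, V (s + i) ≠ 0) ∧ enB a c s k V ≤ r ^ 2 * nmB s k V

theorem appr_conv (a : ℕ → ℕ → ℂ) (c r : ℝ) (s k : ℕ) (h : appr a c r s k) :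
    ∃ u : Fin k → ℂ, u ≠ 0 ∧
      ∑ t, ‖(blk a s k).mulVec u t - (c : ℂ) * u t‖ ^ 2 ≤ r ^ 2 * ∑ t, ‖u t‖ ^ 2 := by
  obtain ⟨V, ⟨i, hi, hV⟩, hE⟩ := h
  refine ⟨fun t => V (s + t), ?_, ?_⟩
  · intro h0
    exact hV (congrFun h0 ⟨i, hi⟩)
  · have h1 : ∀ t : Fin k, (blk a s k).mulVec (fun t : Fin k => V (s + t)) t =
        ∑ j ∈ Finset.range k, a (s + t) (s + j) * V (s + j) := by
      intro t
      rw [← Fin.sum_univ_eq_sum_range (fun j => a (s + t) (s + j) * V (s + j)) k]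
      rfl
    simp only [h1]
    rw [Fin.sum_univ_eq_sum_range (fun t => ‖(∑ j ∈ Finset.range k, a (s + t) (s + j) * V (s + j)) -
      (c : ℂ) * V (s + t)‖ ^ 2) k, Fin.sum_univ_eq_sum_range (fun t => ‖V (s + t)‖ ^ 2) k]
    exact hE

/-- splitting of the energy at a zero of the vector -/
theorem split_energy (a : ℕ → ℕ → ℂ) (ha : HT a) (c : ℝ) (n p : ℕ) (hp : p < n) (V : ℕ → ℂ)
    (hV : V p = 0) : enB a c 0 p V + enB a c (p + 1) (n - (p + 1)) V ≤ enB a c 0 n V := by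
  obtain ⟨m, rfl⟩ : ∃ m, n = p + 1 + m := ⟨n - (p + 1), by omega⟩
  have hm : p + 1 + m - (p + 1) = m := by omega
  rw [hm]
  have hlow : ∀ i j, j + 1 < i → a i j = 0 := by
    intro i j hij
    rw [ha.herm j i, ha.tri j i hij, map_zero]
  unfold enB
  rw [Finset.sum_range_add _ (p + 1) m, Finset.sum_range_succ _ p]
  have h1 : ∀ i ∈ Finset.range p,
      ∑ j ∈ Finset.range (p + 1 + m), a (0 + i) (0 + j) * V (0 + j) =
      ∑ j ∈ Finset.range p, a (0 + i) (0 + j) * V (0 + j) := by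
    intro i hi
    rw [Finset.mem_range] at hi
    rw [Finset.sum_range_add _ (p + 1) m, Finset.sum_range_succ _ p]
    have h2 : ∑ x ∈ Finset.range m, a (0 + i) (0 + (p + 1 + x)) * V (0 + (p + 1 + x)) = 0 := by
      apply Finset.sum_eq_zero
      intro x _
      rw [ha.tri _ _ (by omega), zero_mul]
    rw [h2, zero_add p, hV, mul_zero, add_zero, add_zero]
  have h3 : ∀ i ∈ Finset.range m,
      ∑ j ∈ Finset.range (p + 1 + m), a (0 + (p + 1 + i)) (0 + j) * V (0 + j) =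
      ∑ j ∈ Finset.range m, a (p + 1 + i) (p + 1 + j) * V (p + 1 + j) := by
    intro i _
    rw [Finset.sum_range_add _ (p + 1) m, Finset.sum_range_succ _ p]
    have h2 : ∑ x ∈ Finset.range p, a (0 + (p + 1 + i)) (0 + x) * V (0 + x) = 0 := by
      apply Finset.sum_eq_zero
      intro x hx
      rw [Finset.mem_range] at hx
      rw [hlow _ _ (by omega), zero_mul]
    rw [h2, zero_add p, hV, mul_zero, add_zero, zero_add]
    simp only [zero_add]
  have e1 : ∑ i ∈ Finset.range p, ‖(∑ j ∈ Finset.range (p + 1 + m), a (0 + i) (0 + j) * V (0 + j)) -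
      (c : ℂ) * V (0 + i)‖ ^ 2 = ∑ i ∈ Finset.range p, ‖(∑ j ∈ Finset.range p, a (0 + i) (0 + j) * V (0 + j)) -
      (c : ℂ) * V (0 + i)‖ ^ 2 := by
    apply Finset.sum_congr rfl
    intro i hi
    rw [h1 i hi]
  have e2 : ∑ i ∈ Finset.range m, ‖(∑ j ∈ Finset.range (p + 1 + m), a (0 + (p + 1 + i)) (0 + j) * V (0 + j)) -
      (c : ℂ) * V (0 + (p + 1 + i))‖ ^ 2 = ∑ i ∈ Finset.range m, ‖(∑ j ∈ Finset.range m,
      a (p + 1 + i) (p + 1 + j) * V (p + 1 + j)) - (c : ℂ) * V (p + 1 + i)‖ ^ 2 := by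
    apply Finset.sum_congr rfl
    intro i hi
    rw [h3 i hi, zero_add (p + 1 + i)]
  rw [e1, e2]
  have h4 : 0 ≤ ‖(∑ j ∈ Finset.range (p + 1 + m), a (0 + p) (0 + j) * V (0 + j)) -
      (c : ℂ) * V (0 + p)‖ ^ 2 := by positivity
  linarith

theorem split_norm (n p : ℕ) (hp : p < n) (V : ℕ → ℂ)
    (hV : V p = 0) : nmB 0 n V = nmB 0 p V + nmB (p + 1) (n - (p + 1)) V := by
  obtain ⟨m, rfl⟩ : ∃ m, n = p + 1 + m := ⟨n - (p + 1), by omega⟩
  have hm : p + 1 + m - (p + 1) = m := by omega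
  rw [hm]
  unfold nmB
  rw [Finset.sum_range_add _ (p + 1) m, Finset.sum_range_succ _ p]
  simp only [zero_add, hV, norm_zero]
  ring

theorem nmB_zero {s k : ℕ} {V : ℕ → ℂ} (h : ∀ i < k, V (s + i) = 0) : nmB s k V = 0 := by
  unfold nmB
  apply Finset.sum_eq_zero
  intro i hi
  rw [h i (Finset.mem_range.mp hi), norm_zero]
  norm_num

/-- the dichotomy -/
theorem dicho (a : ℕ → ℕ → ℂ) (ha : HT a) (c r : ℝ) (n p : ℕ) (hp : p < n) (V : ℕ → ℂ)
    (hV : V p = 0) (hne : ∃ i < n, V i ≠ 0) (hE : enB a c 0 n V ≤ r ^ 2 * nmB 0 n V) :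
    appr a c r 0 p ∨ appr a c r (p + 1) (n - (p + 1)) := by
  have h1 := split_energy a ha c n p hp V hV
  have h2 := split_norm n p hp V hV
  have hEL := enB_nonneg a c 0 p V
  have hER := enB_nonneg a c (p + 1) (n - (p + 1)) V
  rw [h2, mul_add] at hE
  by_contra hcon
  rw [not_or] at hcon
  obtain ⟨hL, hR⟩ := hcon
  by_cases h3 : ∃ i < p, V (0 + i) ≠ 0
  · have h4 : r ^ 2 * nmB 0 p V < enB a c 0 p V := by
      by_contra h5
      exact hL ⟨V, h3, not_lt.mp h5⟩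
    have h5 : enB a c (p + 1) (n - (p + 1)) V < r ^ 2 * nmB (p + 1) (n - (p + 1)) V := by linarith
    apply hR
    refine ⟨V, ?_, h5.le⟩
    by_contra h6
    push Not at h6
    rw [nmB_zero h6, mul_zero] at h5
    linarith
  · push Not at h3
    have h4 := nmB_zero h3
    rw [h4, mul_zero, zero_add] at hE
    apply hR
    refine ⟨V, ?_, by linarith⟩
    obtain ⟨i, hi, hVi⟩ := hne
    have h5 : ¬ i < p := by
      intro h6
      have := h3 i h6
      rw [zero_add] at this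
      exact hVi this
    have h6 : i ≠ p := by
      rintro rfl
      exact hVi hV
    refine ⟨i - (p + 1), by omega, ?_⟩
    rw [show p + 1 + (i - (p + 1)) = i by omega]
    exact hVi

theorem cut_abs (a : ℕ → ℕ → ℂ) (c r : ℝ) (n : ℕ) (hn : 1 ≤ n)
    (h : ∀ p < n, appr a c r 0 p ∨ appr a c r (p + 1) (n - (p + 1))) :
    ∃ k, 1 ≤ k ∧ k < n ∧ appr a c r 0 k ∧ appr a c r k (n - k) := by
  classical
  have hz : ∀ s, ¬ appr a c r s 0 := by
    rintro s ⟨V, ⟨i, hi, _⟩, _⟩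
    omega
  have hex : ∃ k, appr a c r 0 k ∧ k < n := by
    refine ⟨n - 1, ?_, by omega⟩
    rcases h (n - 1) (by omega) with h1 | h1
    · exact h1
    · exfalso
      rw [show n - (n - 1 + 1) = 0 by omega] at h1
      exact hz _ h1
  obtain ⟨h1, h2⟩ := Nat.find_spec hex
  set k := Nat.find hex with hk
  have hk1 : 1 ≤ k := by
    by_contra h3
    have h4 : k = 0 := by omega
    rw [h4] at h1
    exact hz _ h1
  refine ⟨k, hk1, h2, h1, ?_⟩
  rcases h (k - 1) (by omega) with h3 | h3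
  · exact absurd ⟨h3, by omega⟩ (Nat.find_min hex (m := k - 1) (by omega))
  · rwa [show k - 1 + 1 = k by omega] at h3

/-- cut lemma: two close eigenvalues give a cut such that both blocks have an approximate
eigenvector -/
theorem cut_lemma (a : ℕ → ℕ → ℂ) (ha : HT a) (n : ℕ) (hA : (blk a 0 n).IsHermitian)
    (i j : Fin n) (hij : i ≠ j) (r : ℝ) (hr : |hA.eigenvalues i - hA.eigenvalues j| = 2 * r) :
    ∃ k, 1 ≤ k ∧ k < n ∧ ∃ c : ℝ, ∃ u : Fin k → ℂ, ∃ w : Fin (n - k) → ℂ, u ≠ 0 ∧ w ≠ 0 ∧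
      ∑ s, ‖(blk a 0 k).mulVec u s - (c : ℂ) * u s‖ ^ 2 ≤ r ^ 2 * ∑ s, ‖u s‖ ^ 2 ∧
      ∑ s, ‖(blk a k (n - k)).mulVec w s - (c : ℂ) * w s‖ ^ 2 ≤ r ^ 2 * ∑ s, ‖w s‖ ^ 2 := by
  classical
  set lam := hA.eigenvalues i with hlam
  set mu := hA.eigenvalues j with hmu
  set c : ℝ := (lam + mu) / 2 with hc
  set δ : ℝ := (lam - mu) / 2 with hδ
  have hδr : δ ^ 2 = r ^ 2 := by
    have h1 : |lam - mu| ^ 2 = (2 * r) ^ 2 := by rw [hr]
    rw [sq_abs] at h1
    rw [hδ]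
    linarith
  set v1 := hA.eigenvectorBasis i with hv1
  set v2 := hA.eigenvectorBasis j with hv2
  have hon := hA.eigenvectorBasis.orthonormal
  have hn1 : ‖v1‖ = 1 := hon.1 i
  have hn2 : ‖v2‖ = 1 := hon.1 j
  have horth : inner ℂ v1 v2 = 0 := hon.2 hij
  have hnorm : ∀ α β : ℂ, ‖α • v1 + β • v2‖ ^ 2 = ‖α‖ ^ 2 + ‖β‖ ^ 2 := by
    intro α β
    have h1 : inner ℂ (α • v1) (β • v2) = 0 := by
      rw [inner_smul_left, inner_smul_right, horth, mul_zero, mul_zero]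
    rw [@norm_add_sq ℂ, h1, norm_smul, norm_smul, hn1, hn2]
    simp
  have hA1 : ∀ s, (blk a 0 n).mulVec (fun t => v1 t) s = (lam : ℂ) * v1 s := by
    intro s
    have := congrFun (hA.mulVec_eigenvectorBasis i) s
    simpa using this
  have hA2 : ∀ s, (blk a 0 n).mulVec (fun t => v2 t) s = (mu : ℂ) * v2 s := by
    intro s
    have := congrFun (hA.mulVec_eigenvectorBasis j) s
    simpa using this
  have key : ∀ α β : ℂ, ∀ V : ℕ → ℂ, (∀ s : Fin n, V s = α * v1 s + β * v2 s) →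
      enB a c 0 n V ≤ r ^ 2 * nmB 0 n V := by
    intro α β V hV
    unfold enB nmB
    simp only [zero_add]
    rw [← Fin.sum_univ_eq_sum_range (fun i => ‖(∑ j ∈ Finset.range n, a i j * V j) - (c : ℂ) * V i‖ ^ 2) n,
      ← Fin.sum_univ_eq_sum_range (fun i => ‖V i‖ ^ 2) n]
    have h1 : ∀ s : Fin n, (∑ j ∈ Finset.range n, a s j * V j) - (c : ℂ) * V s =
        (δ : ℂ) * (α * v1 s + (-β) * v2 s) := by
      intro s
      rw [← Fin.sum_univ_eq_sum_range (fun j => a s j * V j) n]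
      have h2 : ∑ t : Fin n, a s t * V t = α * (blk a 0 n).mulVec (fun t => v1 t) s +
          β * (blk a 0 n).mulVec (fun t => v2 t) s := by
        unfold Matrix.mulVec dotProduct blk
        rw [Finset.mul_sum, Finset.mul_sum, ← Finset.sum_add_distrib]
        apply Finset.sum_congr rfl
        intro t _
        rw [hV t]
        simp only [Matrix.of_apply, zero_add]
        ring
      rw [h2, hA1, hA2, hV s, hc, hδ]
      push_cast
      ring
    have h3 : ∑ s : Fin n, ‖(∑ j ∈ Finset.range n, a s j * V j) - (c : ℂ) * V s‖ ^ 2 =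
        δ ^ 2 * ‖α • v1 + (-β) • v2‖ ^ 2 := by
      rw [EuclideanSpace.norm_sq_eq, Finset.mul_sum]
      apply Finset.sum_congr rfl
      intro s _
      rw [h1 s, norm_mul, mul_pow, Complex.norm_real, Real.norm_eq_abs, sq_abs]
      simp
    have h4 : ∑ s : Fin n, ‖V s‖ ^ 2 = ‖α • v1 + β • v2‖ ^ 2 := by
      rw [EuclideanSpace.norm_sq_eq]
      apply Finset.sum_congr rfl
      intro s _
      rw [hV s]
      simp
    rw [h3, h4, hnorm, hnorm, hδr, norm_neg]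
  have hn : 1 ≤ n := by
    have := i.2
    omega
  have hdich : ∀ p < n, appr a c r 0 p ∨ appr a c r (p + 1) (n - (p + 1)) := by
    intro p hp
    obtain ⟨α, β, hαβ, h0⟩ : ∃ α β : ℂ, ¬ (α = 0 ∧ β = 0) ∧ α * v1 ⟨p, hp⟩ + β * v2 ⟨p, hp⟩ = 0 := by
      by_cases h1 : v1 ⟨p, hp⟩ = 0 ∧ v2 ⟨p, hp⟩ = 0
      · refine ⟨1, 0, by simp, ?_⟩
        rw [h1.1, h1.2]
        ring
      · refine ⟨v2 ⟨p, hp⟩, - v1 ⟨p, hp⟩, ?_, by ring⟩
        rintro ⟨h2, h3⟩
        exact h1 ⟨neg_eq_zero.mp h3, h2⟩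
    set V : ℕ → ℂ := fun s => if h : s < n then α * v1 ⟨s, h⟩ + β * v2 ⟨s, h⟩ else 0 with hVdef
    have hV : ∀ s : Fin n, V s = α * v1 s + β * v2 s := by
      intro s
      simp only [hVdef, s.2, dif_pos]
    apply dicho a ha c r n p hp V
    · rw [← h0]
      exact hV ⟨p, hp⟩
    · by_contra h1
      push Not at h1
      have h2 : ‖α • v1 + β • v2‖ ^ 2 = 0 := by
        rw [EuclideanSpace.norm_sq_eq]
        apply Finset.sum_eq_zero
        intro s _
        have h3 : (α • v1 + β • v2) s = V s := by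
          rw [hV s]
          simp
        rw [h3, h1 s s.2]
        simp
      rw [hnorm] at h2
      apply hαβ
      have h3 : ‖α‖ ^ 2 = 0 := by nlinarith [sq_nonneg ‖α‖, sq_nonneg ‖β‖]
      have h4 : ‖β‖ ^ 2 = 0 := by nlinarith [sq_nonneg ‖α‖, sq_nonneg ‖β‖]
      rw [sq_eq_zero_iff, norm_eq_zero] at h3 h4
      exact ⟨h3, h4⟩
    · exact key α β V hV
  obtain ⟨k, hk1, hkn, hL, hR⟩ := cut_abs a c r n hn hdich
  obtain ⟨u, hu, hu2⟩ := appr_conv a c r 0 k hL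
  obtain ⟨w, hw, hw2⟩ := appr_conv a c r k (n - k) hR
  exact ⟨k, hk1, hkn, c, u, w, hu, hw, hu2, hw2⟩

/-- index set of all crossing parameters -/
abbrev Cut (n : ℕ) := Σ k : Finset.Ico 1 n, (Fin (n - (k : ℕ)) × Fin (k : ℕ))

theorem card_cut (n : ℕ) : 2 * Fintype.card (Cut n) ≤ n ^ 3 := by
  rw [Fintype.card_sigma]
  have h1 : ∀ k : Finset.Ico 1 n,
      2 * Fintype.card (Fin (n - (k : ℕ)) × Fin (k : ℕ)) ≤ n * n := by
    rintro ⟨k, hk⟩
    rw [Finset.mem_Ico] at hk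
    rw [Fintype.card_prod, Fintype.card_fin, Fintype.card_fin]
    obtain ⟨m, rfl⟩ : ∃ m, n = k + m := ⟨n - k, by omega⟩
    simp only [Nat.add_sub_cancel_left]
    nlinarith [sq_nonneg ((k : ℤ) - m), Nat.zero_le k, Nat.zero_le m, Nat.zero_le (k*k), Nat.zero_le (m*m)]
  rw [Finset.mul_sum]
  calc ∑ k : Finset.Ico 1 n, 2 * Fintype.card (Fin (n - (k : ℕ)) × Fin (k : ℕ))
      ≤ ∑ _k : Finset.Ico 1 n, n * n := Finset.sum_le_sum fun k _ => h1 k
    _ = (n - 1) * (n * n) := by simp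
    _ ≤ n * (n * n) := Nat.mul_le_mul_right _ (by omega)
    _ = n ^ 3 := by ring

theorem HT_pert (a : ℕ → ℕ → ℂ) (ha : HT a) (t : ℝ) : HT (pert a t) := by
  constructor
  · intro i j
    unfold pert
    by_cases h : i = j
    · subst h
      have := ha.herm i i
      simp only [if_true, map_add, map_mul, Complex.conj_ofReal, Complex.conj_natCast, map_one]
      rw [← this]
    · rw [if_neg h, if_neg (Ne.symm h)]
      simp [ha.herm i j]
  · intro i j h
    unfold pert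
    rw [if_neg (by omega), ha.tri i j h, add_zero]

theorem TT_herm (a : ℕ → ℕ → ℂ) (ha : HT a) (n : ℕ) (t : ℝ) : (TT a n t).IsHermitian := by
  unfold Matrix.IsHermitian
  ext i j
  rw [Matrix.conjTranspose_apply]
  unfold TT blk
  simp only [Matrix.of_apply]
  rw [(HT_pert a ha t).herm (0 + i) (0 + j)]
  simp

theorem gap_core (a : ℕ → ℕ → ℂ) (ha : HT a) (n : ℕ) (t y : ℝ)
    (h : ∀ k, 1 ≤ k → k < n → ∀ x : Fin (n - k) × Fin k → ℂ,
        y ^ 2 * ∑ r, ‖x r‖ ^ 2 ≤ ∑ r, ‖(syl a n k (t : ℂ)).mulVec x r‖ ^ 2)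
    (hA : (blk (pert a t) 0 n).IsHermitian) (i j : Fin n) (hij : i ≠ j) :
    y ≤ |hA.eigenvalues i - hA.eigenvalues j| := by
  obtain ⟨k, hk1, hk2, c, u, w, hu, hw, h1, h2⟩ := cut_lemma (pert a t) (HT_pert a ha t) n hA i j
    hij (|hA.eigenvalues i - hA.eigenvalues j| / 2) (by ring)
  set r := |hA.eigenvalues i - hA.eigenvalues j| / 2 with hr
  have hr0 : 0 ≤ r := by positivity
  have hU : 0 < ∑ s, ‖u s‖ ^ 2 := by
    obtain ⟨s, hs⟩ := Function.ne_iff.1 hu
    refine lt_of_lt_of_le ?_ (Finset.single_le_sum (f := fun s => ‖u s‖ ^ 2)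
      (fun s _ => by positivity) (Finset.mem_univ s))
    have : 0 < ‖u s‖ := norm_pos_iff.2 hs
    positivity
  have hW : 0 < ∑ s, ‖w s‖ ^ 2 := by
    obtain ⟨s, hs⟩ := Function.ne_iff.1 hw
    refine lt_of_lt_of_le ?_ (Finset.single_le_sum (f := fun s => ‖w s‖ ^ 2)
      (fun s _ => by positivity) (Finset.mem_univ s))
    have : 0 < ‖w s‖ := norm_pos_iff.2 hs
    positivity
  have hx := h k hk1 hk2 (fun p => w p.1 * u p.2)
  have hmul : ∀ p : Fin (n - k) × Fin k,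
      (syl a n k (t : ℂ)).mulVec (fun p => w p.1 * u p.2) p
        = ((blk (pert a t) k (n - k)).mulVec w p.1 - c * w p.1) * u p.2
          - w p.1 * ((blk (pert a t) 0 k).mulVec u p.2 - c * u p.2) := by
    rintro ⟨p, q⟩
    unfold syl
    rw [Matrix.sub_mulVec, Pi.sub_apply]
    have e1 : (Matrix.kronecker (blk (pert a t) k (n - k)) (1 : Matrix (Fin k) (Fin k) ℂ)).mulVec
        (fun p => w p.1 * u p.2) (p, q) = (blk (pert a t) k (n - k)).mulVec w p * u q := by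
      simp only [Matrix.mulVec, dotProduct, Matrix.kronecker, Matrix.kroneckerMap_apply]
      rw [Fintype.sum_prod_type, Finset.sum_mul]
      refine Finset.sum_congr rfl fun p' _ => ?_
      rw [Finset.sum_eq_single q]
      · simp [mul_assoc]
      · intro q' _ hq'
        rw [Matrix.one_apply_ne (Ne.symm hq')]
        simp
      · intro h; exact absurd (Finset.mem_univ _) h
    have e2 : (Matrix.kronecker (1 : Matrix (Fin (n - k)) (Fin (n - k)) ℂ)
        (blk (pert a t) 0 k)).mulVec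
        (fun p => w p.1 * u p.2) (p, q) = w p * (blk (pert a t) 0 k).mulVec u q := by
      simp only [Matrix.mulVec, dotProduct, Matrix.kronecker, Matrix.kroneckerMap_apply]
      rw [Fintype.sum_prod_type, Finset.sum_eq_single p]
      · rw [Finset.mul_sum]
        refine Finset.sum_congr rfl fun q' _ => ?_
        rw [Matrix.one_apply_eq]
        ring
      · intro p' _ hp'
        simp [Matrix.one_apply_ne (Ne.symm hp')]
      · intro h; exact absurd (Finset.mem_univ _) h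
    rw [e1, e2]
    ring
  have hle : ∑ p, ‖(syl a n k (t : ℂ)).mulVec (fun p => w p.1 * u p.2) p‖ ^ 2
      ≤ (2 * r) ^ 2 * ((∑ s, ‖w s‖ ^ 2) * ∑ s, ‖u s‖ ^ 2) := by
    calc ∑ p, ‖(syl a n k (t : ℂ)).mulVec (fun p => w p.1 * u p.2) p‖ ^ 2
        ≤ ∑ p : Fin (n - k) × Fin k,
          (2 * (‖(blk (pert a t) k (n - k)).mulVec w p.1 - c * w p.1‖ ^ 2 * ‖u p.2‖ ^ 2)
          + 2 * (‖w p.1‖ ^ 2 * ‖(blk (pert a t) 0 k).mulVec u p.2 - c * u p.2‖ ^ 2)) := by
          refine Finset.sum_le_sum fun p _ => ?_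
          rw [hmul p]
          have h3 := norm_sub_le (((blk (pert a t) k (n - k)).mulVec w p.1 - c * w p.1) * u p.2)
            (w p.1 * ((blk (pert a t) 0 k).mulVec u p.2 - c * u p.2))
          rw [norm_mul, norm_mul] at h3
          have h4 := norm_nonneg (((blk (pert a t) k (n - k)).mulVec w p.1 - c * w p.1) * u p.2
            - w p.1 * ((blk (pert a t) 0 k).mulVec u p.2 - c * u p.2))
          nlinarith [sq_nonneg (‖(blk (pert a t) k (n - k)).mulVec w p.1 - c * w p.1‖ * ‖u p.2‖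
            - ‖w p.1‖ * ‖(blk (pert a t) 0 k).mulVec u p.2 - c * u p.2‖)]
      _ = 2 * ((∑ s, ‖(blk (pert a t) k (n - k)).mulVec w s - c * w s‖ ^ 2)
            * ∑ s, ‖u s‖ ^ 2)
          + 2 * ((∑ s, ‖w s‖ ^ 2)
            * ∑ s, ‖(blk (pert a t) 0 k).mulVec u s - c * u s‖ ^ 2) := by
          rw [Finset.sum_add_distrib, ← Finset.mul_sum, ← Finset.mul_sum,
            Fintype.sum_prod_type, Fintype.sum_prod_type, Finset.sum_mul_sum,
            Finset.sum_mul_sum]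
      _ ≤ (2 * r) ^ 2 * ((∑ s, ‖w s‖ ^ 2) * ∑ s, ‖u s‖ ^ 2) := by
          nlinarith [mul_le_mul_of_nonneg_right h2 hU.le, mul_le_mul_of_nonneg_left h1 hW.le]
  have hprod : ∑ p : Fin (n - k) × Fin k, ‖w p.1 * u p.2‖ ^ 2
      = (∑ s, ‖w s‖ ^ 2) * ∑ s, ‖u s‖ ^ 2 := by
    rw [Fintype.sum_prod_type, Finset.sum_mul_sum]
    refine Finset.sum_congr rfl fun p _ => Finset.sum_congr rfl fun q _ => ?_
    rw [norm_mul, mul_pow]
  rw [hprod] at hx
  have hfin : y ^ 2 ≤ (2 * r) ^ 2 := by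
    have := hx.trans hle
    exact le_of_mul_le_mul_right this (mul_pos hW hU)
  have : y ≤ 2 * r := by
    exact abs_le_of_sq_le_sq' hfin (by positivity) |>.2
  linarith


theorem main : S_G1 := by
  intro a ha n
  choose τ0 c hc h1 h2 using fun k : ℕ => syl_roots a ha n k
  let e := Fintype.equivFin (Cut n)
  refine ⟨Fintype.card (Cut n), fun r => τ0 (e.symm r).1 (e.symm r).2, card_cut n, ?_⟩
  intro t y hy hr i j hij
  have hA : (blk (pert a t) 0 n).IsHermitian := TT_herm a ha n t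
  have hE : eig (TT a n t) = hA.eigenvalues := by
    unfold eig TT
    rw [dif_pos hA]
  rw [hE]
  refine gap_core a ha n t y ?_ hA i j hij
  intro k hk1 hk2 x
  have key : ∀ q : Cut n, y ≤ |t - τ0 q.1 q.2| := by
    intro q
    obtain ⟨p, rfl⟩ := e.symm.surjective q
    exact hr p
  exact h2 k t y hy (fun r => key ⟨⟨k, Finset.mem_Ico.2 ⟨hk1, hk2⟩⟩, r⟩) x

end Pool.Agent.H22.NL.G1
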