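import Pool.Agent.H22.NL.Stm
import Pool.Agent.H22.NL.G1

set_option autoImplicit false
open scoped BigOperators Polynomial
open Polynomial

/-!
# Project NL, part D1
-/

noncomputable section
namespace Pool.Agent.H22.NL.D1

theorem main (hB : S_B) : S_D1 := by
  intro a ha n K ε hn hε
  set σ : ℕ → ℝ := fun k => 16 ^ k * ε / 2 with hσ
  have hσ0 : ∀ k, 0 < σ k := fun k => by rw [hσ]; positivity
  set d : ℕ → Fin n → Fin n → ℝ := fun k i j =>
    if i = j then - Real.log (256 ^ k) else Real.log (ε ^ 2) with hd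
  refine ⟨∑ k ∈ Finset.range (K + 1), 128 ^ k * (Real.log (σ k ^ (2 * n)) + ∑ i, ∑ j, d k i j), ?_⟩
  intro t
  have hp := G1.HT_pert a ha t
  -- one factor
  have hone : ∀ k, V2 n (fun i => a i i + (t : ℂ) * ((i : ℂ) + 1)) (fun i => a i (i + 1) * a (i + 1) i)
      (16 ^ k * (ε : ℂ) / 2) = ((Real.exp ((Real.log (σ k ^ (2 * n)) + ∑ i, ∑ j, d k i j) +
        ∑ i, ∑ j, Real.log (((eig (TT a n t) i - eig (TT a n t) j) / ε) ^ 2 + 256 ^ k)) : ℝ) : ℂ) := by
    intro k
    have h := (hB (pert a t) hp n (σ k) hn (hσ0 k)).2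
    have e1 : (fun i => pert a (t : ℂ) i i) = fun i => a i i + (t : ℂ) * ((i : ℂ) + 1) := by
      funext i
      unfold pert
      rw [if_pos rfl]
    have e2 : (fun i => pert a (t : ℂ) i (i + 1) * pert a (t : ℂ) (i + 1) i) =
        fun i => a i (i + 1) * a (i + 1) i := by
      funext i
      unfold pert
      rw [if_neg (by omega), if_neg (by omega), add_zero, add_zero]
    have e3 : ((σ k : ℝ) : ℂ) = 16 ^ k * (ε : ℂ) / 2 := by
      rw [hσ]; push_cast; rfl
    rw [e1, e2, e3] at h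
    rw [h]
    congr 1
    have h1 : ∀ i j : Fin n, (if i = j then (1 : ℝ) else
        (eig (blk (pert a t) 0 n) i - eig (blk (pert a t) 0 n) j) ^ 2 + 4 * σ k ^ 2) =
        Real.exp (d k i j + Real.log (((eig (TT a n t) i - eig (TT a n t) j) / ε) ^ 2 + 256 ^ k)) := by
      intro i j
      have hpos : (0 : ℝ) < ((eig (TT a n t) i - eig (TT a n t) j) / ε) ^ 2 + 256 ^ k := by positivity
      rw [Real.exp_add, Real.exp_log hpos, hd]
      by_cases hij : i = j
      · subst hij
        simp only [if_true]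
        rw [Real.exp_neg, Real.exp_log (by positivity)]
        simp
      · simp only [if_neg hij]
        rw [Real.exp_log (by positivity)]
        have h4 : 4 * σ k ^ 2 = 256 ^ k * ε ^ 2 := by
          rw [hσ]
          have : (256 : ℝ) ^ k = (16 ^ k) ^ 2 := by rw [← pow_mul, mul_comm, pow_mul]; norm_num
          rw [this]; ring
        rw [h4]
        change (eig (TT a n t) i - eig (TT a n t) j) ^ 2 + 256 ^ k * ε ^ 2 = _
        field_simp
    rw [Finset.prod_congr rfl fun i _ => Finset.prod_congr rfl fun j _ => h1 i j]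
    simp only [← Real.exp_sum]
    nth_rewrite 1 [← Real.exp_log (pow_pos (hσ0 k) (2 * n))]
    rw [← Real.exp_add]
    congr 1
    simp only [Finset.sum_add_distrib]
    ring
  unfold Wz
  rw [Finset.prod_congr rfl fun k _ => by rw [hone k]]
  have h2 : ∀ k ∈ Finset.range (K + 1), (((Real.exp ((Real.log (σ k ^ (2 * n)) + ∑ i, ∑ j, d k i j) +
        ∑ i, ∑ j, Real.log (((eig (TT a n t) i - eig (TT a n t) j) / ε) ^ 2 + 256 ^ k)) : ℝ) : ℂ)) ^ 128 ^ k
      = ((Real.exp (128 ^ k * (Real.log (σ k ^ (2 * n)) + ∑ i, ∑ j, d k i j) +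
        128 ^ k * ∑ i, ∑ j, Real.log (((eig (TT a n t) i - eig (TT a n t) j) / ε) ^ 2 + 256 ^ k)) : ℝ) : ℂ) := by
    intro k _
    rw [← Complex.ofReal_pow, ← Real.exp_nat_mul]
    congr 2
    push_cast
    ring
  rw [Finset.prod_congr rfl h2, ← Complex.ofReal_prod, ← Real.exp_sum]
  congr 2
  rw [Finset.sum_add_distrib]
  congr 1
  unfold PS phi
  simp only [Finset.mul_sum]
  rw [Finset.sum_comm]
  refine Finset.sum_congr rfl fun i _ => ?_
  rw [Finset.sum_comm]

end Pool.Agent.H22.NL.D1
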