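import Pool.Agent.H22.NL.Stm

/-! NL-E: restriction to a smaller block (helper63) -/

set_option autoImplicit false
open scoped BigOperators Polynomial
open Polynomial

noncomputable section
namespace Pool.Agent.H22.NL.E

lemma TT_herm {a : ℕ → ℕ → ℂ} (ha : HT a) (n : ℕ) (t : ℝ) : (TT a n t).IsHermitian := by
  ext i j
  simp only [TT, blk, pert, Matrix.conjTranspose_apply, Matrix.of_apply]
  rw [ha.herm (0 + (i : ℕ)) (0 + (j : ℕ))]
  simp only [star_add]
  congr 1
  · simp
  · by_cases h : 0 + (i : ℕ) = 0 + (j : ℕ)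
    · rw [if_pos h, if_pos h.symm]
      simp at h
      rw [h]
      simp
    · rw [if_neg h, if_neg (fun h' => h h'.symm)]
      simp

lemma eig_roots {a : ℕ → ℕ → ℂ} (ha : HT a) (n : ℕ) (t : ℝ) :
    (TT a n t).charpoly.roots = Multiset.map (fun i => ((eig (TT a n t) i : ℝ) : ℂ)) Finset.univ.val := by
  rw [(TT_herm ha n t).roots_charpoly_eq_eigenvalues]
  apply Multiset.map_congr rfl
  intro i _
  unfold eig
  rw [dif_pos (TT_herm ha n t)]
  rfl

/-- two members of a multiset image -/
lemma two_mem {ι : Type} [Fintype ι] [DecidableEq ι] (f : ι → ℂ) (u v : ℂ)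
    (h : ({u, v} : Multiset ℂ) ≤ Multiset.map f Finset.univ.val) :
    ∃ i k, i ≠ k ∧ f i = u ∧ f k = v := by
  have hu : u ∈ Multiset.map f Finset.univ.val := Multiset.mem_of_le h (by simp)
  have hv : v ∈ Multiset.map f Finset.univ.val := Multiset.mem_of_le h (by simp)
  rw [Multiset.mem_map] at hu hv
  obtain ⟨i, _, hi⟩ := hu
  obtain ⟨k, _, hk⟩ := hv
  by_cases huv : u = v
  · subst huv
    have h2 := Multiset.count_le_of_le u h
    have h3 : Multiset.count u ({u, u} : Multiset ℂ) = 2 := by simp [Multiset.insert_eq_cons]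
    rw [h3, Multiset.count_map] at h2
    have h4 : 1 < (Finset.univ.filter (fun i => u = f i)).card := by
      have : (Finset.univ.filter (fun i => u = f i)).card =
        Multiset.card (Multiset.filter (fun a => u = f a) (Finset.univ : Finset ι).val) := rfl
      omega
    obtain ⟨i, hi, k, hk, hne⟩ := Finset.one_lt_card.1 h4
    rw [Finset.mem_filter] at hi hk
    exact ⟨i, k, hne, hi.2.symm, hk.2.symm⟩
  · refine ⟨i, k, ?_, hi, hk⟩
    rintro rfl
    exact huv (hi.symm.trans hk)

lemma pair_le {ι : Type} [Fintype ι] [DecidableEq ι] (f : ι → ℂ) (i k : ι) (h : i ≠ k) :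
    ({f i, f k} : Multiset ℂ) ≤ Multiset.map f Finset.univ.val := by
  have h1 : ({i, k} : Finset ι).val ≤ Finset.univ.val := Finset.val_le_iff.2 (Finset.subset_univ _)
  have h2 := Multiset.map_le_map (f := f) h1
  have h3 : ({i, k} : Finset ι).val = i ::ₘ {k} := by
    rw [Finset.insert_val, Multiset.ndinsert_of_notMem (by simpa using h)]
    rfl
  rw [h3] at h2
  simpa [Multiset.insert_eq_cons] using h2

lemma charpoly_dvd {a : ℕ → ℕ → ℂ} (n r : ℕ) (t : ℝ)
    (h0 : ∀ i j, n ≤ i ∨ n ≤ j → a i j = 0) :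
    (TT a n t).charpoly ∣ (TT a (n + r) t).charpoly := by
  have h1 : Matrix.reindex finSumFinEquiv.symm finSumFinEquiv.symm (TT a (n + r) t) =
      Matrix.fromBlocks (TT a n t) 0 0 (Matrix.diagonal fun i : Fin r => (t : ℂ) * ((n + i : ℕ) + 1)) := by
    ext i j
    rw [Matrix.reindex_apply, Equiv.symm_symm]
    rcases i with i | i <;> rcases j with j | j
    · simp [TT, blk, pert]
    · simp only [Matrix.submatrix_apply, TT, blk, pert, Matrix.of_apply, Matrix.fromBlocks_apply₁₂,
        finSumFinEquiv_apply_left, finSumFinEquiv_apply_right, Fin.val_castAdd, Fin.val_natAdd,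
        Matrix.zero_apply]
      rw [h0 _ _ (Or.inr (by omega)), if_neg (by omega)]
      simp
    · simp only [Matrix.submatrix_apply, TT, blk, pert, Matrix.of_apply, Matrix.fromBlocks_apply₂₁,
        finSumFinEquiv_apply_left, finSumFinEquiv_apply_right, Fin.val_castAdd, Fin.val_natAdd,
        Matrix.zero_apply]
      rw [h0 _ _ (Or.inl (by omega)), if_neg (by omega)]
      simp
    · simp only [Matrix.submatrix_apply, TT, blk, pert, Matrix.of_apply, Matrix.fromBlocks_apply₂₂,
        finSumFinEquiv_apply_right, Fin.val_natAdd, Matrix.diagonal_apply]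
      rw [h0 _ _ (Or.inl (by omega))]
      by_cases h : i = j
      · subst h
        simp
      · have h' : ¬ (0 + (n + (i : ℕ)) = 0 + (n + (j : ℕ))) := by
          intro h'
          exact h (Fin.ext (by omega))
        rw [if_neg h', if_neg h]
        simp
  have h2 := Matrix.charpoly_reindex finSumFinEquiv.symm (TT a (n + r) t)
  rw [h1, Matrix.charpoly_fromBlocks_zero₁₂] at h2
  rw [← h2]
  exact dvd_mul_right _ _

theorem main : S_E := by
  classical
  intro a ha n N t y hnN h0 H i k hik
  obtain ⟨r, rfl⟩ : ∃ r, N = n + r := ⟨N - n, by omega⟩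
  have h1 : (TT a n t).charpoly.roots ≤ (TT a (n + r) t).charpoly.roots :=
    Polynomial.roots.le_of_dvd (Matrix.charpoly_monic _).ne_zero (charpoly_dvd n r t h0)
  rw [eig_roots ha, eig_roots ha] at h1
  have h2 := pair_le (fun i => ((eig (TT a n t) i : ℝ) : ℂ)) i k hik
  obtain ⟨i', k', hne, hi', hk'⟩ := two_mem _ _ _ (h2.trans h1)
  have h3 : eig (TT a (n + r) t) i' = eig (TT a n t) i := by exact_mod_cast hi'
  have h4 : eig (TT a (n + r) t) k' = eig (TT a n t) k := by exact_mod_cast hk'
  rw [← h3, ← h4]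
  exact H i' k' hne

end Pool.Agent.H22.NL.E
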