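import Pool.Agent.H22.NL.Stm

set_option autoImplicit false
open scoped BigOperators Polynomial
open Polynomial

/-!
# Project NL, part N1
-/

noncomputable section
namespace Pool.Agent.H22.NL.N1

/-- the Hermitian matrix -/
def Bm {n : ℕ} (lam : Fin n → ℝ) (σ : ℝ) : Matrix (Fin n) (Fin n) ℂ :=
  Matrix.of fun i j => if i = j then (lam i : ℂ) else
    if i < j then Complex.I * σ else - (Complex.I * σ)

/-- the all-ones matrix -/
def J (n : ℕ) : Matrix (Fin n) (Fin n) ℂ := Matrix.of fun _ _ => 1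

theorem Bm_herm {n : ℕ} (lam : Fin n → ℝ) (σ : ℝ) : (Bm lam σ).IsHermitian := by
  unfold Matrix.IsHermitian
  ext i j
  rw [Matrix.conjTranspose_apply]
  unfold Bm
  simp only [Matrix.of_apply]
  rcases lt_trichotomy i j with h | h | h
  · rw [if_neg h.ne', if_neg (not_lt.2 h.le), if_neg h.ne, if_pos h]
    simp
  · subst h
    simp
  · rw [if_neg h.ne, if_pos h, if_neg h.ne', if_neg (not_lt.2 h.le)]
    simp

theorem ch_low {n : ℕ} (lam : Fin n → ℝ) (σ : ℝ) :
    (Bm lam σ - (Complex.I * σ) • J n).charpoly = ∏ i, (X - C ((lam i : ℂ) - Complex.I * σ)) := by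
  rw [← Matrix.charpoly_transpose, Matrix.charpoly_of_isUpperTriangular]
  · refine Finset.prod_congr rfl fun i _ => ?_
    simp [Bm, J]
  · intro i j hij
    simp only [id_eq] at hij
    rw [Matrix.transpose_apply]
    simp [Bm, J, hij, hij.ne]

theorem ch_up {n : ℕ} (lam : Fin n → ℝ) (σ : ℝ) :
    (Bm lam σ - (-(Complex.I * σ)) • J n).charpoly = ∏ i, (X - C ((lam i : ℂ) + Complex.I * σ)) := by
  rw [Matrix.charpoly_of_isUpperTriangular]
  · refine Finset.prod_congr rfl fun i _ => ?_
    simp [Bm, J]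
  · intro i j hij
    simp only [id_eq] at hij
    simp [Bm, J, hij.ne', not_lt.2 hij.le]

/-- moments -/
def mm {n : ℕ} (B : Matrix (Fin n) (Fin n) ℂ) (r : ℕ) : ℂ :=
  (fun _ => 1) ⬝ᵥ (B ^ r).mulVec (fun _ => 1)

/-- the numerator polynomial -/
def rp {n : ℕ} (B : Matrix (Fin n) (Fin n) ℂ) : ℂ[X] :=
  ∑ k ∈ Finset.range (n + 1), ∑ i ∈ Finset.range k, C (B.charpoly.coeff k * mm B (k - 1 - i)) * X ^ i

/-- resolvent times characteristic polynomial -/
def Rz {n : ℕ} (B : Matrix (Fin n) (Fin n) ℂ) (z : ℂ) : Matrix (Fin n) (Fin n) ℂ :=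
  ∑ k ∈ Finset.range (n + 1), B.charpoly.coeff k •
    ∑ i ∈ Finset.range k, (Matrix.scalar (Fin n) z) ^ i * B ^ (k - 1 - i)

theorem ch_sum {n : ℕ} (B : Matrix (Fin n) (Fin n) ℂ) (z : ℂ) :
    B.charpoly.eval z = ∑ k ∈ Finset.range (n + 1), B.charpoly.coeff k * z ^ k := by
  rw [Polynomial.eval_eq_sum_range, Matrix.charpoly_natDegree_eq_dim, Fintype.card_fin]

theorem ch_sum0 {n : ℕ} (B : Matrix (Fin n) (Fin n) ℂ) :
    ∑ k ∈ Finset.range (n + 1), B.charpoly.coeff k • B ^ k = 0 := by
  have h := Matrix.aeval_self_charpoly B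
  rw [Polynomial.aeval_eq_sum_range, Matrix.charpoly_natDegree_eq_dim, Fintype.card_fin] at h
  exact h

theorem Rz_mul {n : ℕ} (B : Matrix (Fin n) (Fin n) ℂ) (z : ℂ) :
    (Matrix.scalar (Fin n) z - B) * Rz B z = (B.charpoly.eval z) • 1 := by
  unfold Rz
  rw [Finset.mul_sum]
  have h1 : ∀ k ∈ Finset.range (n + 1), (Matrix.scalar (Fin n) z - B) * (B.charpoly.coeff k •
      ∑ i ∈ Finset.range k, (Matrix.scalar (Fin n) z) ^ i * B ^ (k - 1 - i)) =
      (B.charpoly.coeff k * z ^ k) • 1 - B.charpoly.coeff k • B ^ k := by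
    intro k _
    have hc : Commute (Matrix.scalar (Fin n) z) B := Matrix.scalar_commute z (fun r => mul_comm _ _) B
    rw [Matrix.mul_smul, hc.mul_geom_sum₂, smul_sub, ← smul_smul]
    congr 2
    rw [← map_pow]
    ext i j
    by_cases h : i = j
    · subst h; simp
    · simp [h]
  rw [Finset.sum_congr rfl h1, Finset.sum_sub_distrib, ch_sum0, sub_zero, ← Finset.sum_smul,
    ← ch_sum]

theorem Rz_eval {n : ℕ} (B : Matrix (Fin n) (Fin n) ℂ) (z : ℂ) :
    (fun _ => 1) ⬝ᵥ (Rz B z).mulVec (fun _ => 1) = (rp B).eval z := by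
  unfold Rz rp
  rw [Polynomial.eval_finsetSum, Matrix.sum_mulVec, dotProduct_sum]
  refine Finset.sum_congr rfl fun k _ => ?_
  rw [Polynomial.eval_finsetSum, Matrix.smul_mulVec, dotProduct_smul, Matrix.sum_mulVec,
    dotProduct_sum, smul_eq_mul, Finset.mul_sum]
  refine Finset.sum_congr rfl fun i _ => ?_
  have h1 : (Matrix.scalar (Fin n) z) ^ i * B ^ (k - 1 - i) = z ^ i • B ^ (k - 1 - i) := by
    rw [← map_pow, Matrix.scalar_apply, Matrix.smul_eq_diagonal_mul]
  rw [h1, Matrix.smul_mulVec, dotProduct_smul]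
  simp only [eval_mul, eval_C, eval_pow, eval_X, smul_eq_mul]
  unfold mm
  ring

theorem ch_pert {n : ℕ} (B : Matrix (Fin n) (Fin n) ℂ) (s : ℂ) :
    (B - s • J n).charpoly = B.charpoly + C s * rp B := by
  have h0 : B.charpoly ≠ 0 := B.charpoly_monic.ne_zero
  have h1 : ((B - s • J n).charpoly - (B.charpoly + C s * rp B)) * B.charpoly = 0 := by
    apply Polynomial.funext
    intro z
    rw [eval_mul, eval_zero]
    by_cases hz : B.charpoly.eval z = 0
    · rw [hz, mul_zero]
    · rw [mul_eq_zero]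
      left
      rw [eval_sub, eval_add, eval_mul, eval_C, Matrix.eval_charpoly]
      set A := Matrix.scalar (Fin n) z - B with hA
      have hdet : A.det = B.charpoly.eval z := by rw [Matrix.eval_charpoly]
      have hu : IsUnit A.det := by rw [hdet]; exact isUnit_iff_ne_zero.2 hz
      have hinv : A⁻¹ = (B.charpoly.eval z)⁻¹ • Rz B z := by
        apply Matrix.inv_eq_right_inv
        rw [Matrix.mul_smul, Rz_mul, smul_smul, inv_mul_cancel₀ hz, one_smul]
      have hJ : Matrix.scalar (Fin n) z - (B - s • J n) =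
          A + Matrix.replicateCol Unit (fun _ : Fin n => s) *
            Matrix.replicateRow Unit (fun _ : Fin n => (1 : ℂ)) := by
        have hJ2 : Matrix.replicateCol Unit (fun _ : Fin n => s) *
            Matrix.replicateRow Unit (fun _ : Fin n => (1 : ℂ)) = s • J n := by
          ext i j
          simp [J, Matrix.mul_apply]
        rw [hA, hJ2]
        abel
      rw [hJ, Matrix.det_add_replicateCol_mul_replicateRow hu, hdet, hinv, Matrix.det_unique,
        Matrix.add_apply, Matrix.one_apply_eq]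
      have h2 : (Matrix.replicateRow Unit (fun _ : Fin n => (1 : ℂ)) *
          ((B.charpoly.eval z)⁻¹ • Rz B z) * Matrix.replicateCol Unit (fun _ : Fin n => s)) default
          default = (B.charpoly.eval z)⁻¹ * s * (rp B).eval z := by
        rw [← Rz_eval, Matrix.mul_smul, Matrix.smul_mul, Matrix.smul_apply, Matrix.mul_assoc,
          smul_eq_mul, mul_assoc]
        congr 1
        have h3 : Matrix.replicateCol Unit (fun _ : Fin n => s) =
            s • Matrix.replicateCol Unit (fun _ : Fin n => (1 : ℂ)) := by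
          ext i j
          simp
        rw [h3, Matrix.mul_smul, Matrix.mul_smul, Matrix.smul_apply, smul_eq_mul]
        congr 1
      rw [h2]
      field_simp
      ring
  have h2 := (mul_eq_zero.1 h1).resolve_right h0
  exact sub_eq_zero.1 h2

theorem orth {n : ℕ} (lam : Fin n → ℝ) (σ : ℝ) (hσ : 0 < σ) (μ : ℝ) (w : Fin n → ℂ) (hw : w ≠ 0)
    (h : (Bm lam σ).mulVec w = (μ : ℂ) • w) : (fun _ => 1) ⬝ᵥ w ≠ 0 := by
  intro h0
  have h1 : (Bm lam σ - (Complex.I * σ) • J n).mulVec w = (μ : ℂ) • w := by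
    rw [Matrix.sub_mulVec, Matrix.smul_mulVec, h]
    have : (J n).mulVec w = 0 := by
      funext i
      exact h0
    rw [this, smul_zero, sub_zero]
  have h2 : ((Bm lam σ - (Complex.I * σ) • J n).charpoly).eval (μ : ℂ) = 0 := by
    rw [Matrix.eval_charpoly]
    apply Matrix.exists_mulVec_eq_zero_iff.1
    refine ⟨w, hw, ?_⟩
    rw [Matrix.sub_mulVec, h1]
    have : (Matrix.scalar (Fin n) (μ : ℂ)).mulVec w = (μ : ℂ) • w := by
      funext i
      rw [Matrix.scalar_apply, Matrix.mulVec_diagonal]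
      rfl
    rw [this, sub_self]
  rw [ch_low, Polynomial.eval_prod, Finset.prod_eq_zero_iff] at h2
  obtain ⟨i, _, hi⟩ := h2
  rw [eval_sub, eval_X, eval_C] at hi
  have := congrArg Complex.im hi
  simp at this
  exact hσ.ne' this

theorem cyc {n : ℕ} (lam : Fin n → ℝ) (σ : ℝ) (hσ : 0 < σ) (u : ℂ[X]) (hu : u ≠ 0)
    (hd : u.natDegree < n) : (aeval (Bm lam σ) u).mulVec (fun _ => 1) ≠ 0 := by
  intro h0
  have hB := Bm_herm lam σ
  set v : Fin n → Fin n → ℂ := fun k => (hB.eigenvectorBasis k).ofLp with hv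
  set μ := hB.eigenvalues with hμ
  have hBv : ∀ k, (Bm lam σ).mulVec (v k) = (μ k : ℂ) • v k := by
    intro k
    have := hB.mulVec_eigenvectorBasis k
    rw [hv]
    rw [this]
    rfl
  have hv0 : ∀ k, v k ≠ 0 := by
    intro k hk
    have h1 := hB.eigenvectorBasis.orthonormal.ne_zero k
    apply h1
    ext i
    exact congrFun hk i
  have ho : ∀ k, (fun _ => 1) ⬝ᵥ v k ≠ 0 := fun k => orth lam σ hσ (μ k) (v k) (hv0 k) (hBv k)
  -- the eigenvalues are distinct
  have hinj : Function.Injective μ := by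
    intro k l hkl
    by_contra hne
    set w : Fin n → ℂ := ((fun _ => (1 : ℂ)) ⬝ᵥ v l) • v k - ((fun _ => (1 : ℂ)) ⬝ᵥ v k) • v l with hw
    have hw0 : w ≠ 0 := by
      intro hw0
      have hli := hB.eigenvectorBasis.orthonormal.linearIndependent
      have h2 : ((fun _ => (1 : ℂ)) ⬝ᵥ v l) • hB.eigenvectorBasis k -
          ((fun _ => (1 : ℂ)) ⬝ᵥ v k) • hB.eigenvectorBasis l = 0 := by
        ext i
        exact congrFun hw0 i
      have h3 : inner ℂ (hB.eigenvectorBasis k) (((fun _ => (1 : ℂ)) ⬝ᵥ v l) • hB.eigenvectorBasis k -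
          ((fun _ => (1 : ℂ)) ⬝ᵥ v k) • hB.eigenvectorBasis l) = 0 := by rw [h2, inner_zero_right]
      rw [inner_sub_right, inner_smul_right, inner_smul_right,
        orthonormal_iff_ite.1 hB.eigenvectorBasis.orthonormal k k,
        orthonormal_iff_ite.1 hB.eigenvectorBasis.orthonormal k l, if_pos rfl, if_neg hne] at h3
      simp only [mul_one, mul_zero, sub_zero] at h3
      exact ho l h3
    apply orth lam σ hσ (μ k) w hw0
    · rw [hw, Matrix.mulVec_sub, Matrix.mulVec_smul, Matrix.mulVec_smul, hBv, hBv, ← hkl,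
        smul_sub, smul_comm, smul_comm ((μ k : ℂ)) ((fun _ => (1 : ℂ)) ⬝ᵥ v k)]
    · rw [hw, dotProduct_sub, dotProduct_smul, dotProduct_smul, smul_eq_mul, smul_eq_mul]
      ring
  -- each eigenvalue is a root
  have hroot : ∀ k, u.eval (μ k : ℂ) = 0 := by
    intro k
    have hvm : Matrix.vecMul (star (v k)) (Bm lam σ) = (μ k : ℂ) • star (v k) := by
      have h1 : star ((Bm lam σ).mulVec (v k)) = star ((μ k : ℂ) • v k) := by rw [hBv]
      rw [Matrix.star_mulVec, hB.eq, star_smul] at h1
      rw [h1]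
      simp
    have hpow : ∀ r : ℕ, Matrix.vecMul (star (v k)) (Bm lam σ ^ r) = ((μ k : ℂ) ^ r) • star (v k) := by
      intro r
      induction r with
      | zero => simp
      | succ r ih =>
        rw [pow_succ, ← Matrix.vecMul_vecMul, ih, Matrix.smul_vecMul, hvm, smul_smul, pow_succ]
    have h1 : star (v k) ⬝ᵥ (aeval (Bm lam σ) u).mulVec (fun _ => 1) = 0 := by
      rw [h0, dotProduct_zero]
    have h2 : star (v k) ⬝ᵥ (aeval (Bm lam σ) u).mulVec (fun _ => 1) =
        u.eval (μ k : ℂ) * (star (v k) ⬝ᵥ (fun _ => 1)) := by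
      rw [Polynomial.aeval_eq_sum_range, Polynomial.eval_eq_sum_range, Matrix.sum_mulVec,
        dotProduct_sum, Finset.sum_mul]
      refine Finset.sum_congr rfl fun i _ => ?_
      rw [Matrix.smul_mulVec, dotProduct_smul, Matrix.dotProduct_mulVec, hpow, smul_dotProduct,
        smul_eq_mul, smul_eq_mul]
      ring
    rw [h2] at h1
    rcases mul_eq_zero.1 h1 with h | h
    · exact h
    · exfalso
      apply ho k
      have h3 := congrArg star h
      rw [star_zero] at h3
      rw [← h3]
      simp [dotProduct]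
  -- too many roots
  have hcard : (Finset.univ.image fun k => (μ k : ℂ)).card = n := by
    rw [Finset.card_image_of_injective, Finset.card_fin]
    intro k l h
    exact hinj (Complex.ofReal_injective h)
  have hle : (Finset.univ.image fun k => (μ k : ℂ)).card ≤ u.natDegree := by
    apply Polynomial.card_le_degree_of_subset_roots
    intro z hz
    rw [Finset.mem_val, Finset.mem_image] at hz
    obtain ⟨k, _, rfl⟩ := hz
    rw [Polynomial.mem_roots hu]
    exact hroot k
  omega

theorem rp_coeff {n : ℕ} (B : Matrix (Fin n) (Fin n) ℂ) (i : ℕ) (hi : i < n) :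
    (rp B).coeff (n - 1 - i) = ∑ j ∈ Finset.range (i + 1), B.charpoly.coeff (n - j) * mm B (i - j) := by
  unfold rp
  rw [Polynomial.finsetSum_coeff]
  have h1 : ∀ k ∈ Finset.range (n + 1), (∑ l ∈ Finset.range k,
      C (B.charpoly.coeff k * mm B (k - 1 - l)) * X ^ l).coeff (n - 1 - i) =
      if n - 1 - i < k then B.charpoly.coeff k * mm B (k - 1 - (n - 1 - i)) else 0 := by
    intro k _
    rw [Polynomial.finsetSum_coeff]
    simp only [coeff_C_mul, coeff_X_pow, mul_ite, mul_one, mul_zero]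
    rw [Finset.sum_ite_eq]
    simp only [Finset.mem_range]
  rw [Finset.sum_congr rfl h1, ← Finset.sum_range_reflect]
  have h2 : ∀ j ∈ Finset.range (n + 1), (if n - 1 - i < n + 1 - 1 - j then
      B.charpoly.coeff (n + 1 - 1 - j) * mm B (n + 1 - 1 - j - 1 - (n - 1 - i)) else 0) =
      if j < i + 1 then B.charpoly.coeff (n - j) * mm B (i - j) else 0 := by
    intro j hj
    rw [Finset.mem_range] at hj
    by_cases h : j < i + 1
    · rw [if_pos h, if_pos (by omega)]
      have e1 : n + 1 - 1 - j = n - j := by omega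
      have e2 : n + 1 - 1 - j - 1 - (n - 1 - i) = i - j := by omega
      rw [e2, e1]
    · rw [if_neg h, if_neg (by omega)]
  rw [Finset.sum_congr rfl h2, ← Finset.sum_filter]
  congr 1
  ext j
  simp only [Finset.mem_filter, Finset.mem_range]
  omega

theorem main : S_N1 := by
  intro n lam σ P Q hn hσ hP hQ
  set B := Bm lam σ with hBdef
  have hPB : P = B.charpoly := by
    rw [hP, ← ch_low, ← ch_up, ch_pert, ch_pert]
    rw [show B.charpoly + C (Complex.I * σ) * rp B + (B.charpoly + C (-(Complex.I * σ)) * rp B) =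
      C 2 * B.charpoly by rw [C_neg, show (C (2 : ℂ) : ℂ[X]) = 2 from rfl]; ring]
    rw [← mul_assoc, ← C_mul]
    norm_num
  have hQB : Q = C (σ : ℂ) * rp B := by
    rw [hQ, ← ch_low, ← ch_up, ch_pert, ch_pert]
    rw [show B.charpoly + C (Complex.I * σ) * rp B - (B.charpoly + C (-(Complex.I * σ)) * rp B) =
      C (2 * Complex.I * σ) * rp B by
        rw [C_neg, mul_assoc 2 Complex.I (σ : ℂ), C_mul (a := 2), show (C (2 : ℂ) : ℂ[X]) = 2 from rfl]; ring]
    rw [← mul_assoc, ← C_mul]
    congr 2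
    have := Complex.I_ne_zero
    field_simp
  refine ⟨B, fun _ => 1, Bm_herm lam σ, fun u hu hd => cyc lam σ hσ u hu hd, ?_⟩
  have hst : star (fun _ : Fin n => (1 : ℂ)) = fun _ => 1 := by
    funext i; simp
  intro i
  rw [hst]
  change _ = ∑ j ∈ Finset.range (i + 1), revc n P j * (σ * mm B (i - j))
  by_cases hi : i ≤ n - 1
  · have hi' : i < n := by omega
    unfold revc
    rw [if_pos hi, hQB, coeff_C_mul, rp_coeff B i hi', Finset.mul_sum]
    refine Finset.sum_congr rfl fun j hj => ?_
    rw [Finset.mem_range] at hj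
    rw [if_pos (by omega), hPB]
    ring
  · have hi' : n ≤ i := by omega
    unfold revc
    rw [if_neg hi]
    symm
    have h1 : ∀ j ∈ Finset.range (i + 1), (if j ≤ n then P.coeff (n - j) else 0) * (σ * mm B (i - j)) =
        if j < n + 1 then σ * (B.charpoly.coeff (n - j) * mm B (i - j)) else 0 := by
      intro j _
      by_cases h : j ≤ n
      · rw [if_pos h, if_pos (by omega), hPB]; ring
      · rw [if_neg h, if_neg (by omega), zero_mul]
    rw [Finset.sum_congr rfl h1, ← Finset.sum_filter]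
    have h2 : (Finset.range (i + 1)).filter (fun j => j < n + 1) = Finset.range (n + 1) := by
      ext j
      simp only [Finset.mem_filter, Finset.mem_range]
      omega
    rw [h2, ← Finset.mul_sum]
    have h3 : ∑ j ∈ Finset.range (n + 1), B.charpoly.coeff (n - j) * mm B (i - j) = 0 := by
      rw [← Finset.sum_range_reflect]
      have h4 : ∀ j ∈ Finset.range (n + 1), B.charpoly.coeff (n - (n + 1 - 1 - j)) *
          mm B (i - (n + 1 - 1 - j)) = (fun _ => (1 : ℂ)) ⬝ᵥ
            (B ^ (i - n) * (B.charpoly.coeff j • B ^ j)).mulVec (fun _ => 1) := by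
        intro j hj
        rw [Finset.mem_range] at hj
        rw [Matrix.mul_smul, Matrix.smul_mulVec, dotProduct_smul, smul_eq_mul, ← pow_add]
        have e1 : n - (n + 1 - 1 - j) = j := by omega
        have e2 : i - (n + 1 - 1 - j) = i - n + j := by omega
        rw [e1, e2]
        rfl
      rw [Finset.sum_congr rfl h4, ← dotProduct_sum, ← Matrix.sum_mulVec, ← Finset.mul_sum, ch_sum0,
        Matrix.mul_zero, Matrix.zero_mulVec, dotProduct_zero]
    rw [h3, mul_zero]

end Pool.Agent.H22.NL.N1
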