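import Pool.Agent.H22.NL.Stm

set_option autoImplicit false
open scoped BigOperators Polynomial
open Polynomial

/-!
# Project NL, part N2: the continued fraction algorithm does not break down
-/

noncomputable section
namespace Pool.Agent.H22.NL.N2

/-- Cauchy product -/
def cau (F a : ℕ → ℂ) : ℕ → ℂ := fun i => ∑ j ∈ Finset.range (i + 1), F j * a (i - j)

theorem mk_cau (F a : ℕ → ℂ) : PowerSeries.mk (cau F a) = PowerSeries.mk F * PowerSeries.mk a := by
  ext i
  rw [PowerSeries.coeff_mul, PowerSeries.coeff_mk, cau,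
    Finset.Nat.sum_antidiagonal_eq_sum_range_succ_mk]
  simp

theorem mk_inj {F G : ℕ → ℂ} (h : PowerSeries.mk F = PowerSeries.mk G) : F = G := by
  funext i
  have := congrArg (PowerSeries.coeff i) h
  simpa using this

theorem nxt_series (a b : ℕ → ℂ) (hb : b 0 ≠ 0) :
    PowerSeries.X ^ 2 * PowerSeries.mk (nxt a b) =
      PowerSeries.C (a 0 / b 0) * PowerSeries.mk b +
        PowerSeries.X * (PowerSeries.C ((a 1 - a 0 / b 0 * b 1) / b 0) * PowerSeries.mk b) -
          PowerSeries.mk a := by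
  ext i
  rcases i with _ | _ | i
  · simp [PowerSeries.coeff_X_pow_mul']
    field_simp
    ring
  · simp only [zero_add, PowerSeries.coeff_X_pow_mul', map_sub, map_add, PowerSeries.coeff_C_mul,
      PowerSeries.coeff_mk]
    rw [show (1 : ℕ) = 0 + 1 from rfl, PowerSeries.coeff_succ_X_mul]
    simp
    field_simp
    ring
  · rw [PowerSeries.coeff_X_pow_mul']
    simp only [map_sub, map_add, PowerSeries.coeff_C_mul, PowerSeries.coeff_mk,
      PowerSeries.coeff_succ_X_mul]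
    simp [nxt]

theorem nxt_cau (F a b : ℕ → ℂ) (hF : F 0 = 1) (hb : b 0 ≠ 0) :
    nxt (cau F a) (cau F b) = cau F (nxt a b) := by
  have e0 : ∀ c : ℕ → ℂ, cau F c 0 = c 0 := by
    intro c
    simp [cau, hF]
  have e1 : ∀ c : ℕ → ℂ, cau F c 1 = c 1 + F 1 * c 0 := by
    intro c
    simp [cau, Finset.sum_range_succ, hF]
  apply mk_inj
  have hb' : cau F b 0 ≠ 0 := by rwa [e0]
  have h1 := nxt_series (cau F a) (cau F b) hb'
  have h2 := nxt_series a b hb
  have e2 : (cau F a 1 - cau F a 0 / cau F b 0 * cau F b 1) / cau F b 0 =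
      (a 1 - a 0 / b 0 * b 1) / b 0 := by
    rw [e0, e0, e1, e1]
    field_simp
    ring
  rw [e2, e0, e0, mk_cau, mk_cau] at h1
  rw [mk_cau]
  have h3 : (PowerSeries.X ^ 2 : PowerSeries ℂ) ≠ 0 := pow_ne_zero _ PowerSeries.X_ne_zero
  apply mul_left_cancel₀ h3
  rw [h1, show PowerSeries.X ^ 2 * (PowerSeries.mk F * PowerSeries.mk (nxt a b)) =
    PowerSeries.mk F * (PowerSeries.X ^ 2 * PowerSeries.mk (nxt a b)) by ring, h2]
  ring

/-- the sequence `1, 0, 0, ...` -/
def dl : ℕ → ℂ := fun i => if i = 0 then 1 else 0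

theorem cau_dl (F : ℕ → ℂ) : cau F dl = F := by
  funext i
  simp only [cau, dl]
  rw [Finset.sum_range_succ]
  simp only [Nat.sub_self, if_true, mul_one]
  rw [Finset.sum_eq_zero, zero_add]
  intro j hj
  rw [Finset.mem_range] at hj
  rw [if_neg (by omega), mul_zero]

theorem eu_cau (F s : ℕ → ℂ) (hF : F 0 = 1) : ∀ k : ℕ, (∀ j < k, lc dl s j ≠ 0) →
    eu F (cau F s) k = (cau F (eu dl s k).1, cau F (eu dl s k).2) := by
  intro k
  induction k with
  | zero =>
    intro _
    simp [eu, cau_dl]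
  | succ k ih =>
    intro h
    have h1 := ih fun j hj => h j (by omega)
    simp only [eu]
    rw [h1]
    simp only
    rw [nxt_cau F _ _ hF (h k (by omega))]

/-- the invariant: the remainders are given by orthogonal polynomials -/
def Inv (L : ℝ[X] →ₗ[ℝ] ℝ) (s : ℕ → ℂ) (k : ℕ) : Prop :=
  ∃ (p q : ℝ[X]) (x0 x1 : ℝ), (∀ i, (eu dl s k).2 i = ((L (q * X ^ (k + i)) : ℝ) : ℂ)) ∧
    (∀ r < k, L (q * X ^ r) = 0) ∧ q.natDegree = k ∧ q ≠ 0 ∧ p.degree < (k : ℕ) ∧
    (∀ i, (eu dl s k).1 (i + 2) = ((L (p * X ^ (k + i + 1)) : ℝ) : ℂ)) ∧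
    (eu dl s k).1 0 = (x0 : ℂ) ∧ x0 ≠ 0 ∧ (eu dl s k).1 1 = (x1 : ℂ) ∧ L (p * X ^ k) = x1 ∧
    (∀ r, r + 1 = k → L (p * X ^ r) = x0) ∧ ∀ r, r + 1 < k → L (p * X ^ r) = 0

theorem L_sq (L : ℝ[X] →ₗ[ℝ] ℝ) (q : ℝ[X]) (k : ℕ) (hq : q.natDegree = k)
    (h : ∀ r < k, L (q * X ^ r) = 0) : L (q * q) = q.coeff k * L (q * X ^ k) := by
  have h1 : q * q = ∑ r ∈ Finset.range (k + 1), q.coeff r • (q * X ^ r) := by
    conv_lhs => rw [q.as_sum_range' (k + 1) (by omega), Finset.mul_sum]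
    conv_lhs => enter [2, r]; rw [← q.as_sum_range' (k + 1) (by omega)]
    refine Finset.sum_congr rfl fun r _ => ?_
    rw [← C_mul_X_pow_eq_monomial, smul_eq_C_mul]
    ring
  rw [h1, map_sum, Finset.sum_range_succ, Finset.sum_eq_zero, zero_add, map_smul, smul_eq_mul]
  intro r hr
  rw [map_smul, h r (Finset.mem_range.mp hr), smul_zero]

theorem lc_of_inv {L : ℝ[X] →ₗ[ℝ] ℝ} {s : ℕ → ℂ} {k n : ℕ} (h : Inv L s k) (hk : k < n)
    (hL : ∀ u : ℝ[X], u ≠ 0 → u.natDegree < n → 0 < L (u * u)) : lc dl s k ≠ 0 := by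
  obtain ⟨p, q, x0, x1, h1, h2, h3, h4, -⟩ := h
  have h5 := hL q h4 (by omega)
  rw [L_sq L q k h3 h2] at h5
  rw [lc, h1 0]
  intro h6
  rw [Complex.ofReal_eq_zero, add_zero] at h6
  rw [h6, mul_zero] at h5
  exact lt_irrefl _ h5

theorem inv_zero (L : ℝ[X] →ₗ[ℝ] ℝ) : Inv L (fun i => ((L (X ^ i) : ℝ) : ℂ)) 0 := by
  refine ⟨0, 1, 1, 0, ?_, ?_, ?_, ?_, ?_, ?_, ?_, ?_, ?_, ?_, ?_, ?_⟩
  · intro i; simp [eu]
  · intro r hr; omega
  · simp
  · exact one_ne_zero
  · simp
  · intro i; simp [eu, dl]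
  · simp [eu, dl]
  · exact one_ne_zero
  · simp [eu, dl]
  · simp
  · intro r hr; omega
  · intro r hr; omega

theorem inv_succ (L : ℝ[X] →ₗ[ℝ] ℝ) (s : ℕ → ℂ) (k : ℕ) (h : Inv L s k) (hlc : lc dl s k ≠ 0) :
    Inv L s (k + 1) := by
  obtain ⟨p, q, x0, x1, h1, h2, h3, h4, h5, h6, h7, h8, h9, h10, h11, h12⟩ := h
  have hb : L (q * X ^ k) ≠ 0 := by
    intro h
    apply hlc
    rw [lc, h1 0, add_zero, h, Complex.ofReal_zero]
  set b0 := L (q * X ^ k) with hb0
  set b1 := L (q * X ^ (k + 1)) with hb1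
  set α : ℝ := x0 / b0 with hα
  set β : ℝ := (x1 - α * b1) / b0 with hβ
  have hα0 : α ≠ 0 := div_ne_zero h8 hb
  have hLq : ∀ r, L (((C α * X + C β) * q - p) * X ^ r) =
      α * L (q * X ^ (r + 1)) + β * L (q * X ^ r) - L (p * X ^ r) := by
    intro r
    have : ((C α * X + C β) * q - p) * X ^ r =
        α • (q * X ^ (r + 1)) + β • (q * X ^ r) - p * X ^ r := by
      rw [smul_eq_C_mul, smul_eq_C_mul]
      ring
    rw [this, map_sub, map_add, map_smul, map_smul, smul_eq_mul, smul_eq_mul]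
  have hdeg1 : ((C α * X + C β) * q).degree = ((k + 1 : ℕ) : WithBot ℕ) := by
    rw [degree_mul, degree_linear hα0, degree_eq_natDegree h4, h3]
    push_cast
    ring
  have hdeg : ((C α * X + C β) * q - p).degree = ((k + 1 : ℕ) : WithBot ℕ) := by
    rw [degree_sub_eq_left_of_degree_lt, hdeg1]
    rw [hdeg1]
    refine h5.trans ?_
    exact_mod_cast Nat.lt_succ_self k
  refine ⟨q, (C α * X + C β) * q - p, b0, b1, ?_, ?_, ?_, ?_, ?_, ?_, ?_, ?_, ?_, ?_, ?_, ?_⟩
  · intro i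
    have e1 : (eu dl s (k + 1)).2 i = (eu dl s k).1 0 / (eu dl s k).2 0 * (eu dl s k).2 (i + 2) +
        ((eu dl s k).1 1 - (eu dl s k).1 0 / (eu dl s k).2 0 * (eu dl s k).2 1) /
          (eu dl s k).2 0 * (eu dl s k).2 (i + 1) - (eu dl s k).1 (i + 2) := rfl
    rw [e1, h1, h1, h1, h1, h6, h7, h9, hLq]
    rw [show k + 1 + i + 1 = k + (i + 2) by ring, show k + 1 + i = k + (i + 1) by ring,
      show k + i + 1 = k + (i + 1) by ring, add_zero, ← hb0, ← hb1, hβ, hα]
    push_cast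
    ring
  · intro r hr
    rw [hLq]
    rcases Nat.lt_trichotomy (r + 1) k with h | h | h
    · rw [h2 (r + 1) h, h2 r (by omega), h12 r h]
      ring
    · rw [h, h2 r (by omega), h11 r h, ← hb0, hα]
      field_simp
      ring
    · have : r = k := by omega
      subst this
      rw [h10, ← hb1, ← hb0, hβ]
      field_simp
      ring
  · exact natDegree_eq_of_degree_eq_some hdeg
  · intro h
    have h' := natDegree_eq_of_degree_eq_some hdeg
    rw [h, natDegree_zero] at h'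
    omega
  · rw [degree_eq_natDegree h4, h3]
    exact_mod_cast Nat.lt_succ_self k
  · intro i
    change (eu dl s k).2 (i + 2) = _
    rw [h1, show k + 1 + i + 1 = k + (i + 2) by ring]
  · change (eu dl s k).2 0 = _
    rw [h1, add_zero]
  · exact hb
  · change (eu dl s k).2 1 = _
    rw [h1]
  · rfl
  · intro r hr
    have : r = k := by omega
    rw [this]
  · intro r hr
    exact h2 r (by omega)

theorem abs_lc (L : ℝ[X] →ₗ[ℝ] ℝ) (n : ℕ)
    (hL : ∀ u : ℝ[X], u ≠ 0 → u.natDegree < n → 0 < L (u * u)) :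
    ∀ k < n, lc dl (fun i => ((L (X ^ i) : ℝ) : ℂ)) k ≠ 0 := by
  have key : ∀ k < n, Inv L (fun i => ((L (X ^ i) : ℝ) : ℂ)) k := by
    intro k
    induction k with
    | zero => exact fun _ => inv_zero L
    | succ k ih =>
      intro hk
      exact inv_succ L _ k (ih (by omega)) (lc_of_inv (ih (by omega)) (by omega) hL)
  exact fun k hk => lc_of_inv (key k hk) hk hL

open Matrix in
/-- the functional of a Hermitian matrix and a vector -/
def LB {n : ℕ} (B : Matrix (Fin n) (Fin n) ℂ) (e : Fin n → ℂ) (σ : ℝ) : ℝ[X] →ₗ[ℝ] ℝ where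
  toFun u := σ * (star e ⬝ᵥ (aeval B u).mulVec e).re
  map_add' u v := by
    rw [map_add, add_mulVec, dotProduct_add, Complex.add_re, mul_add]
  map_smul' c u := by
    rw [map_smul, smul_mulVec, dotProduct_smul, Complex.smul_re, smul_eq_mul, smul_eq_mul,
      RingHom.id_apply]
    ring

open Matrix ComplexOrder in
theorem main : S_N2 := by
  intro n B e σ F G hn hσ hB hcyc hF hFr hG
  have hherm : ∀ u : ℝ[X], (aeval B u).IsHermitian := by
    intro u
    induction u using Polynomial.induction_on' with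
    | add p q hp hq => rw [map_add]; exact hp.add hq
    | monomial k a =>
      rw [aeval_monomial, ← Algebra.smul_def]
      have h1 := hB.pow k
      rw [Matrix.IsHermitian, Matrix.conjTranspose_smul, h1.eq, star_trivial]
  have hpos : ∀ u : ℝ[X], u ≠ 0 → u.natDegree < n → 0 < LB B e σ (u * u) := by
    intro u hu hd
    change 0 < σ * (star e ⬝ᵥ (aeval B (u * u)).mulVec e).re
    refine mul_pos hσ ?_
    rw [map_mul, ← Matrix.mulVec_mulVec, dotProduct_mulVec]
    have h1 : star e ᵥ* (aeval B u) = star ((aeval B u).mulVec e) := by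
      rw [Matrix.star_mulVec, (hherm u).eq]
    rw [h1]
    have h2 : (aeval B u).mulVec e ≠ 0 := by
      have := hcyc (u.map (algebraMap ℝ ℂ)) (by
        rw [Ne, Polynomial.map_eq_zero]; exact hu) (by rwa [natDegree_map])
      rwa [aeval_map_algebraMap] at this
    have h3 := (Matrix.dotProduct_star_self_pos_iff (v := (aeval B u).mulVec e)).2 h2
    exact (Complex.lt_def.1 h3).1
  have hG' : G = cau F (fun i => ((LB B e σ (X ^ i) : ℝ) : ℂ)) := by
    funext i
    rw [hG, cau]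
    refine Finset.sum_congr rfl fun j _ => ?_
    congr 1
    change _ = ((σ * (star e ⬝ᵥ (aeval B (X ^ (i - j))).mulVec e).re : ℝ) : ℂ)
    rw [map_pow, aeval_X, Complex.ofReal_mul]
    congr 1
    have := (hB.pow (i - j)).im_star_dotProduct_mulVec_self e
    apply Complex.ext
    · simp
    · rw [Complex.ofReal_im]
      exact this
  have h := abs_lc (LB B e σ) n hpos
  intro k hk
  rw [hG', lc, eu_cau F _ hF k fun j hj => h j (by omega)]
  change cau F _ 0 ≠ 0
  have e0 : ∀ c : ℕ → ℂ, cau F c 0 = c 0 := by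
    intro c
    simp [cau, hF]
  rw [e0]
  exact h k hk

end Pool.Agent.H22.NL.N2
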