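import Pool.Agent.H22.NL.Fin
import Pool.Agent.H22.NL.A1
import Pool.Agent.H22.NL.A2
import Pool.Agent.H22.NL.A3
import Pool.Agent.H22.NL.A4
import Pool.Agent.H22.NL.A4b
import Pool.Agent.H22.NL.A5
import Pool.Agent.H22.NL.A6
import Pool.Agent.H22.NL.A7
import Pool.Agent.H22.NL.A8
import Pool.Agent.H22.NL.A9
import Pool.Agent.H22.NL.B
import Pool.Agent.H22.NL.B0
import Pool.Agent.H22.NL.B1
import Pool.Agent.H22.NL.B2
import Pool.Agent.H22.NL.D1
import Pool.Agent.H22.NL.E
import Pool.Agent.H22.NL.G1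
import Pool.Agent.H22.NL.N1
import Pool.Agent.H22.NL.N2

set_option autoImplicit false
open scoped BigOperators Polynomial
open Polynomial

/-!
# Project NL: all parts of the analysis and algebra together
-/

noncomputable section
namespace Pool.Agent.H22.NL

theorem all_B : S_B := B.main B0.main B1.main B2.main N1.main N2.main

theorem all_A9 : S_A9 :=
  A9.main (A6.main G1.main A1.main A2.main A4.main A5.main) (A7.main A3.main A4b.main) A8.main

theorem all_D1 : S_D1 := D1.main all_B

/-- the output `tsol / δ * (i + 1)` of the algorithm is correct -/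
theorem correct (n : ℕ) (hn : 1 ≤ n) (x : Inp n) :
    ∃ e : Fin n → ℝ, (∀ i, outE n i x = (e i : ℂ)) ∧ (∀ i, |e i| ≤ 1) ∧
      ∃ hM : (x.A + (x.δ : ℂ) • Matrix.diagonal fun i => ((e i : ℝ) : ℂ)).IsHermitian,
        ∀ i j, i ≠ j → 1 / 2 ^ 73 * x.δ / (n : ℝ) ^ 46 ≤
          |hM.eigenvalues i - hM.eigenvalues j| :=
  correct_final all_A9 E.main all_D1 n hn x

end Pool.Agent.H22.NL
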