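import Mathlib

set_option autoImplicit false
open scoped BigOperators Polynomial
open Polynomial

/-!
# Project NL (MP_26b317_lc, Q2): definitions
-/

noncomputable section
namespace Pool.Agent.H22.NL

/-! ### The model of computation: straight-line programs with comparisons -/

/-- The constants which may be used for free: the natural numbers and the roots of unity of
order a power of two. -/
def IsConst (z : ℂ) : Prop :=
  (∃ m : ℕ, z = m) ∨ ∃ m k : ℕ, z = Complex.exp (2 * Real.pi * Complex.I * m / 2 ^ k)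

/-- The quantity `g` (a function of the input data `x : X`) is available: it is one of the input
quantities `S`, or one of the quantities `l` computed so far, or a free constant. -/
def Avail {X : Type} (S : Set (X → ℂ)) (l : List (X → ℂ)) (g : X → ℂ) : Prop :=
  g ∈ S ∨ g ∈ l ∨ ∃ z, IsConst z ∧ g = fun _ => z

/-- `g` is obtained from available quantities by one operation: an arithmetic operation on exact
complex numbers, or a comparison of two real parts followed by a selection. -/
inductive Step {X : Type} (S : Set (X → ℂ)) (l : List (X → ℂ)) : (X → ℂ) → Prop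
  | add {a b : X → ℂ} : Avail S l a → Avail S l b → Step S l (fun x => a x + b x)
  | sub {a b : X → ℂ} : Avail S l a → Avail S l b → Step S l (fun x => a x - b x)
  | mul {a b : X → ℂ} : Avail S l a → Avail S l b → Step S l (fun x => a x * b x)
  | div {a b : X → ℂ} : Avail S l a → Avail S l b → Step S l (fun x => a x / b x)
  | sel {a b c d : X → ℂ} : Avail S l a → Avail S l b → Avail S l c → Avail S l d →
      Step S l (fun x => if (a x).re ≤ (b x).re then c x else d x)

/-- `l` is the list of all results of a straight-line program with inputs `S`; the result of the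
last operation comes first. -/
inductive Prog {X : Type} (S : Set (X → ℂ)) : List (X → ℂ) → Prop
  | nil : Prog S []
  | cons {l : List (X → ℂ)} {g : X → ℂ} : Prog S l → Step S l g → Prog S (g :: l)

/-- All quantities in `F` can be computed from the inputs `S` with at most `c` operations. -/
def Cost {X : Type} (S : Set (X → ℂ)) (c : ℕ) (F : Set (X → ℂ)) : Prop :=
  ∃ l, Prog S l ∧ l.length ≤ c ∧ ∀ f ∈ F, Avail S l f

theorem Avail.mono {X : Type} {S S' : Set (X → ℂ)} {l l' : List (X → ℂ)} {g : X → ℂ}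
    (h : Avail S l g) (hS : S ⊆ S') (hl : ∀ f ∈ l, f ∈ l') : Avail S' l' g := by
  rcases h with h | h | h
  · exact Or.inl (hS h)
  · exact Or.inr (Or.inl (hl _ h))
  · exact Or.inr (Or.inr h)

theorem Step.map {X : Type} {S S' : Set (X → ℂ)} {l l' : List (X → ℂ)} {g : X → ℂ}
    (h : Step S l g) (H : ∀ f, Avail S l f → Avail S' l' f) : Step S' l' g := by
  cases h with
  | add h1 h2 => exact .add (H _ h1) (H _ h2)
  | sub h1 h2 => exact .sub (H _ h1) (H _ h2)
  | mul h1 h2 => exact .mul (H _ h1) (H _ h2)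
  | div h1 h2 => exact .div (H _ h1) (H _ h2)
  | sel h1 h2 h3 h4 => exact .sel (H _ h1) (H _ h2) (H _ h3) (H _ h4)

theorem Prog.append {X : Type} {S : Set (X → ℂ)} {F : Set (X → ℂ)} {l1 l2 : List (X → ℂ)}
    (h1 : Prog S l1) (hF : ∀ f ∈ F, Avail S l1 f) (h2 : Prog (S ∪ F) l2) :
    Prog S (l2 ++ l1) ∧ ∀ f, Avail (S ∪ F) l2 f → Avail S (l2 ++ l1) f := by
  have key : ∀ l2 : List (X → ℂ), ∀ f, Avail (S ∪ F) l2 f → Avail S (l2 ++ l1) f := by
    intro l2 f hf
    rcases hf with (hf | hf) | hf | hf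
    · exact Or.inl hf
    · exact (hF f hf).mono subset_rfl (fun g hg => List.mem_append_right _ hg)
    · exact Or.inr (Or.inl (List.mem_append_left _ hf))
    · exact Or.inr (Or.inr hf)
  refine ⟨?_, key l2⟩
  induction h2 with
  | nil => simpa using h1
  | cons h h' ih => exact Prog.cons ih (h'.map (key _))

namespace Cost

variable {X : Type} {S S' F F' G : Set (X → ℂ)} {c c' c1 c2 : ℕ}

theorem mono (h : Cost S c F) (hS : S ⊆ S') (hc : c ≤ c') (hF : F' ⊆ F) : Cost S' c' F' := by
  obtain ⟨l, h1, h2, h3⟩ := h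
  refine ⟨l, ?_, h2.trans hc, fun f hf => (h3 f (hF hf)).mono hS (fun _ h => h)⟩
  clear h2 h3
  induction h1 with
  | nil => exact .nil
  | cons h h' ih => exact .cons ih (h'.map fun f hf => hf.mono hS (fun _ h => h))

/-- quantities which are inputs or constants are computed for free -/
theorem free (h : ∀ f ∈ F, f ∈ S ∨ ∃ z, IsConst z ∧ f = fun _ => z) : Cost S c F :=
  ⟨[], .nil, Nat.zero_le _, fun f hf => (h f hf).elim Or.inl (fun h => Or.inr (Or.inr h))⟩

theorem comp (h1 : Cost S c1 F) (h2 : Cost (S ∪ F) c2 G) : Cost S (c1 + c2) (F ∪ G) := by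
  obtain ⟨l1, p1, q1, r1⟩ := h1
  obtain ⟨l2, p2, q2, r2⟩ := h2
  obtain ⟨h3, h4⟩ := p1.append r1 p2
  refine ⟨l2 ++ l1, h3, by simp; omega, ?_⟩
  rintro f (hf | hf)
  · exact (r1 f hf).mono subset_rfl (fun g hg => List.mem_append_right _ hg)
  · exact h4 f (r2 f hf)

theorem union (h1 : Cost S c1 F) (h2 : Cost S c2 G) : Cost S (c1 + c2) (F ∪ G) :=
  h1.comp (h2.mono Set.subset_union_left le_rfl subset_rfl)

/-- sequential composition, forgetting the intermediate results -/
theorem trans (h1 : Cost S c1 F) (h2 : Cost (S ∪ F) c2 G) : Cost S (c1 + c2) G :=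
  (h1.comp h2).mono subset_rfl le_rfl Set.subset_union_right

/-- finitely many quantities -/
theorem biUnion {ι : Type} (s : Finset ι) (f : ι → Set (X → ℂ)) (d : ι → ℕ)
    (h : ∀ i ∈ s, Cost S (d i) (f i)) : Cost S (∑ i ∈ s, d i) (⋃ i ∈ s, f i) := by
  classical
  induction s using Finset.induction_on with
  | empty => exact free (by simp)
  | insert a s ha ih =>
    rw [Finset.sum_insert ha, Finset.set_biUnion_insert]
    exact (h a (Finset.mem_insert_self _ _)).union
      (ih fun i hi => h i (Finset.mem_insert_of_mem hi))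

theorem add {a b : X → ℂ} (ha : Avail S [] a) (hb : Avail S [] b) :
    Cost S 1 {fun x => a x + b x} :=
  ⟨[_], .cons .nil (.add ha hb), le_rfl, fun f hf => Or.inr (Or.inl (by simp_all))⟩

theorem sub {a b : X → ℂ} (ha : Avail S [] a) (hb : Avail S [] b) :
    Cost S 1 {fun x => a x - b x} :=
  ⟨[_], .cons .nil (.sub ha hb), le_rfl, fun f hf => Or.inr (Or.inl (by simp_all))⟩

theorem mul {a b : X → ℂ} (ha : Avail S [] a) (hb : Avail S [] b) :
    Cost S 1 {fun x => a x * b x} :=
  ⟨[_], .cons .nil (.mul ha hb), le_rfl, fun f hf => Or.inr (Or.inl (by simp_all))⟩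

theorem div {a b : X → ℂ} (ha : Avail S [] a) (hb : Avail S [] b) :
    Cost S 1 {fun x => a x / b x} :=
  ⟨[_], .cons .nil (.div ha hb), le_rfl, fun f hf => Or.inr (Or.inl (by simp_all))⟩

theorem sel {a b c d : X → ℂ} (ha : Avail S [] a) (hb : Avail S [] b) (hc : Avail S [] c)
    (hd : Avail S [] d) : Cost S 1 {fun x => if (a x).re ≤ (b x).re then c x else d x} :=
  ⟨[_], .cons .nil (.sel ha hb hc hd), le_rfl, fun f hf => Or.inr (Or.inl (by simp_all))⟩

end Cost

/-! ### Sequences: truncated products, the continued fraction algorithm -/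

/-- product of two power series given by their coefficients, with coefficients depending on the
input `x` -/
def conv {X : Type} (a b : ℕ → X → ℂ) (m : ℕ) : X → ℂ :=
  fun x => ∑ i ∈ Finset.range (m + 1), a i x * b (m - i) x

/-- one division step of the continued fraction algorithm on sequences of (reversed)
coefficients -/
def nxt (F G : ℕ → ℂ) : ℕ → ℂ := fun i =>
  (F 0 / G 0) * G (i + 2) + ((F 1 - F 0 / G 0 * G 1) / G 0) * G (i + 1) - F (i + 2)

/-- the remainder sequence: `eu F G k = (F_k, F_{k+1})` with `F_0 = F`, `F_1 = G` -/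
def eu (F G : ℕ → ℂ) : ℕ → (ℕ → ℂ) × (ℕ → ℂ)
  | 0 => (F, G)
  | k + 1 => ((eu F G k).2, nxt (eu F G k).1 (eu F G k).2)

/-- leading coefficient of the remainder number `k + 1` -/
def lc (F G : ℕ → ℂ) (k : ℕ) : ℂ := (eu F G k).2 0

/-- `lc_1 ^ 2 * ... * lc_{n-1} ^ 2 * lc_n`: the resultant up to sign -/
def Vof (n : ℕ) (F G : ℕ → ℂ) : ℂ := (∏ k ∈ Finset.range (n - 1), lc F G k ^ 2) * lc F G (n - 1)

/-- coefficients from the top: `revc n P i` is the coefficient of `x ^ (n - i)` -/
def revc (n : ℕ) (P : ℂ[X]) : ℕ → ℂ := fun i => if i ≤ n then P.coeff (n - i) else 0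

/-- continuants: `(cont α γ n).1 = det (x - T_n)` for the tridiagonal matrix `T_n` with diagonal
entries `α 0, ..., α (n-1)` and `γ i = T i (i+1) * T (i+1) i` -/
def cont {R : Type} [CommRing R] (α γ : ℕ → R) : ℕ → R[X] × R[X]
  | 0 => (1, 0)
  | n + 1 => ((X - C (α n)) * (cont α γ n).1 - C (γ (n - 1)) * (cont α γ n).2, (cont α γ n).1)

/-- real part of `det (x + i σ - T_n)` for real data -/
def PP (n : ℕ) (α γ : ℕ → ℂ) (σ : ℂ) : ℂ[X] :=
  C (1 / 2) * ((cont (fun i => α i - Complex.I * σ) γ n).1 + (cont (fun i => α i + Complex.I * σ) γ n).1)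

/-- imaginary part of `det (x + i σ - T_n)` for real data -/
def QQ (n : ℕ) (α γ : ℕ → ℂ) (σ : ℂ) : ℂ[X] :=
  C (1 / (2 * Complex.I)) *
    ((cont (fun i => α i - Complex.I * σ) γ n).1 - (cont (fun i => α i + Complex.I * σ) γ n).1)

/-- the two sequences to which the continued fraction algorithm is applied -/
def FF (n : ℕ) (α γ : ℕ → ℂ) (σ : ℂ) : ℕ → ℂ := revc n (PP n α γ σ)
def GG (n : ℕ) (α γ : ℕ → ℂ) (σ : ℂ) : ℕ → ℂ := revc (n - 1) (QQ n α γ σ)

/-- the regularised discriminant `σ ^ (2 n) * ∏_{i ≠ j} ((λ i - λ j) ^ 2 + 4 σ ^ 2)` -/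
def V2 (n : ℕ) (α γ : ℕ → ℂ) (σ : ℂ) : ℂ := Vof n (FF n α γ σ) (GG n α γ σ) ^ 2

/-- exponential of the potential -/
def Wz (n K : ℕ) (α γ : ℕ → ℂ) (ε : ℂ) (t : ℂ) : ℂ :=
  ∏ k ∈ Finset.range (K + 1),
    V2 n (fun i => α i + t * ((i : ℂ) + 1)) γ (16 ^ k * ε / 2) ^ (128 ^ k)

/-! ### The search -/

/-- the point number `i` of the subdivision of `[t - h, t + h]` in eight parts -/
def pos (t h : ℂ) (i : ℕ) : ℂ := t + ((i : ℂ) - 4) * (h / 4)

/-- exponential of the second difference centered at the point `i + 1` -/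
def cand (W : ℂ → ℂ) (t h : ℂ) (i : ℕ) : ℂ :=
  W (pos t h i) * W (pos t h (i + 2)) / W (pos t h (i + 1)) ^ 2

/-- smallest candidate among the first `m + 1`, with its position -/
def best (W : ℂ → ℂ) (t h : ℂ) : ℕ → ℂ × ℂ
  | 0 => (cand W t h 0, pos t h 1)
  | m + 1 =>
    (if (cand W t h (m + 1)).re ≤ (best W t h m).1.re then cand W t h (m + 1)
      else (best W t h m).1,
     if (cand W t h (m + 1)).re ≤ (best W t h m).1.re then pos t h (m + 2)
      else (best W t h m).2)

/-- the search: `r` rounds -/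
def srch (W : ℂ → ℂ) (t0 h0 : ℂ) : ℕ → ℂ
  | 0 => t0
  | r + 1 => (best W (srch W t0 h0 r) (h0 / 4 ^ r) 6).2

/-- the parameter found by the algorithm for matrices of size `2 ^ j` -/
def tsol (j : ℕ) (α γ : ℕ → ℂ) (δ : ℂ) : ℂ :=
  srch (Wz (2 ^ j) (5 + 12 * j) α γ (δ / (2 * 2 ^ j) / 4 ^ (11 + 21 * j) / (4 * (2 ^ j) ^ 5)))
    (δ / (2 * 2 ^ j)) (δ / (2 * 2 ^ j)) (11 + 21 * j)

/-! ### Matrices -/

/-- square block of an infinite array: rows and columns `s, ..., s + k - 1` -/
def blk (a : ℕ → ℕ → ℂ) (s k : ℕ) : Matrix (Fin k) (Fin k) ℂ :=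
  Matrix.of fun i j => a (s + i) (s + j)

/-- the array with `z * (i + 1)` added at the diagonal position `i` -/
def pert (a : ℕ → ℕ → ℂ) (z : ℂ) : ℕ → ℕ → ℂ :=
  fun i j => a i j + if i = j then z * ((i : ℂ) + 1) else 0

/-- Hermitian tridiagonal infinite array -/
structure HT (a : ℕ → ℕ → ℂ) : Prop where
  herm : ∀ i j, a j i = (starRingEnd ℂ) (a i j)
  tri : ∀ i j, i + 1 < j → a i j = 0

/-- the eigenvalues of a Hermitian matrix -/
def eig {n : ℕ} (M : Matrix (Fin n) (Fin n) ℂ) : Fin n → ℝ :=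
  open Classical in if h : M.IsHermitian then h.eigenvalues else 0

/-- the sum of `ψ` over all differences of eigenvalues -/
def PS {n : ℕ} (ψ : ℝ → ℝ) (M : Matrix (Fin n) (Fin n) ℂ) : ℝ :=
  ∑ i, ∑ j, ψ (eig M i - eig M j)

/-- the matrix `A + t diag(1, ..., n)` -/
def TT (a : ℕ → ℕ → ℂ) (n : ℕ) (t : ℝ) : Matrix (Fin n) (Fin n) ℂ := blk (pert a t) 0 n

/-- second difference -/
def D2 (f : ℝ → ℝ) (t h : ℝ) : ℝ := f (t + h) + f (t - h) - 2 * f t

/-- the potential -/
def phi (K : ℕ) (x : ℝ) : ℝ := ∑ k ∈ Finset.range (K + 1), 128 ^ k * Real.log (x ^ 2 + 256 ^ k)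

end Pool.Agent.H22.NL
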