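import Pool.Agent.H22.NL.Stm

set_option autoImplicit false
open scoped BigOperators Polynomial
open Polynomial

noncomputable section
namespace Pool.Agent.H22.NL

/-- Input data of size `n`: a Hermitian tridiagonal matrix `A` (no bound on its norm) and
`δ > 0`. -/
structure Inp (n : ℕ) where
  A : Matrix (Fin n) (Fin n) ℂ
  δ : ℝ
  herm : A.IsHermitian
  tri : ∀ i j : Fin n, (i : ℕ) + 1 < j ∨ (j : ℕ) + 1 < i → A i j = 0
  pos : 0 < δ

/-- The input quantities: the entries of `A` on the three central diagonals, and `δ`. -/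
def inputs (n : ℕ) : Set (Inp n → ℂ) :=
  {f | (∃ i j : Fin n, (i : ℕ) ≤ j + 1 ∧ (j : ℕ) ≤ i + 1 ∧ f = fun x => x.A i j) ∨
    f = fun x => (x.δ : ℂ)}

/-- The entries with natural number indices; zero outside. -/
def ent {n : ℕ} (A : Matrix (Fin n) (Fin n) ℂ) (i j : ℕ) : ℂ :=
  if h : i < n ∧ j < n then A ⟨i, h.1⟩ ⟨j, h.2⟩ else 0

theorem HT_ent {n : ℕ} (x : Inp n) : HT (ent x.A) := by
  constructor
  · intro i j
    unfold ent
    by_cases h : i < n ∧ j < n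
    · rw [dif_pos h, dif_pos ⟨h.2, h.1⟩]
      have := congrFun (congrFun x.herm ⟨j, h.2⟩) ⟨i, h.1⟩
      rw [← this]
      simp [Matrix.conjTranspose_apply]
    · rw [dif_neg h, dif_neg (fun h' => h ⟨h'.2, h'.1⟩)]
      simp
  · intro i j hij
    unfold ent
    by_cases h : i < n ∧ j < n
    · rw [dif_pos h]
      exact x.tri _ _ (Or.inl hij)
    · rw [dif_neg h]

/-- the outputs -/
def outE (n : ℕ) (i : Fin n) (x : Inp n) : ℂ :=
  tsol (Nat.clog 2 n) (fun k => ent x.A k k) (fun k => ent x.A k (k + 1) * ent x.A (k + 1) k) x.δ /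
    x.δ * (((i : ℕ) : ℂ) + 1)

theorem two_pow_clog_le (n : ℕ) (hn : 1 ≤ n) : 2 ^ Nat.clog 2 n ≤ 2 * n := by
  rcases Nat.lt_or_ge 1 n with h | h
  · have h1 := Nat.pow_pred_clog_lt_self (b := 2) (by norm_num) h
    have h2 : 1 ≤ Nat.clog 2 n := Nat.clog_pos (by norm_num) h
    obtain ⟨m, hm⟩ := Nat.exists_eq_add_of_le h2
    rw [hm] at h1 ⊢
    have : 1 + m - 1 = m := by omega
    simp only [Nat.pred_eq_sub_one, this] at h1
    rw [add_comm, pow_succ]
    omega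
  · have : n = 1 := by omega
    subst this
    simp

theorem clog_le (n : ℕ) (hn : 1 ≤ n) : Nat.clog 2 n ≤ Nat.log 2 n + 1 := by
  apply Nat.clog_le_of_le_pow
  exact (Nat.lt_pow_succ_log_self (by norm_num) n).le

theorem cost_final (hC8 : S_C8) : ∃ C : ℕ, ∀ n : ℕ, 1 ≤ n →
    Cost (inputs n) (C * n * (Nat.log 2 n + 1) ^ 4) (Set.range (outE n)) := by
  obtain ⟨c, hc⟩ := hC8
  refine ⟨32 * c + 3, fun n hn => ?_⟩
  set j := Nat.clog 2 n with hj
  let α : ℕ → Inp n → ℂ := fun k x => ent x.A k k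
  let γ : ℕ → Inp n → ℂ := fun k x => ent x.A k (k + 1) * ent x.A (k + 1) k
  let d : Inp n → ℂ := fun x => (x.δ : ℂ)
  -- the entries
  have avail : ∀ i k : ℕ, i ≤ k + 1 → k ≤ i + 1 → Avail (inputs n) [] (fun x => ent x.A i k) := by
    intro i k h1 h2
    by_cases h : i < n ∧ k < n
    · left; left
      refine ⟨⟨i, h.1⟩, ⟨k, h.2⟩, h1, h2, ?_⟩
      funext x
      simp [ent, h]
    · right; right
      refine ⟨0, Or.inl ⟨0, by simp⟩, ?_⟩
      funext x
      simp [ent, h]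
  have c1 : Cost (inputs n) 0 (seg (2 ^ j) α) := by
    apply Cost.free
    rintro f ⟨i, hi, rfl⟩
    rcases avail i i (by omega) (by omega) with h | h | h
    · exact Or.inl h
    · simp at h
    · exact Or.inr h
  have c2 : Cost (inputs n) n (seg (2 ^ j) γ) := by
    have h1 : Cost (inputs n) (∑ i ∈ Finset.range n, 1) (⋃ i ∈ Finset.range n, {γ i}) :=
      Cost.biUnion _ _ _ fun i _ =>
        Cost.mul (avail i (i + 1) (by omega) (by omega)) (avail (i + 1) i (by omega) (by omega))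
    have h2 : Cost (inputs n) 0 {f : Inp n → ℂ | f = fun _ => 0} := by
      apply Cost.free
      rintro f rfl
      exact Or.inr ⟨0, Or.inl ⟨0, by simp⟩, rfl⟩
    refine (h1.union h2).mono subset_rfl (by simp) ?_
    rintro f ⟨i, hi, rfl⟩
    by_cases h : i < n
    · left
      simp only [Finset.mem_range, Set.mem_iUnion, Set.mem_singleton_iff]
      exact ⟨i, h, rfl⟩
    · right
      show γ i = fun _ => 0
      funext x
      simp [γ, ent, h]
  have c3 : Cost (inputs n) 0 {d} := by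
    apply Cost.free
    rintro f rfl
    exact Or.inl (Or.inr rfl)
  have c4 := (c1.union c2).union c3
  have c5 := hc (Inp n) j α γ d (fun x => ⟨ent x.A, HT_ent x, fun _ => rfl, fun _ => rfl⟩)
    (fun x => ⟨x.δ, x.pos, rfl⟩)
  have c6 := c4.comp (c5.mono (S' := inputs n ∪ (seg (2 ^ j) α ∪ seg (2 ^ j) γ ∪ {d}))
    Set.subset_union_right le_rfl subset_rfl)
  set ts : Inp n → ℂ := fun x => tsol j (fun i => α i x) (fun i => γ i x) (d x) with hts
  -- division by delta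
  have c7 : Cost (inputs n ∪ (seg (2 ^ j) α ∪ seg (2 ^ j) γ ∪ {d} ∪ {ts})) 1
      {fun x => ts x / d x} :=
    Cost.div (Or.inl (Or.inr (Or.inr rfl))) (Or.inl (Or.inr (Or.inl (Or.inr rfl))))
  have c8 := c6.trans c7
  have c9 : Cost (inputs n ∪ {fun x => ts x / d x}) (∑ i ∈ Finset.range n, 1)
      (⋃ i ∈ Finset.range n, {fun x => ts x / d x * ((i : ℂ) + 1)}) :=
    Cost.biUnion _ _ _ fun i _ =>
      Cost.mul (a := fun x => ts x / d x) (b := fun _ => (i : ℂ) + 1) (Or.inl (Or.inr rfl))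
        (Or.inr (Or.inr ⟨(i : ℂ) + 1, Or.inl ⟨i + 1, by push_cast; ring⟩, rfl⟩))
  have c10 := c8.trans c9
  refine c10.mono subset_rfl ?_ ?_
  · have h1 : 2 ^ j ≤ 2 * n := two_pow_clog_le n hn
    have h2 : j + 1 ≤ 2 * (Nat.log 2 n + 1) := by
      have := clog_le n hn
      omega
    have h3 : (j + 1) ^ 4 ≤ 16 * (Nat.log 2 n + 1) ^ 4 := by
      calc (j + 1) ^ 4 ≤ (2 * (Nat.log 2 n + 1)) ^ 4 := Nat.pow_le_pow_left h2 4
        _ = _ := by ring
    have h4 : c * 2 ^ j * (j + 1) ^ 4 ≤ c * (2 * n) * (16 * (Nat.log 2 n + 1) ^ 4) := by gcongr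
    have h5 : 1 ≤ (Nat.log 2 n + 1) ^ 4 := Nat.one_le_pow _ _ (by omega)
    have h6 : n * 1 ≤ n * (Nat.log 2 n + 1) ^ 4 := by gcongr
    simp only [Finset.sum_const, Finset.card_range, smul_eq_mul, mul_one]
    nlinarith
  · rintro f ⟨i, rfl⟩
    simp only [Finset.mem_range, Set.mem_iUnion, Set.mem_singleton_iff]
    exact ⟨i, i.2, rfl⟩

theorem eig_eq {n : ℕ} {M : Matrix (Fin n) (Fin n) ℂ} (h : M.IsHermitian) (i : Fin n) :
    eig M i = h.eigenvalues i := by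
  unfold eig
  rw [dif_pos h]

theorem correct_final (hA9 : S_A9) (hE : S_E) (hD1 : S_D1) (n : ℕ) (hn : 1 ≤ n) (x : Inp n) :
    ∃ e : Fin n → ℝ, (∀ i, outE n i x = (e i : ℂ)) ∧ (∀ i, |e i| ≤ 1) ∧
      ∃ hM : (x.A + (x.δ : ℂ) • Matrix.diagonal fun i => ((e i : ℝ) : ℂ)).IsHermitian,
        ∀ i j, i ≠ j → 1 / 2 ^ 73 * x.δ / (n : ℝ) ^ 46 ≤
          |hM.eigenvalues i - hM.eigenvalues j| := by
  set j := Nat.clog 2 n with hj
  have hnN : n ≤ 2 ^ j := Nat.le_pow_clog (by norm_num) n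
  have hN1 : 1 ≤ 2 ^ j := Nat.one_le_pow _ _ (by norm_num)
  have hNn : 2 ^ j ≤ 2 * n := two_pow_clog_le n hn
  have hδ := x.pos
  have hNR : (0 : ℝ) < 2 ^ j := by positivity
  have hnR : (0 : ℝ) < n := by exact_mod_cast hn
  set ε : ℝ := x.δ / (2 * 2 ^ j) / 4 ^ (11 + 21 * j) / (4 * (2 ^ j) ^ 5) with hε
  have hεpos : 0 < ε := by positivity
  obtain ⟨c, hc⟩ := hD1 (ent x.A) (HT_ent x) (2 ^ j) (5 + 12 * j) ε hN1 hεpos
  obtain ⟨s, hs1, hs2, hs3, hs4⟩ := hA9 (ent x.A) (HT_ent x) j x.δ c _ hδ hc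
  have hs5 := hE (ent x.A) (HT_ent x) n (2 ^ j) s _ hnN (fun i k h => by
    unfold ent
    rw [dif_neg (by rintro ⟨h1, h2⟩; omega)]) hs4
  have hT : tsol j (fun k => ent x.A k k) (fun k => ent x.A k (k + 1) * ent x.A (k + 1) k) x.δ
      = (s : ℂ) := by
    rw [← hs1]
    unfold tsol
    rw [hε]
    push_cast
    rfl
  refine ⟨fun i => s / x.δ * ((i : ℕ) + 1), ?_, ?_, ?_⟩
  · intro i
    unfold outE
    rw [← hj, hT]
    push_cast
    rfl
  · intro i
    have h1 : (0 : ℝ) ≤ s / x.δ := by positivity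
    rw [abs_of_nonneg (by positivity)]
    have h2 : s / x.δ ≤ 1 / 2 ^ j := by
      rw [div_le_div_iff₀ hδ hNR]
      rw [le_div_iff₀ hNR] at hs3
      linarith
    have h3 : ((i : ℕ) : ℝ) + 1 ≤ 2 ^ j := by
      have : (i : ℕ) + 1 ≤ 2 ^ j := by omega
      exact_mod_cast this
    calc s / x.δ * (((i : ℕ) : ℝ) + 1) ≤ 1 / 2 ^ j * 2 ^ j := by gcongr
      _ = 1 := by field_simp
  · have hEq : (x.A + (x.δ : ℂ) • Matrix.diagonal fun i : Fin n =>
        (((s / x.δ * ((i : ℕ) + 1) : ℝ)) : ℂ)) = TT (ent x.A) n s := by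
      ext i k
      unfold TT blk pert ent
      simp only [Matrix.add_apply, Matrix.smul_apply, Matrix.of_apply, zero_add, smul_eq_mul]
      rw [dif_pos ⟨i.2, k.2⟩]
      congr 1
      by_cases h : i = k
      · subst h
        rw [Matrix.diagonal_apply_eq, if_pos rfl]
        have : (x.δ : ℂ) ≠ 0 := by exact_mod_cast hδ.ne'
        push_cast
        field_simp
      · rw [Matrix.diagonal_apply_ne _ h, if_neg (fun h' => h (Fin.ext h')), mul_zero]
    have hH : (TT (ent x.A) n s).IsHermitian := by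
      rw [← hEq]
      refine x.herm.add ?_
      refine Matrix.IsHermitian.ext fun i k => ?_
      by_cases h : i = k
      · subst h
        simp
      · simp [Matrix.diagonal_apply_ne _ h, Matrix.diagonal_apply_ne _ (Ne.symm h)]
    have key : ∀ i k : Fin n, i ≠ k → 1 / 2 ^ 73 * x.δ / (n : ℝ) ^ 46 ≤
        |hH.eigenvalues i - hH.eigenvalues k| := by
      intro i k hik
      have h1 := hs5 i k hik
      rw [eig_eq hH, eig_eq hH] at h1
      refine le_trans ?_ h1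
      have h2 : ((2 : ℝ) ^ j) ^ 46 ≤ (2 * n) ^ 46 := by
        have : (2 : ℝ) ^ j ≤ 2 * n := by exact_mod_cast hNn
        gcongr
      rw [div_le_div_iff₀ (by positivity) (by positivity)]
      calc 1 / 2 ^ 73 * x.δ * (2 ^ 27 * ((2 : ℝ) ^ j) ^ 46)
          ≤ 1 / 2 ^ 73 * x.δ * (2 ^ 27 * (2 * n) ^ 46) := by gcongr
        _ = x.δ * (n : ℝ) ^ 46 := by ring
    have : ∀ (M : Matrix (Fin n) (Fin n) ℂ), M = TT (ent x.A) n s → ∃ hM : M.IsHermitian,
        ∀ i k, i ≠ k → 1 / 2 ^ 73 * x.δ / (n : ℝ) ^ 46 ≤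
          |hM.eigenvalues i - hM.eigenvalues k| := by
      rintro M rfl
      exact ⟨hH, key⟩
    exact this _ hEq

theorem final (hA9 : S_A9) (hE : S_E) (hD1 : S_D1) (hC8 : S_C8) :
    ∃ (C : ℕ) (c : ℝ), 0 < c ∧ ∀ n : ℕ, 1 ≤ n → ∃ E : Fin n → Inp n → ℂ,
      Cost (inputs n) (C * n * (Nat.log 2 n + 1) ^ 4) (Set.range E) ∧
      ∀ x : Inp n, ∃ e : Fin n → ℝ, (∀ i, E i x = (e i : ℂ)) ∧ (∀ i, |e i| ≤ 1) ∧
        ∃ hM : (x.A + (x.δ : ℂ) • Matrix.diagonal fun i => ((e i : ℝ) : ℂ)).IsHermitian,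
          ∀ i j, i ≠ j → c * x.δ / (n : ℝ) ^ 46 ≤ |hM.eigenvalues i - hM.eigenvalues j| := by
  obtain ⟨C, hC⟩ := cost_final hC8
  exact ⟨C, 1 / 2 ^ 73, by positivity, fun n hn => ⟨outE n, hC n hn,
    fun x => correct_final hA9 hE hD1 n hn x⟩⟩

end Pool.Agent.H22.NL
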