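import Pool.Agent.H22.NL.Stm

set_option autoImplicit false
open scoped BigOperators

/-!
# Project NL: eigenvalues and quadratic forms (common part of A1, A2, A3)
-/

noncomputable section
namespace Pool.Agent.H22.NL.H51

open Matrix

abbrev E (n : ℕ) := EuclideanSpace ℂ (Fin n)

variable {n : ℕ}

theorem eig_of {M : Matrix (Fin n) (Fin n) ℂ} (h : M.IsHermitian) : eig M = h.eigenvalues := by
  unfold eig
  rw [dif_pos h]

/-- the quadratic form of a matrix -/
def qf (M : Matrix (Fin n) (Fin n) ℂ) (v : E n) : ℝ := (inner ℂ v (Matrix.toEuclideanLin M v)).re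

theorem qf_add (M N : Matrix (Fin n) (Fin n) ℂ) (v : E n) : qf (M + N) v = qf M v + qf N v := by
  unfold qf
  rw [map_add, LinearMap.add_apply, inner_add_right, Complex.add_re]

theorem qf_smul (r : ℝ) (M : Matrix (Fin n) (Fin n) ℂ) (v : E n) :
    qf ((r : ℂ) • M) v = r * qf M v := by
  unfold qf
  rw [map_smul, LinearMap.smul_apply, inner_smul_right, Complex.re_ofReal_mul]

theorem toLin_eb {M : Matrix (Fin n) (Fin n) ℂ} (h : M.IsHermitian) (c : Fin n) :
    Matrix.toEuclideanLin M (h.eigenvectorBasis c) =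
      ((h.eigenvalues c : ℝ) : ℂ) • h.eigenvectorBasis c := by
  ext i
  have := congrFun (h.mulVec_eigenvectorBasis c) i
  simpa [Matrix.toLpLin_apply] using this

theorem inner_eb {M : Matrix (Fin n) (Fin n) ℂ} (h : M.IsHermitian) (c : Fin n) (v : E n) :
    inner ℂ (h.eigenvectorBasis c) (Matrix.toEuclideanLin M v) =
      ((h.eigenvalues c : ℝ) : ℂ) * inner ℂ (h.eigenvectorBasis c) v := by
  have hs : (Matrix.toEuclideanLin M).IsSymmetric := isSymmetric_toEuclideanLin_iff.mpr h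
  rw [← hs, toLin_eb, inner_smul_left, Complex.conj_ofReal]

theorem qf_eq {M : Matrix (Fin n) (Fin n) ℂ} (h : M.IsHermitian) (v : E n) :
    qf M v = ∑ c, ‖inner ℂ (h.eigenvectorBasis c) v‖ ^ 2 * eig M c := by
  unfold qf
  rw [← OrthonormalBasis.sum_inner_mul_inner h.eigenvectorBasis, Complex.re_sum]
  refine Finset.sum_congr rfl fun c _ => ?_
  rw [inner_eb, eig_of h]
  have h1 : inner ℂ v (h.eigenvectorBasis c) * (((h.eigenvalues c : ℝ) : ℂ) *
      inner ℂ (h.eigenvectorBasis c) v) = ((h.eigenvalues c : ℝ) : ℂ) *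
      (inner ℂ v (h.eigenvectorBasis c) * inner ℂ (h.eigenvectorBasis c) v) := by ring
  have h2 : (inner ℂ v (h.eigenvectorBasis c) * inner ℂ (h.eigenvectorBasis c) v).re =
      ‖inner ℂ (h.eigenvectorBasis c) v‖ ^ 2 := by
    have := inner_mul_symm_re_eq_norm (𝕜 := ℂ) v (h.eigenvectorBasis c)
    rw [norm_mul, norm_inner_symm v, ← pow_two] at this
    exact this
  rw [h1, Complex.re_ofReal_mul, h2, mul_comm]

theorem qf_eb {M : Matrix (Fin n) (Fin n) ℂ} (h : M.IsHermitian) (c : Fin n) :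
    qf M (h.eigenvectorBasis c) = eig M c := by
  unfold qf
  rw [toLin_eb, inner_smul_right, inner_self_eq_norm_sq_to_K, eig_of h]
  simp

/-- doubly stochastic matrices -/
structure DS (P : Fin n → Fin n → ℝ) : Prop where
  nonneg : ∀ a c, 0 ≤ P a c
  row : ∀ a, ∑ c, P a c = 1
  col : ∀ c, ∑ a, P a c = 1

theorem ds_basis (b b' : OrthonormalBasis (Fin n) ℂ (E n)) :
    DS fun a c => ‖inner ℂ (b c) (b' a)‖ ^ 2 where
  nonneg a c := by positivity
  row a := by
    rw [b.sum_sq_norm_inner_right (b' a), b'.norm_eq_one, one_pow]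
  col c := by
    rw [b'.sum_sq_norm_inner_left (b c), b.norm_eq_one, one_pow]

theorem decomp {M1 M2 : Matrix (Fin n) (Fin n) ℂ} (h1 : M1.IsHermitian) (h2 : M2.IsHermitian)
    (α β : ℝ) : ∃ P Q : Fin n → Fin n → ℝ, DS P ∧ DS Q ∧ ∀ a,
      eig ((α : ℂ) • M1 + (β : ℂ) • M2) a =
        α * ∑ c, P a c * eig M1 c + β * ∑ c, Q a c * eig M2 c := by
  have h : ((α : ℂ) • M1 + (β : ℂ) • M2).IsHermitian := by
    refine Matrix.IsHermitian.add ?_ ?_
    · unfold Matrix.IsHermitian
      rw [Matrix.conjTranspose_smul, h1.eq]; simp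
    · unfold Matrix.IsHermitian
      rw [Matrix.conjTranspose_smul, h2.eq]; simp
  refine ⟨_, _, ds_basis h1.eigenvectorBasis h.eigenvectorBasis,
    ds_basis h2.eigenvectorBasis h.eigenvectorBasis, fun a => ?_⟩
  rw [← qf_eb h, qf_add, qf_smul, qf_smul, qf_eq h1, qf_eq h2]

end Pool.Agent.H22.NL.H51
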