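import Pool.Agent.H22.NL.Sp

set_option autoImplicit false

/-! NLS-IX (helper63): the compressed array -/

namespace Pool.Agent.H22.NL.IX

open H94FG Pool.Agent.H22.NL

theorem kept_inf (a : ℕ → ℕ → ℂ) (n : ℕ) : (Set.ofPred (Kept a n)).Infinite := by
  rw [Set.infinite_iff_exists_gt]
  intro k
  exact ⟨max k n + 1, fun h => absurd h (by omega), by omega⟩

theorem ix_lt (a : ℕ → ℕ → ℂ) (n : ℕ) {u : ℕ} (h : u < cnt a n n) : ix a n u < n := by
  classical
  have h' : u < Nat.count (Kept a n) n := by
    unfold cnt at h
    convert h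
  exact Nat.nth_lt_of_lt_count h'

theorem ix_kept (a : ℕ → ℕ → ℂ) (n u : ℕ) : Kept a n (ix a n u) :=
  Nat.nth_mem_of_infinite (kept_inf a n) u

theorem ix_mono (a : ℕ → ℕ → ℂ) (n : ℕ) : StrictMono (ix a n) :=
  Nat.nth_strictMono (kept_inf a n)

theorem cnt_ix (a : ℕ → ℕ → ℂ) (n u : ℕ) : cnt a n (ix a n u) = u := by
  classical
  have := Nat.count_nth_of_infinite (kept_inf a n) u
  unfold cnt ix
  convert this

theorem ix_cnt (a : ℕ → ℕ → ℂ) (n : ℕ) {i : ℕ} (h : Kept a n i) : ix a n (cnt a n i) = i := by
  classical
  have := Nat.nth_count (p := Kept a n) h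
  unfold cnt ix
  convert this

theorem ix_succ (a : ℕ → ℕ → ℂ) (n : ℕ) {u : ℕ} (h : Kept a n (ix a n u + 1)) :
    ix a n (u + 1) = ix a n u + 1 := by
  classical
  have h1 := ix_cnt a n h
  have h2 : cnt a n (ix a n u + 1) = u + 1 := by
    have h3 := Nat.count_nth_succ_of_infinite (kept_inf a n) u
    unfold cnt ix
    convert h3
  rw [h2] at h1
  exact h1

theorem main : S_IX := by
  intro a n hT hout
  have hherm : ∀ u v, cpr a n v u = (starRingEnd ℂ) (cpr a n u v) := by
    intro u v
    unfold cpr
    by_cases h : u < cnt a n n ∧ v < cnt a n n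
    · rw [if_pos h, if_pos h.symm]
      exact hT.herm _ _
    · rw [if_neg h, if_neg (fun h' => h h'.symm), map_zero]
  have htri : ∀ u v, u + 1 < v → cpr a n u v = 0 := by
    intro u v huv
    unfold cpr
    split_ifs with h
    · apply hT.tri
      have h1 : ix a n u < ix a n (u + 1) := ix_mono a n (Nat.lt_succ_self u)
      have h2 : ix a n (u + 1) < ix a n v := ix_mono a n huv
      omega
    · rfl
  refine ⟨⟨hherm, htri⟩, ?_, ?_⟩
  · intro u hu
    have hix := ix_lt a n hu
    refine ⟨hix, ?_⟩
    have h0 : cpr a n u u = a (ix a n u) (ix a n u) := by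
      unfold cpr
      rw [if_pos ⟨hu, hu⟩]
    have h1 : cpr a n u (u + 1) = a (ix a n u) (ix a n u + 1) := by
      by_cases hk : ix a n u + 1 < n ∧ Kept a n (ix a n u + 1)
      · have h2 := ix_succ a n hk.2
        have h3 : u + 1 < cnt a n n := by
          by_contra hc
          have h4 : n ≤ ix a n (u + 1) := by
            have h5 : cnt a n n ≤ u + 1 := by omega
            have h6 : Kept a n n := fun h => absurd h (lt_irrefl n)
            have h7 := (ix_mono a n).monotone h5
            rw [ix_cnt a n h6] at h7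
            exact h7
          omega
        unfold cpr
        rw [if_pos ⟨hu, h3⟩, h2]
      · have h2 : a (ix a n u) (ix a n u + 1) = 0 := by
          by_cases h3 : ix a n u + 1 < n
          · have h4 : ¬ Kept a n (ix a n u + 1) := fun h => hk ⟨h3, h⟩
            unfold Kept at h4
            push Not at h4
            exact h4.2.2.2 _ rfl
          · exact hout _ _ (Or.inr (by omega))
        rw [h2]
        unfold cpr
        split_ifs with h
        · apply hT.tri
          have h5 : ix a n u < ix a n (u + 1) := ix_mono a n (Nat.lt_succ_self u)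
          have h6 : ix a n (u + 1) < n := ix_lt a n h.2
          have h7 : ix a n (u + 1) ≠ ix a n u + 1 := by
            intro he
            exact hk ⟨by omega, he ▸ ix_kept a n (u + 1)⟩
          omega
        · rfl
    have h2 : cpr a n (u + 1) u = a (ix a n u + 1) (ix a n u) := by
      rw [hherm, h1, ← hT.herm]
    unfold tri
    rw [h0, h1, h2]
  · unfold tri cpr
    simp

end Pool.Agent.H22.NL.IX
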