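import Pool.Agent.H22.NL.Sp

set_option autoImplicit false

/-! NLS-NZ (helper63): the number of kept sites -/

namespace Pool.Agent.H22.NL.NZ

open H94FG Pool.Agent.H22.NL

theorem main : S_NZ := by
  classical
  intro n A hA
  have h1 : cnt (entry A) n n = ((Finset.range n).filter (Kept (entry A) n)).card := by
    unfold cnt
    rw [← Nat.count_eq_card_filter_range]
  rw [h1]
  have hsub : (Finset.range n).filter (Kept (entry A) n) ⊆
      (Finset.univ.filter fun p : Fin n × Fin n => A p.1 p.2 ≠ 0).image (fun p => (p.1 : ℕ)) := by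
    intro i hi
    rw [Finset.mem_filter, Finset.mem_range] at hi
    have hk : ¬ Iso (entry A) i := hi.2 hi.1
    have hex : ∃ j, entry A i j ≠ 0 := by
      by_contra hno
      push Not at hno
      refine hk ⟨hno i, hno (i + 1), fun j hj => ?_⟩
      have h3 := hno j
      have hjn : j < n := by omega
      have e1 : entry A i j = A ⟨i, hi.1⟩ ⟨j, hjn⟩ := by
        unfold entry
        rw [dif_pos ⟨hi.1, hjn⟩]
      have e2 : entry A j i = A ⟨j, hjn⟩ ⟨i, hi.1⟩ := by
        unfold entry
        rw [dif_pos ⟨hjn, hi.1⟩]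
      rw [e1] at h3
      rw [e2, ← hA.apply, h3, star_zero]
    obtain ⟨j, hj⟩ := hex
    have hjn : j < n := by
      by_contra hc
      apply hj
      unfold entry
      rw [dif_neg (fun h => hc h.2)]
    have e1 : entry A i j = A ⟨i, hi.1⟩ ⟨j, hjn⟩ := by
      unfold entry
      rw [dif_pos ⟨hi.1, hjn⟩]
    rw [e1] at hj
    exact Finset.mem_image.2 ⟨(⟨i, hi.1⟩, ⟨j, hjn⟩), Finset.mem_filter.2 ⟨Finset.mem_univ _, hj⟩, rfl⟩
  refine (Finset.card_le_card hsub).trans ?_
  refine Finset.card_image_le.trans (le_of_eq ?_)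
  congr!

end Pool.Agent.H22.NL.NZ
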