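import Pool.Agent.H22.NL.Sp
import Pool.Agent.H94.FG.CRL

set_option autoImplicit false

/-! # Project NLS, stub SC: cost of the program for sparse matrices -/

noncomputable section
namespace Pool.Agent.H22.NL.SC

open H94FG H94FG.Alg

/-- powers with a fixed exponent -/
theorem powK (n : ℕ) : ∃ K : ℕ, Alg (fun z : ℂ => z ^ n) (fun _ => K) := by
  induction n with
  | zero => exact ⟨0, Alg.one.congr (fun _ => by simp) (fun _ => le_rfl)⟩
  | succ n ih =>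
    obtain ⟨K, hK⟩ := ih
    exact ⟨K + 1, (hK.mul' Alg.id).congr (fun z => by rw [pow_succ]) (fun _ => by simp)⟩

/-- case distinction on a list, environment style -/
theorem caseL {α β γ : Type} {l : α → List β} {g : α → γ} {h : α → β → List β → γ}
    (hl : Alg l (fun _ => 0)) (hg : Alg g (fun _ => 0))
    (hh : Alg (fun q : α × β × List β => h q.1 q.2.1 q.2.2) (fun _ => 0)) :
    Alg (fun x => H94FG.caseList (l x) (g x) (h x)) (fun _ => 0) := by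
  refine ((Alg.id.pair hl).comp (Alg.caseList (g := g)
    (h := fun q : α × β × List β => h q.1 q.2.1 q.2.2) hg hh)).congr (fun x => rfl) (fun x => ?_)
  show 0 + 0 + H94FG.caseList (l x) 0 (fun _ _ => 0) ≤ 0
  cases l x <;> simp

theorem hlen : Alg (fun p : ℕ × List (ℕ × ℂ × ℂ × ℂ) => len p.1 p.2) (fun _ => 0) := by
  have hs : Alg lstep (fun _ => 0) := by
    refine (caseL (l := fun s : List (ℕ × ℂ × ℂ × ℂ) × ℕ => s.1) (g := fun s => s)
      (h := fun s _ t => (t, s.2 + 1)) Alg.fst Alg.id ?_).congr (fun _ => rfl) (fun _ => le_rfl)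
    exact ((snd' Alg.snd).pair ((snd' Alg.fst).natAdd' (Alg.nat 1))).congr (fun _ => rfl)
      (fun _ => by simp)
  refine (snd' (loopK (n := fun p : ℕ × List (ℕ × ℂ × ℂ × ℂ) => p.1) (i := fun p => (p.2, 0)) hs
    Alg.fst (Alg.snd.pair (Alg.nat 0)))).congr (fun p => rfl) (fun p => by simp)

theorem hscan : Alg (fun p : ℕ × List (ℕ × ℂ × ℂ × ℂ) => scan p.1 p.2) (fun _ => 0) := by
  have hs : Alg sstep (fun _ => 0) := by
    have h1 : Alg (fun s : St => (s.1 + 1, s.2.1, s.2.2.1, s.2.2.2 ++ [(0, s.2.2.1)]))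
        (fun _ => 0) := by
      refine ((Alg.fst.natAdd' (Alg.nat 1)).pair ((fst' Alg.snd).pair ((fst' (snd' Alg.snd)).pair
        ((snd' (snd' Alg.snd)).append' (((Alg.nat 0).pair (fst' (snd' Alg.snd))).cons'
          Alg.nil))))).congr (fun _ => rfl) (fun _ => by simp)
    have h2 : Alg (fun q : St × (ℕ × ℂ × ℂ × ℂ) × List (ℕ × ℂ × ℂ × ℂ) =>
        (q.1.1 + 1, q.2.2, q.1.2.2.1 + 1, q.1.2.2.2 ++ [(1, q.1.2.2.1)])) (fun _ => 0) := by
      refine (((fst' Alg.fst).natAdd' (Alg.nat 1)).pair ((snd' Alg.snd).pair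
        (((fst' (snd' (snd' Alg.fst))).natAdd' (Alg.nat 1)).pair
        ((snd' (snd' (snd' Alg.fst))).append' (((Alg.nat 1).pair
          (fst' (snd' (snd' Alg.fst)))).cons' Alg.nil))))).congr (fun _ => rfl) (fun _ => by simp)
    have h3 : Alg (fun q : St × (ℕ × ℂ × ℂ × ℂ) × List (ℕ × ℂ × ℂ × ℂ) =>
        (q.1.1 + 1, q.1.2.1, q.1.2.2.1, q.1.2.2.2 ++ [(0, q.1.2.2.1)])) (fun _ => 0) :=
      (Alg.fst.comp h1).congr (fun _ => rfl) (fun _ => by simp)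
    refine (caseL (l := fun s : St => s.2.1)
      (g := fun s : St => (s.1 + 1, s.2.1, s.2.2.1, s.2.2.2 ++ [(0, s.2.2.1)]))
      (h := fun s b t => if b.1 - s.1 = 0 then (s.1 + 1, t, s.2.2.1 + 1, s.2.2.2 ++ [(1, s.2.2.1)])
        else (s.1 + 1, s.2.1, s.2.2.1, s.2.2.2 ++ [(0, s.2.2.1)])) (fst' Alg.snd) h1 ?_).congr
      (fun _ => rfl) (fun _ => le_rfl)
    refine (Alg.natIf (h := fun q : St × (ℕ × ℂ × ℂ × ℂ) × List (ℕ × ℂ × ℂ × ℂ) =>
      q.2.1.1 - q.1.1) ((fst' (fst' Alg.snd)).natSub' (fst' Alg.fst)) h2 h3).congr (fun _ => rfl)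
      (fun _ => by simp)
  refine (snd' (snd' (snd' (loopK (n := fun p : ℕ × List (ℕ × ℂ × ℂ × ℂ) => p.1)
    (i := fun p => ((0, p.2, 0, []) : St)) hs
    Alg.fst ((Alg.nat 0).pair (Alg.snd.pair ((Alg.nat 0).pair Alg.nil))))))).congr
      (fun p => rfl) (fun p => by simp)

theorem len_scan (n : ℕ) (l : List (ℕ × ℂ × ℂ × ℂ)) : (scan n l).length = n := by
  have h : ∀ m : ℕ, (sstep^[m] (0, l, 0, [])).2.2.2.length = m := by
    intro m
    induction m with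
    | zero => rfl
    | succ m ih =>
      rw [Function.iterate_succ_apply']
      generalize hs : sstep^[m] (0, l, 0, []) = s at ih ⊢
      obtain ⟨a, l', c, d⟩ := s
      simp only at ih
      cases l' with
      | nil => simp [sstep, ih]
      | cons b t =>
        simp only [sstep, caseList_cons]
        split_ifs <;> simp [ih]
  exact h n

theorem main : S_SC := by
  intro f cost hf
  obtain ⟨Kr, hr⟩ := H94FG.CRL.main
  -- the input of `f`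
  have hin : Alg inS (fun _ => 6) := by
    have h1 : Alg (fun p : ℕ × ℂ × List (ℕ × ℂ × ℂ × ℂ) => len p.1 p.2.2 + 1) (fun _ => 0) :=
      (((Alg.fst.pair (snd' Alg.snd)).comp hlen).natAdd' (Alg.nat 1)).congr (fun _ => rfl)
        (fun _ => by simp)
    have h2 : Alg (fun p : ℕ × ℂ × List (ℕ × ℂ × ℂ × ℂ) => p.2.1 / 2) (fun _ => 2) :=
      ((fst' Alg.snd).div' (Alg.one.add' Alg.one)).congr (fun _ => by norm_num) (fun _ => by simp)
    have h3 : Alg (fun p : ℕ × ℂ × List (ℕ × ℂ × ℂ × ℂ) =>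
        (p.2.2.map fun q => q.2) ++ [(0, 0, 0)]) (fun _ => 3) := by
      have h4 : Alg (fun p : ℕ × ℂ × List (ℕ × ℂ × ℂ × ℂ) => (p.2.2.map fun q => q.2))
          (fun _ => 0) :=
        (mapK (F := fun (_ : ℕ × ℂ × List (ℕ × ℂ × ℂ × ℂ)) (q : ℕ × ℂ × ℂ × ℂ) => q.2)
          (snd' Alg.snd) (snd' Alg.snd)).congr (fun _ => rfl) (fun _ => by simp)
      exact (h4.append' ((zero'.pair (zero'.pair zero')).cons' Alg.nil)).congr (fun _ => rfl)
        (fun _ => by simp)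
    exact (h1.pair (h2.pair h3)).congr (fun _ => rfl) (fun _ => by simp)
  have hc : Alg (fun p : ℕ × ℂ × List (ℕ × ℂ × ℂ × ℂ) => nc p.1)
      (fun p => Kr * (p.1 + 1)) := by
    refine ((((Alg.fst.natSub' (Alg.nat 1)).drop' (Alg.fst.comp hr))).headD' Alg.one).congr
      (fun _ => rfl) (fun _ => by simp)
  have hrl : Alg (fun p : ℕ × ℂ × List (ℕ × ℂ × ℂ × ℂ) => rlC p.1)
      (fun p => Kr * (p.1 + 1)) := (Alg.fst.comp hr).congr (fun _ => rfl) (fun _ => by simp)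
  have hsc : Alg (fun p : ℕ × ℂ × List (ℕ × ℂ × ℂ × ℂ) => scan p.1 p.2.2) (fun _ => 0) :=
    ((Alg.fst.pair (snd' Alg.snd)).comp hscan).congr (fun _ => rfl) (fun _ => by simp)
  -- the body
  obtain ⟨K1, h121⟩ := powK 121
  obtain ⟨K2, h47⟩ := powK 47
  have hbody : ∃ K, Alg (fun x : ((ℕ × ℂ × List (ℕ × ℂ × ℂ × ℂ)) × List ℂ × ℕ × ℂ) ×
      (ℕ × ℕ) × ℂ => outS x.1.2.1 x.1.2.2.1 x.1.2.2.2 x.2.1 x.2.2) (fun _ => K) := by
    have two : Alg (fun _ : ((ℕ × ℂ × List (ℕ × ℂ × ℂ × ℂ)) × List ℂ × ℕ × ℂ) ×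
      (ℕ × ℕ) × ℂ => (2 : ℂ)) (fun _ => 1) :=
      (Alg.one.add' Alg.one).congr (fun _ => by norm_num) (fun _ => by simp)
    have hE := fst' (snd' (Alg.fst (α := (ℕ × ℂ × List (ℕ × ℂ × ℂ × ℂ)) × List ℂ × ℕ × ℂ)
      (β := (ℕ × ℕ) × ℂ)))
    have hm := fst' (snd' (snd' (Alg.fst (α := (ℕ × ℂ × List (ℕ × ℂ × ℂ × ℂ)) × List ℂ × ℕ × ℂ)
      (β := (ℕ × ℕ) × ℂ))))
    have hcc := snd' (snd' (snd' (Alg.fst (α := (ℕ × ℂ × List (ℕ × ℂ × ℂ × ℂ)) × List ℂ × ℕ × ℂ)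
      (β := (ℕ × ℕ) × ℂ))))
    have hq1 := fst' (fst' (Alg.snd (α := (ℕ × ℂ × List (ℕ × ℂ × ℂ × ℂ)) × List ℂ × ℕ × ℂ)
      (β := (ℕ × ℕ) × ℂ)))
    have hq2 := snd' (fst' (Alg.snd (α := (ℕ × ℂ × List (ℕ × ℂ × ℂ × ℂ)) × List ℂ × ℕ × ℂ)
      (β := (ℕ × ℕ) × ℂ)))
    have hrr := snd' (Alg.snd (α := (ℕ × ℂ × List (ℕ × ℂ × ℂ × ℂ)) × List ℂ × ℕ × ℂ)
      (β := (ℕ × ℕ) × ℂ))
    have ha := ((hm.drop' hE).headD' zero').div' two
    have hb := ((hq2.drop' hE).headD' zero').div' two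
    have hd := (Alg.one.div' ((two.un h121).mul' (hcc.un h47))).mul' hrr
    refine ⟨K1 + K2 + 20, (Alg.natIf hq1 (ha.add' hd) hb).congr (fun x => ?_) (fun x => ?_)⟩
    · rfl
    · split_ifs <;> omega
  obtain ⟨Kb, hb⟩ := hbody
  have hz : Alg (fun x : (ℕ × ℂ × List (ℕ × ℂ × ℂ × ℂ)) × List ℂ × ℕ × ℂ =>
      List.zipWith (outS x.2.1 x.2.2.1 x.2.2.2) (scan x.1.1 x.1.2.2) (rlC x.1.1))
      (fun x => Kr * (x.1.1 + 1) + Kb * x.1.1) := by
    refine (zipWithK (F := fun (x : (ℕ × ℂ × List (ℕ × ℂ × ℂ × ℂ)) × List ℂ × ℕ × ℂ) q r =>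
      outS x.2.1 x.2.2.1 x.2.2.2 q r) hb (Alg.fst.comp hsc) (Alg.fst.comp hrl)).congr
      (fun _ => rfl) (fun x => ?_)
    rw [len_scan]
    simp
  have hlen' : Alg (fun p : ℕ × ℂ × List (ℕ × ℂ × ℂ × ℂ) => len p.1 p.2.2) (fun _ => 0) :=
    ((Alg.fst.pair (snd' Alg.snd)).comp hlen).congr (fun _ => rfl) (fun _ => by simp)
  refine ⟨6 + 2 * Kr + Kb, ?_⟩
  refine (letIn (h := fun (p : ℕ × ℂ × List (ℕ × ℂ × ℂ × ℂ)) (e : List ℂ × ℕ × ℂ) =>
    List.zipWith (outS e.1 e.2.1 e.2.2) (scan p.1 p.2.2) (rlC p.1))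
    ((hin.comp hf).pair (hlen'.pair hc)) hz).congr (fun p => rfl) (fun p => ?_)
  simp only
  nlinarith [Nat.zero_le p.1, Nat.zero_le Kr, Nat.zero_le Kb]

end Pool.Agent.H22.NL.SC
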