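import Pool.Agent.H22.NL.Sp
import Pool.Agent.H22.NL.E

/-! NLS-SP: spectrum of the compressed matrix (helper4) -/

set_option autoImplicit false
open scoped BigOperators Polynomial
open Polynomial

noncomputable section
namespace Pool.Agent.H22.NL.SP

lemma iso_row {a : ℕ → ℕ → ℂ} (ha : HT a) {i : ℕ} (hi : Iso a i) (j : ℕ) : a i j = 0 := by
  obtain ⟨h1, h2, h3⟩ := hi
  rcases lt_trichotomy i j with h | h | h
  · by_cases h' : j = i + 1
    · rw [h']; exact h2
    · exact ha.tri i j (by omega)
  · rw [← h]; exact h1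
  · by_cases h' : j + 1 = i
    · rw [ha.herm j i, h3 j h']; simp
    · rw [ha.herm j i, ha.tri j i (by omega)]; simp

lemma iso_col {a : ℕ → ℕ → ℂ} (ha : HT a) {i : ℕ} (hi : Iso a i) (j : ℕ) : a j i = 0 := by
  rw [ha.herm i j, iso_row ha hi j]; simp

lemma pd_herm {a : ℕ → ℕ → ℂ} (ha : ∀ i j, a j i = (starRingEnd ℂ) (a i j)) (n : ℕ) (w : ℕ → ℝ) :
    (pd a n w).IsHermitian := by
  ext i j
  simp only [pd, blk, Matrix.conjTranspose_apply, Matrix.of_apply, Matrix.add_apply,
    Matrix.diagonal_apply]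
  rw [ha (0 + (i : ℕ)) (0 + (j : ℕ))]
  simp only [star_add]
  congr 1
  · simp
  · by_cases h : i = j
    · subst h; simp
    · rw [if_neg h, if_neg (fun h' => h h'.symm)]; simp

lemma herm_roots {n : ℕ} {M : Matrix (Fin n) (Fin n) ℂ} (h : M.IsHermitian) :
    M.charpoly.roots = Multiset.map (fun i => ((eig M i : ℝ) : ℂ)) Finset.univ.val := by
  rw [h.roots_charpoly_eq_eigenvalues]
  apply Multiset.map_congr rfl
  intro i _
  unfold eig
  rw [dif_pos h]
  rfl

/-- roots of the characteristic polynomial of a block diagonal matrix -/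
lemma blk_roots {κ κ' : Type} [Fintype κ] [DecidableEq κ] [Fintype κ'] [DecidableEq κ']
    (A : Matrix κ κ ℂ) (hA : A.IsHermitian) (v : κ' → ℝ) :
    (Matrix.fromBlocks A 0 0 (Matrix.diagonal fun i => ((v i : ℝ) : ℂ))).charpoly.roots =
      Multiset.map (fun x : κ ⊕ κ' => ((Sum.elim hA.eigenvalues v x : ℝ) : ℂ)) Finset.univ.val := by
  rw [Matrix.charpoly_fromBlocks_zero₁₂, Polynomial.roots_mul, hA.roots_charpoly_eq_eigenvalues,
    Matrix.charpoly_diagonal, Polynomial.roots_prod]
  · simp only [Polynomial.roots_X_sub_C, Multiset.bind_singleton]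
    rw [Finset.univ_disjSum_univ.symm]
    simp only [Finset.val_disjSum, Multiset.disjSum, Multiset.map_add, Multiset.map_map]
    rfl
  · simp [Finset.prod_ne_zero_iff, Polynomial.X_sub_C_ne_zero]
  · exact mul_ne_zero (Matrix.charpoly_monic _).ne_zero (Matrix.charpoly_monic _).ne_zero

lemma kept_inf (a : ℕ → ℕ → ℂ) (n : ℕ) : (Set.ofPred (Kept a n)).Infinite := by
  apply Set.infinite_of_not_bddAbove
  rintro ⟨b, hb⟩
  have : Kept a n (max n (b + 1)) := fun h => absurd h (by simp)
  have := hb this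
  have h2 : b + 1 ≤ max n (b + 1) := le_max_right _ _
  omega

open Classical in
/-- the kept sites -/
def kequiv (a : ℕ → ℕ → ℂ) (n : ℕ) : {i : Fin n // Kept a n i} ≃ Fin (cnt a n n) where
  toFun i := ⟨cnt a n i.1, by
    unfold cnt
    exact Nat.count_strict_mono i.2 i.1.2⟩
  invFun u := ⟨⟨ix a n u, by
    have := u.2
    unfold cnt at this
    exact Nat.nth_lt_of_lt_count this⟩, by
    exact Nat.nth_mem_of_infinite (kept_inf a n) _⟩
  left_inv i := by
    apply Subtype.ext
    apply Fin.ext
    exact Nat.nth_count i.2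
  right_inv u := by
    apply Fin.ext
    exact Nat.count_nth_of_infinite (kept_inf a n) _

lemma ix_cnt (a : ℕ → ℕ → ℂ) (n : ℕ) {i : ℕ} (h : Kept a n i) : ix a n (cnt a n i) = i := by
  classical
  unfold ix cnt
  exact Nat.nth_count h

theorem main : S_SP := by
  classical
  intro a n ha h0 w w' g h hgh hh0 hw1 hw2 hw3 hN
  set m := cnt a n n with hm
  have hMh : (pd a n w).IsHermitian := pd_herm ha.herm n w
  have hcpr : ∀ i j, cpr a n j i = (starRingEnd ℂ) (cpr a n i j) := by
    intro i j
    unfold cpr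
    by_cases hij : i < cnt a n n ∧ j < cnt a n n
    · rw [if_pos hij, if_pos ⟨hij.2, hij.1⟩, ha.herm]
    · rw [if_neg hij, if_neg (fun h => hij ⟨h.2, h.1⟩)]; simp
  have hNh : (pd (cpr a n) (m + 1) w').IsHermitian := pd_herm hcpr _ w'
  let p : Fin n → Prop := fun i => Kept a n i
  let A : Matrix {i : Fin n // Kept a n i} {i : Fin n // Kept a n i} ℂ :=
    (pd a n w).submatrix (fun x => x.1) (fun x => x.1)
  have hA : A.IsHermitian := hMh.submatrix _
  -- the big matrix
  let e : Fin n ≃ {i : Fin n // Kept a n i} ⊕ {i : Fin n // ¬ Kept a n i} :=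
    (Equiv.sumCompl (fun i : Fin n => Kept a n i)).symm
  have hiso : ∀ i : {i : Fin n // ¬ Kept a n i}, Iso a i.1 := fun i => by
    have := i.2
    unfold Kept at this
    push Not at this
    exact this.2
  have h1 : Matrix.reindex e e (pd a n w) =
      Matrix.fromBlocks A 0 0 (Matrix.diagonal fun i : {i : Fin n // ¬ Kept a n i} =>
        ((w i.1 : ℝ) : ℂ)) := by
    ext i j
    rw [Matrix.reindex_apply, Matrix.submatrix_apply]
    rcases i with i | i <;> rcases j with j | j
    · rfl
    · have hne : i.1 ≠ j.1 := fun h => j.2 (h ▸ i.2)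
      have hz : a (0 + ((i.1 : Fin n) : ℕ)) (0 + ((j.1 : Fin n) : ℕ)) = 0 := by
        rw [Nat.zero_add, Nat.zero_add]; exact iso_col ha (hiso j) _
      simp only [e, Equiv.symm_symm, Equiv.sumCompl_apply_inl, Equiv.sumCompl_apply_inr, pd,
        Matrix.add_apply, blk, Matrix.of_apply, Matrix.diagonal_apply, Matrix.fromBlocks_apply₁₂,
        Matrix.zero_apply]
      rw [hz, if_neg hne, add_zero]
    · have hne : i.1 ≠ j.1 := fun h => i.2 (h ▸ j.2)
      have hz : a (0 + ((i.1 : Fin n) : ℕ)) (0 + ((j.1 : Fin n) : ℕ)) = 0 := by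
        rw [Nat.zero_add, Nat.zero_add]; exact iso_row ha (hiso i) _
      simp only [e, Equiv.symm_symm, Equiv.sumCompl_apply_inl, Equiv.sumCompl_apply_inr, pd,
        Matrix.add_apply, blk, Matrix.of_apply, Matrix.diagonal_apply, Matrix.fromBlocks_apply₂₁,
        Matrix.zero_apply]
      rw [hz, if_neg hne, add_zero]
    · have hz : a (0 + ((i.1 : Fin n) : ℕ)) (0 + ((j.1 : Fin n) : ℕ)) = 0 := by
        rw [Nat.zero_add, Nat.zero_add]; exact iso_row ha (hiso i) _
      simp only [e, Equiv.symm_symm, Equiv.sumCompl_apply_inr, pd,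
        Matrix.add_apply, blk, Matrix.of_apply, Matrix.diagonal_apply, Matrix.fromBlocks_apply₂₂]
      rw [hz, zero_add]
      by_cases hij : i = j
      · subst hij; simp
      · rw [if_neg hij, if_neg (fun h => hij (Subtype.ext h))]
  have hMr := Matrix.charpoly_reindex e (pd a n w)
  rw [h1] at hMr
  have hM1 := herm_roots hMh
  rw [← hMr, blk_roots A hA (fun i : {i : Fin n // ¬ Kept a n i} => w i.1)] at hM1
  -- the compressed matrix
  let e' : Fin (m + 1) ≃ {i : Fin n // Kept a n i} ⊕ Fin 1 :=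
    finSumFinEquiv.symm.trans (Equiv.sumCongr (kequiv a n).symm (Equiv.refl _))
  have hinl : ∀ x : {i : Fin n // Kept a n i}, ((e'.symm (Sum.inl x) : Fin (m + 1)) : ℕ) = cnt a n x.1 :=
    fun x => rfl
  have hinr : ∀ x : Fin 1, ((e'.symm (Sum.inr x) : Fin (m + 1)) : ℕ) = m := fun x => by
    have : ((e'.symm (Sum.inr x) : Fin (m + 1)) : ℕ) = m + x := rfl
    rw [this]; omega
  have hlt : ∀ x : {i : Fin n // Kept a n i}, cnt a n x.1 < cnt a n n := fun x =>
    ((kequiv a n) x).2
  have h2 : Matrix.reindex e' e' (pd (cpr a n) (m + 1) w') =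
      Matrix.fromBlocks A 0 0 (Matrix.diagonal fun i : Fin 1 => ((w' m : ℝ) : ℂ)) := by
    ext i j
    rw [Matrix.reindex_apply, Matrix.submatrix_apply]
    rcases i with i | i <;> rcases j with j | j
    · simp only [pd, Matrix.add_apply, blk, Matrix.of_apply, Matrix.diagonal_apply,
        Matrix.fromBlocks_apply₁₁, A, Matrix.submatrix_apply]
      rw [hinl, hinl]
      congr 1
      · simp only [Nat.zero_add, cpr]
        rw [if_pos ⟨hlt i, hlt j⟩, ix_cnt a n i.2, ix_cnt a n j.2]
      · by_cases hij : i = j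
        · subst hij
          rw [if_pos rfl, if_pos rfl, hw1 i.1 i.1.2 i.2]
        · rw [if_neg (fun h => hij (Sum.inl.inj (e'.symm.injective h))),
            if_neg (fun h => hij (Subtype.ext h))]
    · simp only [pd, Matrix.add_apply, blk, Matrix.of_apply, Matrix.diagonal_apply,
        Matrix.fromBlocks_apply₁₂, Matrix.zero_apply]
      rw [if_neg (fun h => by cases e'.symm.injective h), hinr, cpr, if_neg (by
        intro hc; have := hc.2; omega), add_zero]
    · simp only [pd, Matrix.add_apply, blk, Matrix.of_apply, Matrix.diagonal_apply,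
        Matrix.fromBlocks_apply₂₁, Matrix.zero_apply]
      rw [if_neg (fun h => by cases e'.symm.injective h), hinr, cpr, if_neg (by
        intro hc; have := hc.1; omega), add_zero]
    · have hij : i = j := Subsingleton.elim _ _
      subst hij
      simp only [pd, Matrix.add_apply, blk, Matrix.of_apply, Matrix.diagonal_apply,
        Matrix.fromBlocks_apply₂₂, if_true]
      rw [hinr, cpr, if_neg (by intro hc; have := hc.1; omega), zero_add]
  have hNr := Matrix.charpoly_reindex e' (pd (cpr a n) (m + 1) w')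
  rw [h2] at hNr
  have hN1 := herm_roots hNh
  rw [← hNr, blk_roots A hA (fun _ : Fin 1 => w' m)] at hN1
  -- pairs for the compressed matrix
  have key : ∀ x y : {i : Fin n // Kept a n i} ⊕ Fin 1, x ≠ y →
      g ≤ |Sum.elim hA.eigenvalues (fun _ : Fin 1 => w' m) x -
        Sum.elim hA.eigenvalues (fun _ : Fin 1 => w' m) y| := by
    intro x y hxy
    have q := E.pair_le (fun x : {i : Fin n // Kept a n i} ⊕ Fin 1 =>
      ((Sum.elim hA.eigenvalues (fun _ : Fin 1 => w' m) x : ℝ) : ℂ)) x y hxy
    rw [hN1] at q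
    obtain ⟨i, k, hne, hi, hk⟩ := E.two_mem _ _ _ q
    have hi' : eig (pd (cpr a n) (m + 1) w') i = Sum.elim hA.eigenvalues (fun _ : Fin 1 => w' m) x := by
      exact_mod_cast hi
    have hk' : eig (pd (cpr a n) (m + 1) w') k = Sum.elim hA.eigenvalues (fun _ : Fin 1 => w' m) y := by
      exact_mod_cast hk
    rw [← hi', ← hk']
    exact hN i k hne
  intro i k hik
  have q := E.pair_le (fun i => ((eig (pd a n w) i : ℝ) : ℂ)) i k hik
  rw [← hM1] at q
  obtain ⟨x, y, hne, hx, hy⟩ := E.two_mem _ _ _ q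
  have hx' : Sum.elim hA.eigenvalues (fun i : {i : Fin n // ¬ Kept a n i} => w i.1) x =
      eig (pd a n w) i := by exact_mod_cast hx
  have hy' : Sum.elim hA.eigenvalues (fun i : {i : Fin n // ¬ Kept a n i} => w i.1) y =
      eig (pd a n w) k := by exact_mod_cast hy
  rw [← hx', ← hy']
  rcases x with x | x <;> rcases y with y | y
  · have := key (Sum.inl x) (Sum.inl y) (fun h => hne (by rw [Sum.inl.inj h]))
    simp only [Sum.elim_inl] at this ⊢
    linarith
  · have h3 := key (Sum.inl x) (Sum.inr 0) (fun h => by cases h)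
    have h4 := hw2 y.1 y.1.2 y.2
    simp only [Sum.elim_inl, Sum.elim_inr] at h3 ⊢
    have h5 := abs_sub_abs_le_abs_sub (hA.eigenvalues x - w' m) (w y.1 - w' m)
    have e5 : hA.eigenvalues x - w' m - (w y.1 - w' m) = hA.eigenvalues x - w y.1 := by ring
    rw [e5] at h5
    linarith
  · have h3 := key (Sum.inl y) (Sum.inr 0) (fun h => by cases h)
    have h4 := hw2 x.1 x.1.2 x.2
    simp only [Sum.elim_inl, Sum.elim_inr] at h3 ⊢
    have h5 := abs_sub_abs_le_abs_sub (hA.eigenvalues y - w' m) (w x.1 - w' m)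
    have e5 : hA.eigenvalues y - w' m - (w x.1 - w' m) = hA.eigenvalues y - w x.1 := by ring
    rw [e5] at h5
    rw [abs_sub_comm (w x.1)]
    linarith
  · simp only [Sum.elim_inr]
    exact hw3 x.1 x.1.2 y.1 y.1.2 x.2 y.2 (fun h => hne (by
      have : x = y := Subtype.ext (Fin.ext h)
      rw [this]))

end Pool.Agent.H22.NL.SP
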