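import Pool.Agent.H22.NL.Sp

set_option autoImplicit false

/-! NLS-SS (helper63): semantics of the scan -/

namespace Pool.Agent.H22.NL.SS

open H94FG Pool.Agent.H22.NL

open Classical in
theorem filter_range (p : ℕ → Prop) (k : ℕ) :
    (List.range k).filter p = (List.range (Nat.count p k)).map (Nat.nth p) := by
  induction k with
  | zero => simp
  | succ k ih =>
    rw [List.range_succ, List.filter_append, ih, Nat.count_succ]
    by_cases h : p k
    · rw [if_pos h, List.range_succ, List.map_append]
      simp [h, Nat.nth_count]
    · rw [if_neg h]
      simp [h]

theorem lstep_iter (k : ℕ) (l : List (ℕ × ℂ × ℂ × ℂ)) (c : ℕ) :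
    lstep^[k] (l, c) = (l.drop k, c + min k l.length) := by
  induction k generalizing l c with
  | zero => simp
  | succ k ih =>
    rw [Function.iterate_succ_apply]
    cases l with
    | nil =>
      have : lstep ([], c) = ([], c) := rfl
      rw [this, ih]
      simp
    | cons b t =>
      have : lstep (b :: t, c) = (t, c + 1) := rfl
      rw [this, ih]
      simp only [List.drop_succ_cons, List.length_cons, Prod.mk.injEq, true_and]
      omega

open Classical in
/-- the remaining rows -/
noncomputable def rest (a : ℕ → ℕ → ℂ) (n k : ℕ) : List (ℕ × ℂ × ℂ × ℂ) :=
  ((List.range' k (n - k)).filter fun i => Kept a n i).map fun i => (i, tri a i)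

open Classical in
theorem scan_iter (a : ℕ → ℕ → ℂ) (n k : ℕ) (hk : k ≤ n) :
    sstep^[k] (0, enS a n, 0, []) = (k, rest a n k, Nat.count (Kept a n) k,
      (List.range k).map fun i => ((if Kept a n i then 1 else 0), Nat.count (Kept a n) i)) := by
  induction k with
  | zero =>
    rw [Function.iterate_zero, id_eq]
    unfold rest enS
    rw [Nat.sub_zero, ← List.range_eq_range']
    simp
  | succ k ih =>
    rw [Function.iterate_succ_apply', ih (by omega)]
    have hr : List.range' k (n - k) = k :: List.range' (k + 1) (n - (k + 1)) := by
      rw [show n - k = (n - (k + 1)) + 1 by omega, List.range'_succ]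
    rw [List.range_succ, List.map_append, Nat.count_succ]
    by_cases h : Kept a n k
    · have e : rest a n k = (k, tri a k) :: rest a n (k + 1) := by
        unfold rest
        rw [hr, List.filter_cons]
        simp [h]
      rw [e]
      unfold sstep
      simp [h]
    · have e : rest a n k = rest a n (k + 1) := by
        unfold rest
        rw [hr, List.filter_cons]
        simp [h]
      have hlt : ∀ b ∈ rest a n (k + 1), k < b.1 := by
        intro b hb
        unfold rest at hb
        rw [List.mem_map] at hb
        obtain ⟨i, hi, rfl⟩ := hb
        have := (List.mem_filter.1 hi).1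
        rw [List.mem_range'_1] at this
        simp only
        omega
      rw [e]
      unfold sstep
      cases hcs : rest a n (k + 1) with
      | nil => simp [h]
      | cons b t =>
        have hb := hlt b (by rw [hcs]; simp)
        have hb' : ¬ (b.1 - k = 0) := by omega
        simp [h, hb']

theorem main : S_SS := by
  classical
  intro n a
  have hf : (List.range n).filter (fun i => Kept a n i) =
      (List.range (cnt a n n)).map (ix a n) := by
    have := filter_range (Kept a n) n
    unfold cnt ix
    convert this
  have hen : enS a n = ((List.range (cnt a n n)).map (ix a n)).map fun i => (i, tri a i) := by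
    rw [← hf]
    unfold enS
    congr!
  refine ⟨?_, ?_, fun i => if Kept a n i then 1 else 0, ?_, ?_⟩
  · unfold len
    rw [lstep_iter, hen]
    simp only [List.length_map, List.length_range, zero_add]
    apply min_eq_right
    unfold cnt
    exact Nat.count_le _
  · rw [hen, List.map_map, List.map_map]
    rfl
  · intro i _
    show (if Kept a n i then 1 else 0) = 0 ↔ ¬ Kept a n i
    split_ifs with h <;> simp [h]
  · unfold scan
    rw [scan_iter a n n le_rfl]
    simp only
    refine List.map_congr_left fun i _ => ?_
    unfold cnt
    congr!

end Pool.Agent.H22.NL.SS
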