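import Pool.Agent.H94.FG.SpecC
import Pool.Agent.H22.NL.Fin

set_option autoImplicit false
open scoped BigOperators Polynomial
open Polynomial

/-!
# Project NLS: sparse matrices, cost `C (n + nnz(A) (log n + 1) ^ 4)`

The isolated sites of `A` (rows without nonzero entries) are removed, one isolated site is added at
the end, the algorithm is applied, and the isolated sites of `A` are put into the gap around the
eigenvalue of the additional site. The matrix is given in sparse form, by its nonzero rows.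
-/

noncomputable section
namespace Pool.Agent.H22.NL

open H94FG

/-- the site `i` is isolated: the row `i` of `a` is zero -/
def Iso (a : ℕ → ℕ → ℂ) (i : ℕ) : Prop :=
  a i i = 0 ∧ a i (i + 1) = 0 ∧ ∀ j, j + 1 = i → a j i = 0

/-- `i` is not an isolated site (all `i ≥ n` are kept, to have an infinite set) -/
def Kept (a : ℕ → ℕ → ℂ) (n i : ℕ) : Prop := i < n → ¬ Iso a i

/-- number of kept sites before `i` -/
def cnt (a : ℕ → ℕ → ℂ) (n i : ℕ) : ℕ := open Classical in Nat.count (Kept a n) i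

/-- the kept site number `u` -/
def ix (a : ℕ → ℕ → ℂ) (n u : ℕ) : ℕ := Nat.nth (Kept a n) u

/-- the compressed array -/
def cpr (a : ℕ → ℕ → ℂ) (n : ℕ) : ℕ → ℕ → ℂ := fun u v =>
  if u < cnt a n n ∧ v < cnt a n n then a (ix a n u) (ix a n v) else 0

/-- data of the site `i` -/
def tri (a : ℕ → ℕ → ℂ) (i : ℕ) : ℂ × ℂ × ℂ := (a i i, a i (i + 1), a (i + 1) i)

/-- IX (no hypotheses). -/
def S_IX : Prop := ∀ (a : ℕ → ℕ → ℂ) (n : ℕ), HT a → (∀ i j, n ≤ i ∨ n ≤ j → a i j = 0) →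
  HT (cpr a n) ∧ (∀ u < cnt a n n, ix a n u < n ∧ tri (cpr a n) u = tri a (ix a n u)) ∧
    tri (cpr a n) (cnt a n n) = (0, 0, 0)

/-- block of `a` plus a diagonal matrix -/
def pd (a : ℕ → ℕ → ℂ) (n : ℕ) (w : ℕ → ℝ) : Matrix (Fin n) (Fin n) ℂ :=
  blk a 0 n + Matrix.diagonal fun i : Fin n => ((w i : ℝ) : ℂ)

/-- SP (no hypotheses). Spectrum of the compressed matrix. Proof: with
`Equiv.sumCompl` the matrix of size `n` is a block diagonal matrix with the blocks
`M|kept` and a diagonal matrix, and the matrix of size `m + 1` (`m = cnt a n n`) is a block diagonal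
matrix with the blocks `M|kept` (bijection `cnt`, `Nat.nth_count`) and `w' m`; so the roots of the
characteristic polynomials are `R + V` and `R + {w' m}`. Cf. `Pool/Agent/H22/NL/E.lean`. -/
def S_SP : Prop := ∀ (a : ℕ → ℕ → ℂ) (n : ℕ), HT a → (∀ i j, n ≤ i ∨ n ≤ j → a i j = 0) →
  ∀ (w w' : ℕ → ℝ) (g h : ℝ), h ≤ g / 2 → 0 ≤ h →
    (∀ i < n, Kept a n i → w i = w' (cnt a n i)) →
    (∀ i < n, ¬ Kept a n i → |w i - w' (cnt a n n)| ≤ g / 2) →
    (∀ i < n, ∀ j < n, ¬ Kept a n i → ¬ Kept a n j → i ≠ j → h ≤ |w i - w j|) →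
    (∀ i j, i ≠ j → g ≤ |eig (pd (cpr a n) (cnt a n n + 1) w') i -
      eig (pd (cpr a n) (cnt a n n + 1) w') j|) →
    ∀ i j, i ≠ j → h ≤ |eig (pd a n w) i - eig (pd a n w) j|

/-- NZ (no hypotheses). The number of kept sites is at most the number of nonzero entries. -/
def S_NZ : Prop := ∀ (n : ℕ) (A : Matrix (Fin n) (Fin n) ℂ), A.IsHermitian →
  cnt (entry A) n n ≤ (Finset.univ.filter fun p : Fin n × Fin n => A p.1 p.2 ≠ 0).card

/-! ### The program -/

/-- The sparse input data: the list of the `(j, A_{j,j}, A_{j,j+1}, A_{j+1,j})` for all `j < n` for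
which the row `j` of `A` is not zero (`j = 0, ..., n - 1`, in increasing order). -/
def enS (a : ℕ → ℕ → ℂ) (n : ℕ) : List (ℕ × ℂ × ℂ × ℂ) :=
  open Classical in ((List.range n).filter fun i => Kept a n i).map fun i => (i, tri a i)

/-- one step of the computation of the length -/
def lstep (s : List (ℕ × ℂ × ℂ × ℂ) × ℕ) : List (ℕ × ℂ × ℂ × ℂ) × ℕ :=
  H94FG.caseList s.1 s fun _ t => (t, s.2 + 1)

/-- length of the list `l` (if it is at most `n`) -/
def len (n : ℕ) (l : List (ℕ × ℂ × ℂ × ℂ)) : ℕ := (lstep^[n] (l, 0)).2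

/-- state of the scan: index of the site, remaining nonzero rows, number of nonzero rows before, and
the list of the flags (`1` for a nonzero row) and of the numbers of nonzero rows before -/
abbrev St := ℕ × List (ℕ × ℂ × ℂ × ℂ) × ℕ × List (ℕ × ℕ)

def sstep (s : St) : St :=
  H94FG.caseList s.2.1 (s.1 + 1, s.2.1, s.2.2.1, s.2.2.2 ++ [(0, s.2.2.1)]) fun b t =>
    if b.1 - s.1 = 0 then (s.1 + 1, t, s.2.2.1 + 1, s.2.2.2 ++ [(1, s.2.2.1)])
    else (s.1 + 1, s.2.1, s.2.2.1, s.2.2.2 ++ [(0, s.2.2.1)])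

def scan (n : ℕ) (l : List (ℕ × ℂ × ℂ × ℂ)) : List (ℕ × ℕ) := (sstep^[n] (0, l, 0, [])).2.2.2

/-- `n` as a complex number -/
def nc (n : ℕ) : ℂ := ((rlC n).drop (n - 1)).headD 1

/-- the input for the program `f` -/
def inS (p : ℕ × ℂ × List (ℕ × ℂ × ℂ × ℂ)) : ℕ × ℂ × List (ℂ × ℂ × ℂ) :=
  (len p.1 p.2.2 + 1, p.2.1 / 2, (p.2.2.map fun q => q.2) ++ [(0, 0, 0)])

/-- diagonal entry of the output, from the output `E` of `f`, the number `m` of nonzero rows,
`c = n`, the flag and the number `q` of the site, and `r = i + 1` -/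
def outS (E : List ℂ) (m : ℕ) (c : ℂ) (q : ℕ × ℕ) (r : ℂ) : ℂ :=
  if q.1 = 0 then (E.drop m).headD 0 / 2 + 1 / (2 ^ 121 * c ^ 47) * r else (E.drop q.2).headD 0 / 2

/-- **The algorithm for sparse matrices**, with the program `f` as a subroutine. -/
def algoS (f : ℕ × ℂ × List (ℂ × ℂ × ℂ) → List ℂ) (p : ℕ × ℂ × List (ℕ × ℂ × ℂ × ℂ)) : List ℂ :=
  List.zipWith (outS (f (inS p)) (len p.1 p.2.2) (nc p.1)) (scan p.1 p.2.2) (rlC p.1)

/-- SS (no hypotheses). Result of the scan: induction on the number of steps, with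
`Nat.count_succ`, `Nat.nth_count`. -/
def S_SS : Prop := ∀ (n : ℕ) (a : ℕ → ℕ → ℂ),
  len n (enS a n) = cnt a n n ∧
  ((enS a n).map fun q => q.2) = ((List.range (cnt a n n)).map fun u => tri a (ix a n u)) ∧
  ∃ fl : ℕ → ℕ, (∀ i < n, fl i = 0 ↔ ¬ Kept a n i) ∧
    scan n (enS a n) = (List.range n).map fun i => (fl i, cnt a n i)

/-- SC (may use S_CRL). Cost of the program. -/
def S_SC : Prop := ∀ (f : ℕ × ℂ × List (ℂ × ℂ × ℂ) → List ℂ)
  (cost : ℕ × ℂ × List (ℂ × ℂ × ℂ) → ℕ), Alg f cost →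
    ∃ K : ℕ, Alg (algoS f) (fun p => cost (inS p) + K * (p.1 + 1))

end Pool.Agent.H22.NL
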