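import Pool.Agent.H22.NL.Sp

set_option autoImplicit false
open scoped BigOperators Polynomial
open Polynomial

/-!
# Project NLS: assembly of the version for sparse matrices
-/

noncomputable section
namespace Pool.Agent.H22.NL.SpFin

open H94FG

theorem HT_entry {n : ℕ} (A : Matrix (Fin n) (Fin n) ℂ) (hA : A.IsHermitian)
    (hA3 : ∀ i j : Fin n, (i : ℕ) + 1 < j ∨ (j : ℕ) + 1 < i → A i j = 0) : HT (entry A) :=
  HT_ent ⟨A, 1, hA, hA3, one_pos⟩

theorem entry_out {n : ℕ} (A : Matrix (Fin n) (Fin n) ℂ) (i j : ℕ) (h : n ≤ i ∨ n ≤ j) :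
    entry A i j = 0 := by
  unfold entry
  rw [dif_neg (by omega)]

theorem blk_entry {n : ℕ} (A : Matrix (Fin n) (Fin n) ℂ) : blk (entry A) 0 n = A := by
  ext i j
  simp [blk, entry]

theorem entry_blk (a : ℕ → ℕ → ℂ) (N : ℕ) (h : ∀ i j, N ≤ i ∨ N ≤ j → a i j = 0) :
    entry (blk a 0 N) = a := by
  funext i j
  unfold entry
  by_cases hij : i < N ∧ j < N
  · rw [dif_pos hij]
    simp [blk]
  · rw [dif_neg hij, h i j (by omega)]

theorem herm_blk (a : ℕ → ℕ → ℂ) (ha : HT a) (N : ℕ) : (blk a 0 N).IsHermitian := by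
  ext i j
  rw [Matrix.conjTranspose_apply]
  simp only [blk, Matrix.of_apply]
  rw [ha.herm (0 + i) (0 + j)]
  simp

theorem tri_blk (a : ℕ → ℕ → ℂ) (ha : HT a) (N : ℕ) (i j : Fin N)
    (h : (i : ℕ) + 1 < j ∨ (j : ℕ) + 1 < i) : blk a 0 N i j = 0 := by
  simp only [blk, Matrix.of_apply]
  rcases h with h | h
  · exact ha.tri _ _ (by omega)
  · have := ha.herm (0 + j) (0 + i)
    rw [this, ha.tri _ _ (by omega)]
    simp

theorem encode_eq (a : ℕ → ℕ → ℂ) (N : ℕ) (h : ∀ i j, N ≤ i ∨ N ≤ j → a i j = 0) :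
    encode (blk a 0 N) = (List.range N).map (tri a) := by
  unfold encode
  rw [entry_blk a N h]
  apply List.ext_getElem
  · simp
  · intro i h1 h2
    simp [tri]

theorem nc_eq (n : ℕ) (hn : 1 ≤ n) : nc n = n := by
  unfold nc rlC
  obtain ⟨m, rfl⟩ : ∃ m, n = m + 1 := ⟨n - 1, by omega⟩
  rw [show m + 1 - 1 = m by omega, List.range_succ, List.map_append, List.drop_left' (by simp)]
  simp

theorem headD_drop_ofFn {N : ℕ} (e : Fin N → ℂ) (u : ℕ) (hu : u < N) :
    ((List.ofFn e).drop u).headD 0 = e ⟨u, hu⟩ := by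
  rw [List.headD_eq_head?_getD, List.head?_drop]
  simp [hu]

theorem cnt_mono (a : ℕ → ℕ → ℂ) (n : ℕ) {i j : ℕ} (h : i ≤ j) : cnt a n i ≤ cnt a n j := by
  classical
  unfold cnt
  convert Nat.count_monotone (Kept a n) h

theorem cnt_le (a : ℕ → ℕ → ℂ) (n i : ℕ) : cnt a n i ≤ i := by
  classical
  unfold cnt
  convert Nat.count_le (p := Kept a n) (n := i)

theorem cost_le (C K m z n : ℕ) (hn : 1 ≤ n) (hm : m ≤ n) (hz : m ≤ z) :
    C * (m + 1) * (Nat.log 2 (m + 1) + 1) ^ 4 + K * (n + 1) ≤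
      (33 * C + 2 * K) * (n + z * (Nat.log 2 n + 1) ^ 4) := by
  have hL : 1 ≤ (Nat.log 2 n + 1) ^ 4 := Nat.one_le_pow _ _ (by omega)
  set L := (Nat.log 2 n + 1) ^ 4 with hLdef
  have h1 : K * (n + 1) ≤ 2 * K * n := by nlinarith
  have h2 : C * (m + 1) * (Nat.log 2 (m + 1) + 1) ^ 4 ≤ 33 * C * (n + z * L) := by
    rcases Nat.eq_zero_or_pos m with h0 | h0
    · subst h0
      simp only [zero_add, Nat.log_one_right, mul_one, one_pow]
      nlinarith [Nat.zero_le (C * (z * L)), Nat.zero_le C]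
    · have h3 : Nat.log 2 (m + 1) ≤ Nat.log 2 n + 1 := by
        calc Nat.log 2 (m + 1) ≤ Nat.log 2 (n * 2) := Nat.log_mono_right (by omega)
          _ = Nat.log 2 n + 1 := Nat.log_mul_base (by norm_num) (by omega)
      have h4 : (Nat.log 2 (m + 1) + 1) ^ 4 ≤ 16 * L := by
        calc (Nat.log 2 (m + 1) + 1) ^ 4 ≤ (2 * (Nat.log 2 n + 1)) ^ 4 :=
              Nat.pow_le_pow_left (by omega) 4
          _ = 16 * L := by rw [hLdef]; ring
      calc C * (m + 1) * (Nat.log 2 (m + 1) + 1) ^ 4 ≤ C * (2 * z) * (16 * L) :=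
            Nat.mul_le_mul (Nat.mul_le_mul_left _ (by omega)) h4
        _ ≤ 33 * C * (n + z * L) := by nlinarith [Nat.zero_le (C * (z * L)), Nat.zero_le (C * n)]
  calc _ ≤ 33 * C * (n + z * L) + 2 * K * n := Nat.add_le_add h2 h1
    _ ≤ (33 * C + 2 * K) * (n + z * L) := by nlinarith [Nat.zero_le (K * (z * L))]

/-- the statement for dense matrices -/
def S_dense : Prop :=
    ∃ (f : ℕ × ℂ × List (ℂ × ℂ × ℂ) → List ℂ) (cost : ℕ × ℂ × List (ℂ × ℂ × ℂ) → ℕ) (C : ℕ),
      Alg f cost ∧ ∀ n : ℕ, 1 ≤ n → ∀ A : Matrix (Fin n) (Fin n) ℂ, A.IsHermitian →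
        (∀ i j : Fin n, (i : ℕ) + 1 < j ∨ (j : ℕ) + 1 < i → A i j = 0) → ∀ δ : ℝ, 0 < δ →
          cost (n, (δ : ℂ), encode A) ≤ C * n * (Nat.log 2 n + 1) ^ 4 ∧
          ∃ e : Fin n → ℝ, f (n, (δ : ℂ), encode A) = (List.ofFn fun i => (e i : ℂ)) ∧
            (∀ i, |e i| ≤ 1) ∧
            ∃ hM : (A + (δ : ℂ) • Matrix.diagonal fun i => ((e i : ℝ) : ℂ)).IsHermitian,
              ∀ i j, i ≠ j → 1 / 2 ^ 73 * δ / (n : ℝ) ^ 46 ≤
                |hM.eigenvalues i - hM.eigenvalues j|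

/-- number of nonzero entries -/
def nnz {n : ℕ} (A : Matrix (Fin n) (Fin n) ℂ) : ℕ :=
  (Finset.univ.filter fun p : Fin n × Fin n => A p.1 p.2 ≠ 0).card

theorem sparse (hD : S_dense) (hIX : S_IX) (hSP : S_SP) (hNZ : S_NZ) (hSS : S_SS) (hSC : S_SC) :
    ∃ (f : ℕ × ℂ × List (ℕ × ℂ × ℂ × ℂ) → List ℂ)
      (cost : ℕ × ℂ × List (ℕ × ℂ × ℂ × ℂ) → ℕ) (C : ℕ),
      Alg f cost ∧ ∀ n : ℕ, 1 ≤ n → ∀ A : Matrix (Fin n) (Fin n) ℂ, A.IsHermitian →
        (∀ i j : Fin n, (i : ℕ) + 1 < j ∨ (j : ℕ) + 1 < i → A i j = 0) → ∀ δ : ℝ, 0 < δ →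
          cost (n, (δ : ℂ), enS (entry A) n) ≤ C * (n + nnz A * (Nat.log 2 n + 1) ^ 4) ∧
          ∃ e : Fin n → ℝ, f (n, (δ : ℂ), enS (entry A) n) = (List.ofFn fun i => (e i : ℂ)) ∧
            (∀ i, |e i| ≤ 1) ∧
            ∃ hM : (A + (δ : ℂ) • Matrix.diagonal fun i => ((e i : ℝ) : ℂ)).IsHermitian,
              ∀ i j, i ≠ j → δ / (2 ^ 121 * (n : ℝ) ^ 47) ≤
                |hM.eigenvalues i - hM.eigenvalues j| := by
  obtain ⟨f0, cost0, C0, hf0, H0⟩ := hD
  obtain ⟨K, hK⟩ := hSC f0 cost0 hf0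
  refine ⟨algoS f0, _, 33 * C0 + 2 * K, hK, fun n hn A hA hA3 δ hδ => ?_⟩
  set a := entry A with ha
  have hHT : HT a := HT_entry A hA hA3
  have hout : ∀ i j, n ≤ i ∨ n ≤ j → a i j = 0 := entry_out A
  set m := cnt a n n with hm
  have hmn : m ≤ n := cnt_le a n n
  have hn' : (0 : ℝ) < n := by exact_mod_cast hn
  obtain ⟨hI1, hI2, hI3⟩ := hIX a n hHT hout
  have hcout : ∀ i j, m + 1 ≤ i ∨ m + 1 ≤ j → cpr a n i j = 0 := by
    intro i j hij
    unfold cpr
    rw [if_neg (by omega)]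
  obtain ⟨hS1, hS2, fl, hS3, hS4⟩ := hSS n a
  -- the input of the program
  have hin : inS (n, (δ : ℂ), enS a n) = (m + 1, ((δ / 2 : ℝ) : ℂ), encode (blk (cpr a n) 0 (m + 1))) := by
    unfold inS
    simp only
    rw [hS1, hS2, encode_eq _ _ hcout, List.range_succ, List.map_append, List.map_singleton, hI3]
    have e1 : (List.range m).map (tri (cpr a n)) =
        (List.range m).map fun u => tri a (ix a n u) := by
      apply List.map_congr_left
      intro u hu
      exact (hI2 u (List.mem_range.1 hu)).2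
    rw [e1]
    push_cast
    rfl
  obtain ⟨hc, e', he1, he2, hM', hg⟩ := H0 (m + 1) (by omega) (blk (cpr a n) 0 (m + 1))
    (herm_blk _ hI1 _) (fun i j h => tri_blk _ hI1 _ i j h) (δ / 2) (by positivity)
  rw [← hin] at hc he1
  refine ⟨?_, ?_⟩
  · refine le_trans (Nat.add_le_add_right hc _) ?_
    exact cost_le C0 K m (nnz A) n hn hmn (hNZ n A hA)
  -- the diagonal entries
  set η : ℝ := 1 / (2 ^ 121 * (n : ℝ) ^ 47) with hη
  have hη0 : 0 < η := by positivity
  set ev : ℕ → ℝ := fun i => if fl i = 0 then e' (Fin.last m) / 2 + η * (i + 1) else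
    (if h : cnt a n i < m + 1 then e' ⟨cnt a n i, h⟩ / 2 else 0) with hev
  have hkc : ∀ i < n, cnt a n i < m + 1 := fun i hi => by
    have := cnt_mono a n hi.le
    omega
  have hsmall : ∀ i < n, η * (i + 1) ≤ 1 / (2 ^ 121 * (n : ℝ) ^ 46) := by
    intro i hi
    have h1 : ((i : ℝ) + 1) ≤ n := by exact_mod_cast hi
    calc η * (i + 1) ≤ η * n := by gcongr
      _ = 1 / (2 ^ 121 * (n : ℝ) ^ 46) := by rw [hη]; field_simp
  have hg2 : 1 / (2 ^ 121 * (n : ℝ) ^ 46) ≤ 1 / (2 ^ 75 * ((m : ℝ) + 1) ^ 46) := by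
    have h1 : ((m : ℝ) + 1) ≤ 2 * n := by
      have : m + 1 ≤ 2 * n := by omega
      exact_mod_cast this
    have h2 : ((m : ℝ) + 1) ^ 46 ≤ (2 * n) ^ 46 := by gcongr
    apply one_div_le_one_div_of_le (by positivity)
    calc 2 ^ 75 * ((m : ℝ) + 1) ^ 46 ≤ 2 ^ 75 * (2 * n) ^ 46 := by gcongr
      _ = 2 ^ 121 * (n : ℝ) ^ 46 := by ring
  refine ⟨fun i => ev i, ?_, ?_, ?_⟩
  · -- output
    unfold algoS
    simp only
    rw [hS1, hS4, he1, nc_eq n hn]
    apply List.ext_getElem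
    · simp [rlC]
    · intro i h1 h2
      have hi : i < n := by simpa using h2
      have h3 : ∀ h : i < (rlC n).length, (rlC n)[i] = (i : ℂ) + 1 := by
        intro h
        unfold rlC
        rw [List.getElem_map, List.getElem_range]
      rw [List.getElem_zipWith, List.getElem_map, List.getElem_range, h3, List.getElem_ofFn]
      unfold outS
      simp only [hev]
      by_cases hf : fl i = 0
      · rw [if_pos hf, if_pos hf, headD_drop_ofFn _ m (by omega), hη]
        push_cast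
        rfl
      · rw [if_neg hf, if_neg hf, headD_drop_ofFn _ _ (hkc i hi), dif_pos (hkc i hi)]
        push_cast
        rfl
  · -- bound
    intro i
    simp only [hev]
    by_cases hf : fl i = 0
    · rw [if_pos hf]
      have h1 := hsmall i i.2
      have h2 : 1 / (2 ^ 121 * (n : ℝ) ^ 46) ≤ 1 / 2 := by
        apply one_div_le_one_div_of_le (by norm_num)
        have : (1 : ℝ) ≤ (n : ℝ) ^ 46 := one_le_pow₀ (by exact_mod_cast hn)
        nlinarith
      have h3 := abs_le.1 (he2 (Fin.last m))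
      have h4 : 0 ≤ η * ((i : ℕ) + 1) := by positivity
      rw [abs_le]
      constructor <;> linarith
    · rw [if_neg hf, dif_pos (hkc i i.2)]
      have h3 := abs_le.1 (he2 ⟨cnt a n i, hkc i i.2⟩)
      rw [abs_le]
      constructor <;> linarith
  · -- gaps
    set w : ℕ → ℝ := fun i => δ * ev i with hw
    set w' : ℕ → ℝ := fun u => if h : u < m + 1 then δ / 2 * e' ⟨u, h⟩ else 0 with hw'
    have hpd : A + (δ : ℂ) • (Matrix.diagonal fun i : Fin n => ((ev i : ℝ) : ℂ)) = pd a n w := by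
      unfold pd
      rw [ha, blk_entry]
      congr 1
      ext i j
      by_cases h : i = j
      · subst h; simp [hw]
      · simp [Matrix.diagonal_apply_ne _ h]
    have hpd' : blk (cpr a n) 0 (m + 1) + ((δ / 2 : ℝ) : ℂ) •
        (Matrix.diagonal fun i : Fin (m + 1) => ((e' i : ℝ) : ℂ)) = pd (cpr a n) (m + 1) w' := by
      unfold pd
      congr 1
      ext i j
      by_cases h : i = j
      · subst h
        simp only [Matrix.smul_apply, Matrix.diagonal_apply_eq, hw', smul_eq_mul]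
        rw [dif_pos i.2]
        push_cast
        rfl
      · simp [Matrix.diagonal_apply_ne _ h]
    have hlast : w' m = δ / 2 * e' (Fin.last m) := by
      simp only [hw']
      rw [dif_pos (Nat.lt_succ_self m)]
      rfl
    have hgap := hSP a n hHT hout w w' (1 / 2 ^ 73 * (δ / 2) / ((m : ℝ) + 1) ^ 46)
      (δ / (2 ^ 121 * (n : ℝ) ^ 47)) ?_ (by positivity) ?_ ?_ ?_ ?_
    · -- conclusion
      have hH : (pd a n w).IsHermitian := by
        rw [← hpd]
        refine hA.add ?_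
        refine Matrix.IsHermitian.ext fun i k => ?_
        by_cases h : i = k
        · subst h; simp
        · simp [Matrix.diagonal_apply_ne _ h, Matrix.diagonal_apply_ne _ (Ne.symm h)]
      have : ∀ (M : Matrix (Fin n) (Fin n) ℂ), M = pd a n w → ∃ hM : M.IsHermitian,
          ∀ i k, i ≠ k → δ / (2 ^ 121 * (n : ℝ) ^ 47) ≤
            |hM.eigenvalues i - hM.eigenvalues k| := by
        rintro M rfl
        refine ⟨hH, fun i k hik => ?_⟩
        have := hgap i k hik
        rw [eig_eq hH, eig_eq hH] at this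
        exact this
      exact this _ hpd
    · -- h ≤ g / 2
      have h1 : 1 / (2 ^ 121 * (n : ℝ) ^ 47) ≤ 1 / (2 ^ 121 * (n : ℝ) ^ 46) := by
        apply one_div_le_one_div_of_le (by positivity)
        have : (n : ℝ) ^ 46 ≤ (n : ℝ) ^ 47 := pow_le_pow_right₀ (by exact_mod_cast hn) (by norm_num)
        gcongr
      have h2 := mul_le_mul_of_nonneg_left (h1.trans hg2) hδ.le
      calc δ / (2 ^ 121 * (n : ℝ) ^ 47) = δ * (1 / (2 ^ 121 * (n : ℝ) ^ 47)) := by ring
        _ ≤ δ * (1 / (2 ^ 75 * ((m : ℝ) + 1) ^ 46)) := h2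
        _ = 1 / 2 ^ 73 * (δ / 2) / ((m : ℝ) + 1) ^ 46 / 2 := by field_simp
    · -- kept sites
      intro i hi hk
      have hf : fl i ≠ 0 := fun h => (hS3 i hi).1 h hk
      simp only [hw, hw', hev]
      rw [if_neg hf, dif_pos (hkc i hi)]
      rw [dif_pos (hkc i hi)]
      ring
    · -- isolated sites are near
      intro i hi hk
      have hf : fl i = 0 := (hS3 i hi).2 hk
      rw [← hm, hlast]
      simp only [hw, hev]
      rw [if_pos hf]
      have h1 : δ * (e' (Fin.last m) / 2 + η * (i + 1)) - δ / 2 * e' (Fin.last m) =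
          δ * (η * (i + 1)) := by ring
      rw [h1, abs_of_nonneg (by positivity)]
      calc δ * (η * (i + 1)) ≤ δ * (1 / (2 ^ 75 * ((m : ℝ) + 1) ^ 46)) :=
            mul_le_mul_of_nonneg_left ((hsmall i hi).trans hg2) hδ.le
        _ = 1 / 2 ^ 73 * (δ / 2) / ((m : ℝ) + 1) ^ 46 / 2 := by field_simp
    · -- isolated sites are distinct
      intro i hi j hj hki hkj hij
      have hfi : fl i = 0 := (hS3 i hi).2 hki
      have hfj : fl j = 0 := (hS3 j hj).2 hkj
      simp only [hw, hev]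
      rw [if_pos hfi, if_pos hfj]
      have h1 : δ * (e' (Fin.last m) / 2 + η * (i + 1)) - δ * (e' (Fin.last m) / 2 + η * (j + 1)) =
          δ * η * ((i : ℝ) - j) := by ring
      rw [h1, abs_mul, abs_of_nonneg (by positivity : 0 ≤ δ * η)]
      have h2 : (1 : ℝ) ≤ |(i : ℝ) - j| := by
        have h3 : ((i : ℤ) - j) ≠ 0 := by
          intro h
          apply hij
          omega
        have h4 : (1 : ℤ) ≤ |(i : ℤ) - j| := Int.one_le_abs h3
        exact_mod_cast h4
      calc δ / (2 ^ 121 * (n : ℝ) ^ 47) = δ * η * 1 := by rw [hη]; ring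
        _ ≤ δ * η * |(i : ℝ) - j| := by gcongr
    · -- gaps of the compressed matrix
      intro i j hij
      rw [← hpd']
      have h1 := hg i j hij
      rw [eig_eq hM', eig_eq hM']
      push_cast at h1 ⊢
      exact h1

end Pool.Agent.H22.NL.SpFin
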