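import Pool.Agent.H22.NL.Defs

set_option autoImplicit false
open scoped BigOperators Polynomial
open Polynomial

/-!
# Project NL: statements of the parts
-/

noncomputable section
namespace Pool.Agent.H22.NL

/-- the first `N` members of a sequence of quantities -/
def seg {X : Type} (N : ℕ) (a : ℕ → X → ℂ) : Set (X → ℂ) := {f | ∃ i < N, f = a i}

/-! ### Analysis -/

/-- crossing parameters (port from the library, `exists_tau` and `gap_core`) -/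
def S_G1 : Prop := ∀ a : ℕ → ℕ → ℂ, HT a → ∀ n : ℕ, ∃ (m : ℕ) (τ : Fin m → ℝ), 2 * m ≤ n ^ 3 ∧
  ∀ t y : ℝ, 0 ≤ y → (∀ r, y ≤ |t - τ r|) →
    ∀ i j : Fin n, i ≠ j → y ≤ |eig (TT a n t) i - eig (TT a n t) j|

/-- pair sums of convex functions are convex -/
def S_A1 : Prop := ∀ (n : ℕ) (M1 M2 : Matrix (Fin n) (Fin n) ℂ) (ψ : ℝ → ℝ),
  M1.IsHermitian → M2.IsHermitian → ConvexOn ℝ Set.univ ψ →
  ∀ α β : ℝ, 0 ≤ α → 0 ≤ β → α + β = 1 →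
    PS ψ ((α : ℂ) • M1 + (β : ℂ) • M2) ≤ α * PS ψ M1 + β * PS ψ M2

/-- a small gap at the midpoint and large gaps at the end points give a large second difference -/
def S_A2 : Prop := ∀ (n : ℕ) (M1 M2 : Matrix (Fin n) (Fin n) ℂ) (η : ℝ),
  M1.IsHermitian → M2.IsHermitian → 0 < η →
  (∀ i j, i ≠ j → η ≤ |eig M1 i - eig M1 j|) → (∀ i j, i ≠ j → η ≤ |eig M2 i - eig M2 j|) →
  (∃ i j, i ≠ j ∧ |eig ((1 / 2 : ℂ) • (M1 + M2)) i - eig ((1 / 2 : ℂ) • (M1 + M2)) j| ≤ η / 4) →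
    2 * PS (fun x => |x|) ((1 / 2 : ℂ) • (M1 + M2)) + 3 * η ≤
      PS (fun x => |x|) M1 + PS (fun x => |x|) M2

/-- Weyl: eigenvalues move by at most the size of a diagonal perturbation -/
def S_A3 : Prop := ∀ (n : ℕ) (M : Matrix (Fin n) (Fin n) ℂ) (d : Fin n → ℝ) (c : ℝ),
  M.IsHermitian → (∀ i, |d i| ≤ c) →
    ∃ s : Equiv.Perm (Fin n), ∀ i,
      |eig (M + Matrix.diagonal fun i => ((d i : ℝ) : ℂ)) (s i) - eig M i| ≤ c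

/-- convexity of the corrected potential -/
def S_A4 : Prop := ∀ K : ℕ, ConvexOn ℝ Set.univ
  (fun x : ℝ => phi K x + (1 / 2) ^ K * x ^ 2 / 2 - Real.sqrt (1 + x ^ 2))

/-- the potential is Lipschitz -/
def S_A4b : Prop := ∀ (K : ℕ) (x y : ℝ), |phi K x - phi K y| ≤ 2 * 8 ^ K * |x - y|

/-- second difference of the sum of squares -/
def S_A5 : Prop := ∀ a : ℕ → ℕ → ℂ, HT a → ∀ (n : ℕ) (t h : ℝ),
  D2 (fun s => PS (fun x => x ^ 2) (TT a n s)) t h ≤ 2 * h ^ 2 * n ^ 4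

/-- detection of small gaps by the potential -/
def S_A6 : Prop := ∀ a : ℕ → ℕ → ℂ, HT a → ∀ (n K : ℕ) (t h : ℝ), 1 ≤ n → 0 < h →
  32 * n ^ 12 ≤ 2 ^ K →
  (∃ i j : Fin n, i ≠ j ∧ |eig (TT a n t) i - eig (TT a n t) j| ≤ h / (16 * n ^ 3)) →
    (n : ℝ) ^ 2 / 2 ≤ D2 (fun s => PS (fun x => phi K (x / (h / (4 * n ^ 5)))) (TT a n s)) t h

/-- bound for the initial second difference -/
def S_A7 : Prop := ∀ a : ℕ → ℕ → ℂ, HT a → ∀ (n K : ℕ) (t h ε : ℝ), 0 ≤ h → 0 < ε →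
  D2 (fun s => PS (fun x => phi K (x / ε)) (TT a n s)) t h ≤ 8 * 8 ^ K * n ^ 3 * h / ε

/-- the search decreases the second difference by the factor `16` in every round -/
def S_A8 : Prop := ∀ (W : ℂ → ℂ) (Φ : ℝ → ℝ), (∀ t : ℝ, W t = ((Real.exp (Φ t) : ℝ) : ℂ)) →
  ∀ (t0 h0 : ℝ) (J : ℕ), 0 ≤ h0 → ∃ s : ℝ, srch W t0 h0 J = (s : ℂ) ∧ |s - t0| ≤ h0 ∧
    D2 Φ s (h0 / 4 ^ J) ≤ D2 Φ t0 h0 / 16 ^ J

/-- correctness of the search for the potential -/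
def S_A9 : Prop := ∀ a : ℕ → ℕ → ℂ, HT a → ∀ (j : ℕ) (δ c : ℝ) (W : ℂ → ℂ), 0 < δ →
  (∀ t : ℝ, W t = ((Real.exp (c + PS (fun x => phi (5 + 12 * j)
    (x / (δ / (2 * 2 ^ j) / 4 ^ (11 + 21 * j) / (4 * (2 ^ j) ^ 5)))) (TT a (2 ^ j) t)) : ℝ) : ℂ)) →
  ∃ s : ℝ, srch W ((δ : ℂ) / (2 * 2 ^ j)) ((δ : ℂ) / (2 * 2 ^ j)) (11 + 21 * j) = (s : ℂ) ∧
    0 ≤ s ∧ s ≤ δ / 2 ^ j ∧ ∀ i k : Fin (2 ^ j), i ≠ k →
      δ / (2 ^ 27 * (2 ^ j) ^ 46) ≤ |eig (TT a (2 ^ j) s) i - eig (TT a (2 ^ j) s) k|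

/-- restriction to a smaller block -/
def S_E : Prop := ∀ a : ℕ → ℕ → ℂ, HT a → ∀ (n N : ℕ) (t y : ℝ), n ≤ N →
  (∀ i j, n ≤ i ∨ n ≤ j → a i j = 0) →
  (∀ i k : Fin N, i ≠ k → y ≤ |eig (TT a N t) i - eig (TT a N t) k|) →
    ∀ i k : Fin n, i ≠ k → y ≤ |eig (TT a n t) i - eig (TT a n t) k|

/-! ### Algebra -/

/-- continuants are (shifted) characteristic polynomials -/
def S_B0 : Prop := ∀ a : ℕ → ℕ → ℂ, HT a → ∀ (n : ℕ) (s : ℂ),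
  (cont (fun i => a i i - s) (fun i => a i (i + 1) * a (i + 1) i) n).1 =
    ∏ i : Fin n, (X - C ((eig (blk a 0 n) i : ℂ) - s))

/-- the product of the leading coefficients is the resultant -/
def S_B1 : Prop := ∀ (n : ℕ) (P Q : ℂ[X]), 1 ≤ n → P.natDegree ≤ n → Q.natDegree ≤ n - 1 →
  (∀ k < n, lc (revc n P) (revc (n - 1) Q) k ≠ 0) →
    ‖Vof n (revc n P) (revc (n - 1) Q)‖ = ‖resultant P Q n (n - 1)‖

/-- the resultant of real and imaginary part -/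
def S_B2 : Prop := ∀ (n : ℕ) (lam : Fin n → ℝ) (σ : ℝ) (P Q : ℂ[X]), 1 ≤ n → 0 < σ →
  P = C (1 / 2) * (∏ i, (X - C ((lam i : ℂ) - Complex.I * σ)) +
    ∏ i, (X - C ((lam i : ℂ) + Complex.I * σ))) →
  Q = C (1 / (2 * Complex.I)) * (∏ i, (X - C ((lam i : ℂ) - Complex.I * σ)) -
    ∏ i, (X - C ((lam i : ℂ) + Complex.I * σ))) →
  P.natDegree ≤ n ∧ P.coeff n = 1 ∧ Q.natDegree ≤ n - 1 ∧
    (∀ i, (P.coeff i).im = 0) ∧ (∀ i, (Q.coeff i).im = 0) ∧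
    ‖resultant P Q n (n - 1)‖ ^ 2 = σ ^ (2 * n) * ∏ i, ∏ j,
      (if i = j then 1 else (lam i - lam j) ^ 2 + 4 * σ ^ 2)

/-- real and imaginary part come from a Hermitian matrix with cyclic vector -/
def S_N1 : Prop := ∀ (n : ℕ) (lam : Fin n → ℝ) (σ : ℝ) (P Q : ℂ[X]), 1 ≤ n → 0 < σ →
  P = C (1 / 2) * (∏ i, (X - C ((lam i : ℂ) - Complex.I * σ)) +
    ∏ i, (X - C ((lam i : ℂ) + Complex.I * σ))) →
  Q = C (1 / (2 * Complex.I)) * (∏ i, (X - C ((lam i : ℂ) - Complex.I * σ)) -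
    ∏ i, (X - C ((lam i : ℂ) + Complex.I * σ))) →
  ∃ (B : Matrix (Fin n) (Fin n) ℂ) (e : Fin n → ℂ), B.IsHermitian ∧
    (∀ u : ℂ[X], u ≠ 0 → u.natDegree < n → (aeval B u).mulVec e ≠ 0) ∧
    ∀ i, revc (n - 1) Q i = ∑ j ∈ Finset.range (i + 1),
      revc n P j * (σ * (star e ⬝ᵥ (B ^ (i - j)).mulVec e))

/-- the continued fraction of a Hermitian matrix with cyclic vector does not break down -/
def S_N2 : Prop := ∀ (n : ℕ) (B : Matrix (Fin n) (Fin n) ℂ) (e : Fin n → ℂ) (σ : ℝ)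
  (F G : ℕ → ℂ), 1 ≤ n → 0 < σ → B.IsHermitian →
  (∀ u : ℂ[X], u ≠ 0 → u.natDegree < n → (aeval B u).mulVec e ≠ 0) →
  F 0 = 1 → (∀ i, (F i).im = 0) →
  (∀ i, G i = ∑ j ∈ Finset.range (i + 1), F j * (σ * (star e ⬝ᵥ (B ^ (i - j)).mulVec e))) →
    ∀ k < n, lc F G k ≠ 0

/-- all about the regularised discriminant -/
def S_B : Prop := ∀ a : ℕ → ℕ → ℂ, HT a → ∀ (n : ℕ) (σ : ℝ), 1 ≤ n → 0 < σ →
  (∀ k < n, lc (FF n (fun i => a i i) (fun i => a i (i + 1) * a (i + 1) i) σ)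
    (GG n (fun i => a i i) (fun i => a i (i + 1) * a (i + 1) i) σ) k ≠ 0) ∧
  V2 n (fun i => a i i) (fun i => a i (i + 1) * a (i + 1) i) σ =
    ((σ ^ (2 * n) * ∏ i : Fin n, ∏ j : Fin n, (if i = j then 1 else
      (eig (blk a 0 n) i - eig (blk a 0 n) j) ^ 2 + 4 * σ ^ 2) : ℝ) : ℂ)

/-- the product computed by the algorithm is the exponential of the potential -/
def S_D1 : Prop := ∀ a : ℕ → ℕ → ℂ, HT a → ∀ (n K : ℕ) (ε : ℝ), 1 ≤ n → 0 < ε →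
  ∃ c : ℝ, ∀ t : ℝ, Wz n K (fun i => a i i) (fun i => a i (i + 1) * a (i + 1) i) ε t =
    ((Real.exp (c + PS (fun x => phi K (x / ε)) (TT a n t)) : ℝ) : ℂ)

/-! ### Complexity -/

/-- multiplication of power series by the fast Fourier transform -/
def S_C1 : Prop := ∃ c : ℕ, ∀ (X : Type) (k : ℕ) (a b : ℕ → X → ℂ),
  Cost (seg (2 ^ k) a ∪ seg (2 ^ k) b) (c * 2 ^ k * (k + 1)) (seg (2 ^ k) (conv a b))

/-- product tree for continuants -/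
def S_C3 : Prop := ∃ c : ℕ, ∀ (X : Type) (j : ℕ) (α γ : ℕ → X → ℂ),
  Cost (seg (2 ^ j) α ∪ seg (2 ^ j) γ) (c * 2 ^ j * (j + 1) ^ 2)
    (seg (2 ^ j + 1) (fun m x => (cont (fun i => α i x) (fun i => γ i x) (2 ^ j)).1.coeff m))

/-- divide and conquer for the continued fraction algorithm -/
def S_C4 : Prop := ∃ c : ℕ, ∀ (X : Type) (j : ℕ) (F G : ℕ → X → ℂ),
  (∀ x, ∀ k < 2 ^ j, lc (fun i => F i x) (fun i => G i x) k ≠ 0) →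
  Cost (seg (2 * 2 ^ j) F ∪ seg (2 * 2 ^ j) G) (c * 2 ^ j * (j + 1) ^ 2)
    (seg (2 ^ j) (fun k x => lc (fun i => F i x) (fun i => G i x) k))

/-- computation of the regularised discriminant -/
def S_C5 : Prop := ∃ c : ℕ, ∀ (X : Type) (j : ℕ) (α γ : ℕ → X → ℂ) (σ : X → ℂ),
  (∀ x, ∀ k < 2 ^ j, lc (FF (2 ^ j) (fun i => α i x) (fun i => γ i x) (σ x))
    (GG (2 ^ j) (fun i => α i x) (fun i => γ i x) (σ x)) k ≠ 0) →
  Cost (seg (2 ^ j) α ∪ seg (2 ^ j) γ ∪ {σ}) (c * 2 ^ j * (j + 1) ^ 2)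
    {fun x => V2 (2 ^ j) (fun i => α i x) (fun i => γ i x) (σ x)}

/-- computation of the exponential of the potential -/
def S_C6 : Prop := ∃ c : ℕ, ∀ (X : Type) (j K : ℕ) (α γ : ℕ → X → ℂ) (ε t : X → ℂ),
  (∀ x, ∀ l ≤ K, ∀ k < 2 ^ j,
    lc (FF (2 ^ j) (fun i => α i x + t x * ((i : ℂ) + 1)) (fun i => γ i x) (16 ^ l * ε x / 2))
      (GG (2 ^ j) (fun i => α i x + t x * ((i : ℂ) + 1)) (fun i => γ i x)
        (16 ^ l * ε x / 2)) k ≠ 0) →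
  Cost (seg (2 ^ j) α ∪ seg (2 ^ j) γ ∪ {ε, t}) ((c * 2 ^ j * (j + 1) ^ 2 + c * K) * (K + 1))
    {fun x => Wz (2 ^ j) K (fun i => α i x) (fun i => γ i x) (ε x) (t x)}

/-- cost of the search -/
def S_C7 : Prop := ∀ (X : Type) (W : X → ℂ → ℂ) (cW : ℕ) (S : Set (X → ℂ)),
  (∀ t : X → ℂ, (∀ x, (t x).im = 0) → Cost (S ∪ {t}) cW {fun x => W x (t x)}) →
  ∀ t0 h0 : X → ℂ, (∀ x, (t0 x).im = 0) → (∀ x, (h0 x).im = 0) → ∀ J : ℕ,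
    Cost (S ∪ {t0, h0}) (J * (21 * cW + 200)) {fun x => srch (W x) (t0 x) (h0 x) J}

/-- cost of the whole computation of the parameter -/
def S_C8 : Prop := ∃ c : ℕ, ∀ (X : Type) (j : ℕ) (α γ : ℕ → X → ℂ) (δ : X → ℂ),
  (∀ x, ∃ a : ℕ → ℕ → ℂ, HT a ∧ (∀ i, α i x = a i i) ∧
    (∀ i, γ i x = a i (i + 1) * a (i + 1) i)) →
  (∀ x, ∃ d : ℝ, 0 < d ∧ δ x = d) →
  Cost (seg (2 ^ j) α ∪ seg (2 ^ j) γ ∪ {δ}) (c * 2 ^ j * (j + 1) ^ 4)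
    {fun x => tsol j (fun i => α i x) (fun i => γ i x) (δ x)}

end Pool.Agent.H22.NL
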